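import Pool.Agent.P.MP_3c2f8c_gt.Ex.BDefs

/-! Ex-Al-B1: generalities on Albert pairs. -/

namespace Pool.Agent.P.MP_3c2f8c_gt.Ex

open Matrix

variable {R S : Type} [CommRing R] [CommRing S] {n m n' m' : T3 R}

namespace B1Aux

theorem ind {P : (I → R) → Prop} (h1 : ∀ a, P (Pi.single a 1)) (h0 : P 0)
    (hs : ∀ (t : R) x, P x → P (t • x)) (ha : ∀ x y, P x → P y → P (x + y)) (x : I → R) : P x := by
  rw [pi_eq_sum_univ' x]
  exact Finset.sum_induction _ P ha h0 fun a _ => hs _ _ (h1 a)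

theorem crs_ss (n : T3 R) (a b : I) : crs n (Pi.single a 1) (Pi.single b 1) = n a b :=
  funext (crs_single n a b)

theorem dot_ext {u v : I → R} (h : ∀ z, u ⬝ᵥ z = v ⬝ᵥ z) : u = v := by
  funext c
  simpa using h (Pi.single c 1)

theorem crs_apply (n : T3 R) (x y : I → R) (c : I) : crs n x y c = tri n x y (Pi.single c 1) := by
  rw [tri_eq_dot, dotProduct_single, mul_one]

theorem crs_pull (n : T3 R) (g : Matrix I I R) (x y : I → R) :
    crs (n.pull g) x y = gᵀ *ᵥ crs n (g *ᵥ x) (g *ᵥ y) := dot_ext fun z => by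
  rw [← tri_eq_dot, tri_pull, tri_eq_dot, mulVec_transpose, ← dotProduct_mulVec]

theorem inv_mulVec (g : GL I R) (x : I → R) : (g⁻¹).1 *ᵥ (g.1 *ᵥ x) = x := by
  rw [mulVec_mulVec, ← Units.val_mul, inv_mul_cancel, Units.val_one, one_mulVec]

theorem dag_mulVec (g : GL I R) (x : I → R) : (dag g).1 *ᵥ (g.1ᵀ *ᵥ x) = x := by
  rw [mulVec_mulVec, show (dag g).1 * g.1ᵀ = 1 from (dag g).val_inv, one_mulVec]

theorem f4_pull (h : F4 n m) (g : GL I R) : F4 (n.pull g.1) (m.pull (dag g).1) := fun x y z w => by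
  have := congrArg ((g⁻¹).1 *ᵥ ·) (h (g.1 *ᵥ x) (g.1 *ᵥ y) (g.1 *ᵥ z) (g.1 *ᵥ w))
  simp only [mulVec_add, mulVec_smul, inv_mulVec] at this
  simp only [crs_pull, dag_mulVec, tri_pull]
  exact this

theorem f4_smul (h : F4 n m) (t : Rˣ) : F4 (t.1 • n) ((t⁻¹).1 • m) := fun x y z w => by
  have := congrArg (t.1 • ·) (h x y z w)
  simp only [smul_add, smul_smul] at this
  simp only [crs_smul_tensor, crs_smul_left, crs_smul_right, tri_smul_tensor, smul_smul,
    Units.mul_inv, mul_one]
  exact this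

/-- The matrix of `crs n x`. -/
def mt (n : T3 R) (x : I → R) : Matrix I I R := Matrix.of fun c b => crs n x (Pi.single b 1) c

theorem mt_mulVec (n : T3 R) (x y : I → R) : mt n x *ᵥ y = crs n x y := by
  funext c
  conv_rhs => rw [pi_eq_sum_univ' y, ← crsL_apply, map_sum]
  simp [mt, mulVec, dotProduct, mul_comm]

theorem trace_eq (n m : T3 R) (x ξ : I → R) :
    ∑ b, crs m ξ (crs n x (Pi.single b 1)) b = (mt m ξ * mt n x).trace := by
  refine Finset.sum_congr rfl fun b _ => ?_
  rw [← mt_mulVec m, ← mt_mulVec n, mulVec_mulVec, mulVec_single_one]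
  rfl

theorem mt_pull (n : T3 R) (g : Matrix I I R) (x : I → R) :
    mt (n.pull g) x = gᵀ * mt n (g *ᵥ x) * g := by
  refine ext_of_mulVec_single fun b => ?_
  rw [mt_mulVec, crs_pull, ← mulVec_mulVec, ← mulVec_mulVec, mt_mulVec]

theorem trace_single (hm : Sym3 m) (a d : I) :
    ∑ b, crs m (Pi.single d 1) (crs n (Pi.single a 1) (Pi.single b 1)) b =
      ∑ b, ∑ c, n a b c * m d b c := by
  refine Finset.sum_congr rfl fun b _ => ?_
  rw [crs_apply, hm.tri_swap₂₃, tri_eq_dot, crs_ss, crs_ss, dotProduct_comm]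
  rfl

theorem unit_cancel [Algebra ℚ R] (k : ℕ) (hk : k ≠ 0) : IsUnit (k : R) := by
  have : IsUnit (k : ℚ) := IsUnit.mk0 _ (by exact_mod_cast hk)
  simpa using this.map (algebraMap ℚ R)

theorem swap {W : Type} [AddCommGroup W] [Module R W] (hm : Sym3 m) (η : I → R)
    (Φ : (I → R) →ₗ[R] (I → R) →ₗ[R] W) :
    ∑ c, Φ (Pi.single c 1) (crs m η (Pi.single c 1)) =
      ∑ c, Φ (crs m η (Pi.single c 1)) (Pi.single c 1) := by
  have e : ∀ c, crs m η (Pi.single c 1) =
      ∑ q, tri m η (Pi.single c 1) (Pi.single q 1) • (Pi.single q 1 : I → R) := fun c => by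
    conv_lhs => rw [pi_eq_sum_univ' (crs m η (Pi.single c 1))]
    simp only [crs_apply]
  simp only [e, map_sum, map_smul, LinearMap.sum_apply, LinearMap.smul_apply]
  rw [Finset.sum_comm]
  exact Finset.sum_congr rfl fun c _ => Finset.sum_congr rfl fun q _ => by rw [hm.tri_swap₂₃]

end B1Aux

open B1Aux

theorem IsAlb.symm (h : IsAlb n m) : IsAlb m n :=
  ⟨h.sym', h.sym, h.f4', h.f4, fun a d => by
    simp only [eq_comm (a := a), ← h.tr d a, mul_comm]⟩

theorem Sym3.map (h : Sym3 n) (f : R → S) : Sym3 (n.map f) :=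
  ⟨fun a b c => congrArg f (h.1 a b c), fun a b c => congrArg f (h.2 a b c)⟩

theorem Sym3.pull (h : Sym3 n) (g : Matrix I I R) : Sym3 (n.pull g) :=
  ⟨fun _ _ _ => h.tri_swap₁₂ _ _ _, fun _ _ _ => h.tri_swap₂₃ _ _ _⟩

theorem f4_iff_single : F4 n m ↔ ∀ a b c d : I,
    crs m (n a b) (n c d) + crs m (n a c) (n b d) + crs m (n a d) (n b c) =
      n a b c • (Pi.single d 1 : I → R) + n a b d • (Pi.single c 1 : I → R) +
        n a c d • (Pi.single b 1 : I → R) + n b c d • (Pi.single a 1 : I → R) := by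
  refine ⟨fun h a b c d => by
    simpa only [crs_ss, tri_single] using
      h (Pi.single a 1) (Pi.single b 1) (Pi.single c 1) (Pi.single d 1), fun h x y z w => ?_⟩
  have z1 : ∀ y z : I → R, tri n 0 y z = 0 := fun y z => by simp [tri_eq_dot]
  have z2 : ∀ y z : I → R, tri n y 0 z = 0 := fun y z => by simp [tri_eq_dot]
  have z3 : ∀ y z : I → R, tri n y z 0 = 0 := fun y z => by simp [tri_eq_dot]
  induction x using ind with
  | h0 => simp [z1]
  | hs t x hx =>
    simp only [crs_smul_left, tri_smul₁]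
    linear_combination (norm := module) t • hx
  | ha x x' hx hx' =>
    simp only [crs_add_left, tri_add₁]
    linear_combination (norm := module) hx + hx'
  | h1 a =>
  induction y using ind with
  | h0 => simp [z1, z2]
  | hs t x hx =>
    simp only [crs_smul_left, crs_smul_right, tri_smul₁, tri_smul₂]
    linear_combination (norm := module) t • hx
  | ha x x' hx hx' =>
    simp only [crs_add_left, crs_add_right, tri_add₁, tri_add₂]
    linear_combination (norm := module) hx + hx'
  | h1 b =>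
  induction z using ind with
  | h0 => simp [z2, z3]
  | hs t x hx =>
    simp only [crs_smul_left, crs_smul_right, tri_smul₂, tri_smul₃]
    linear_combination (norm := module) t • hx
  | ha x x' hx hx' =>
    simp only [crs_add_left, crs_add_right, tri_add₂, tri_add₃]
    linear_combination (norm := module) hx + hx'
  | h1 c =>
  induction w using ind with
  | h0 => simp [z3]
  | hs t x hx =>
    simp only [crs_smul_left, crs_smul_right, tri_smul₃]
    linear_combination (norm := module) t • hx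
  | ha x x' hx hx' =>
    simp only [crs_add_left, crs_add_right, tri_add₃]
    linear_combination (norm := module) hx + hx'
  | h1 d => simpa only [crs_ss, tri_single] using h a b c d

namespace B1Aux

theorem f4_map_iff (f : R →+* S) : F4 (n.map f) (m.map f) ↔ ∀ a b c d e : I,
    f ((crs m (n a b) (n c d) + crs m (n a c) (n b d) + crs m (n a d) (n b c)) e) =
      f ((n a b c • (Pi.single d 1 : I → R) + n a b d • (Pi.single c 1 : I → R) +
        n a c d • (Pi.single b 1 : I → R) + n b c d • (Pi.single a 1 : I → R)) e) := by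
  have e1 : ∀ a b c d e, crs (m.map f) (n.map f a b) (n.map f c d) e =
      f (crs m (n a b) (n c d) e) := fun a b c d e => congrFun (crs_map f m (n a b) (n c d)) e
  have e2 : ∀ a e : I, f ((Pi.single a 1 : I → R) e) = (Pi.single a 1 : I → S) e := fun a e => by
    by_cases h : e = a
    · subst h
      simp
    · simp [h]
  simp only [f4_iff_single, funext_iff, Pi.add_apply, Pi.smul_apply, smul_eq_mul, map_add, map_mul,
    e1, e2]
  rfl

theorem tr_map (f : R →+* S) (a d : I) : ∑ b, ∑ c, n.map f a b c * m.map f d b c =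
    f (∑ b, ∑ c, n a b c * m d b c) := by
  simp [T3.map]

theorem ten_map (f : R →+* S) (a d : I) :
    f (if a = d then 10 else 0) = if a = d then 10 else 0 := by
  split_ifs
  · exact map_ofNat f 10
  · exact map_zero f

end B1Aux

theorem IsAlb.map (h : IsAlb n m) (f : R →+* S) : IsAlb (n.map f) (m.map f) :=
  ⟨h.sym.map f, h.sym'.map f,
    (f4_map_iff f).2 fun a b c d e => by rw [f4_iff_single.1 h.f4],
    (f4_map_iff f).2 fun a b c d e => by rw [f4_iff_single.1 h.f4'],
    fun a d => by rw [tr_map, h.tr, ten_map]⟩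

theorem IsAlb.of_map {f : R →+* S} (hf : Function.Injective f) (h : IsAlb (n.map f) (m.map f)) :
    IsAlb n m :=
  ⟨⟨fun a b c => hf (h.sym.1 a b c), fun a b c => hf (h.sym.2 a b c)⟩,
    ⟨fun a b c => hf (h.sym'.1 a b c), fun a b c => hf (h.sym'.2 a b c)⟩,
    f4_iff_single.2 fun a b c d => funext fun e => hf ((f4_map_iff f).1 h.f4 a b c d e),
    f4_iff_single.2 fun a b c d => funext fun e => hf ((f4_map_iff f).1 h.f4' a b c d e),
    fun a d => hf (by rw [← tr_map, h.tr, ten_map])⟩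

theorem IsAlb.trace (h : IsAlb n m) (x ξ : I → R) :
    ∑ b, crs m ξ (crs n x (Pi.single b 1)) b = 10 * (ξ ⬝ᵥ x) := by
  induction x using ind with
  | h0 => simp
  | hs t x hx =>
    simp only [crs_smul_left, crs_smul_right, Pi.smul_apply, smul_eq_mul, ← Finset.mul_sum, hx,
      dotProduct_smul]
    ring
  | ha x x' hx hx' =>
    simp only [crs_add_left, crs_add_right, Pi.add_apply, Finset.sum_add_distrib, hx, hx',
      dotProduct_add]
    ring
  | h1 a =>
  induction ξ using ind with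
  | h0 => simp
  | hs t x hx =>
    simp only [crs_smul_left, Pi.smul_apply, smul_eq_mul, ← Finset.mul_sum, hx, smul_dotProduct]
    ring
  | ha x x' hx hx' =>
    simp only [crs_add_left, Pi.add_apply, Finset.sum_add_distrib, hx, hx', add_dotProduct]
    ring
  | h1 d =>
    rw [trace_single h.sym', h.tr, dotProduct_single, Pi.single_apply]
    split_ifs <;> simp

theorem IsAlb.pull (h : IsAlb n m) (g : GL I R) : IsAlb (n.pull g.1) (m.pull (dag g).1) := by
  refine ⟨h.sym.pull _, h.sym'.pull _, f4_pull h.f4 g, f4_pull h.f4' (dag g), fun a d => ?_⟩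
  have e1 : (dag g).1 * g.1ᵀ = 1 := (dag g).val_inv
  have e2 : g.1 * (dag g).1ᵀ = 1 := g.val_inv
  rw [← trace_single (h.sym'.pull _), trace_eq, mt_pull, mt_pull]
  simp only [Matrix.mul_assoc]
  rw [trace_mul_comm, ← Matrix.mul_assoc (dag g).1, e1, Matrix.one_mul]
  simp only [Matrix.mul_assoc]
  rw [e2, Matrix.mul_one, ← trace_eq, h.trace, dag_dot, dotProduct_single, Pi.single_apply]
  split_ifs <;> simp

theorem IsAlb.smul (h : IsAlb n m) (t : Rˣ) : IsAlb (t.1 • n) ((t⁻¹).1 • m) := by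
  refine ⟨⟨fun a b c => ?_, fun a b c => ?_⟩, ⟨fun a b c => ?_, fun a b c => ?_⟩, f4_smul h.f4 t,
    f4_smul h.f4' t⁻¹, fun a d => ?_⟩
  · exact congrArg (t.1 * ·) (h.sym.1 a b c)
  · exact congrArg (t.1 * ·) (h.sym.2 a b c)
  · exact congrArg ((t⁻¹).1 * ·) (h.sym'.1 a b c)
  · exact congrArg ((t⁻¹).1 * ·) (h.sym'.2 a b c)
  · rw [← h.tr]
    refine Finset.sum_congr rfl fun b _ => Finset.sum_congr rfl fun c _ => ?_
    simp only [Pi.smul_apply, smul_eq_mul]
    linear_combination (n a b c * m d b c) * t.mul_inv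

theorem sim_pull (n : T3 R) (g : Matrix I I R) : Sim (n.pull g) n g 1 := fun x y z => by
  rw [tri_pull, one_mul]

theorem IsAlb.adj₁ (h : IsAlb n m) (x : I → R) :
    (3 : R) • crs m (crs n x x) (crs n x x) = (4 * tri n x x x) • x := by
  linear_combination (norm := module) h.f4 x x x x

theorem IsAlb.adj₂ (h : IsAlb n m) (x w : I → R) :
    (3 : R) • crs m (crs n x x) (crs n x w) = tri n x x x • w + (3 * tri n x x w) • x := by
  have := h.f4 x x x w
  rw [h.sym'.crs_comm (crs n x w)] at this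
  linear_combination (norm := module) this

theorem IsAlb.adj₃ (h : IsAlb n m) (x z w : I → R) :
    crs m (crs n x x) (crs n z w) + (2 : R) • crs m (crs n x z) (crs n x w) =
      tri n x x z • w + tri n x x w • z + (2 * tri n x z w) • x := by
  have := h.f4 x x z w
  rw [h.sym'.crs_comm (crs n x w)] at this
  linear_combination (norm := module) this

theorem IsAlb.tri_adj (h : IsAlb n m) (x : I → R) :
    3 * tri m (crs n x x) (crs n x x) (crs n x x) = 4 * tri n x x x ^ 2 := by
  have := congrArg (· ⬝ᵥ crs n x x) (h.adj₁ x)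
  simp only [smul_dotProduct, smul_eq_mul] at this
  rw [← tri_eq_dot, dotProduct_comm, ← tri_eq_dot] at this
  linear_combination this

theorem IsAlb.span (h : IsAlb n m) (ξ : I → R) :
    ∑ b, crs n (crs m ξ (Pi.single b 1)) (Pi.single b 1) = (10 : R) • ξ := dot_ext fun x => by
  rw [smul_dotProduct, smul_eq_mul, ← h.trace, sum_dotProduct]
  refine Finset.sum_congr rfl fun b _ => ?_
  rw [← tri_eq_dot, h.sym.tri_rotate, h.sym.tri_swap₁₂, tri_eq_dot, dotProduct_comm, ← tri_eq_dot,
    h.sym'.tri_swap₂₃, crs_apply]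

theorem tri_eq_of_diag [Algebra ℚ R] (h : Sym3 n) (h' : Sym3 n')
    (e : ∀ x, tri n x x x = tri n' x x x) : n = n' := by
  have key : ∀ {n : T3 R}, Sym3 n → ∀ x y z, (6 : ℕ) * tri n x y z =
      tri n (x + y + z) (x + y + z) (x + y + z) - tri n (x + y) (x + y) (x + y) -
        tri n (x + z) (x + z) (x + z) - tri n (y + z) (y + z) (y + z) + tri n x x x + tri n y y y +
        tri n z z z := fun {n} h x y z => by
    simp only [tri_add₁, tri_add₂, tri_add₃]
    have a1 := h.tri_swap₂₃ x y z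
    have a2 := h.tri_swap₁₂ x y z
    have a3 := h.tri_rotate x y z
    have a4 := h.tri_rotate z x y
    have a5 := h.tri_swap₁₂ z y x
    push_cast
    linear_combination a1 + a2 + 2 * a3 - a4 - a5
  refine tri_ext fun x y z => (unit_cancel 6 (by norm_num)).mul_left_cancel ?_
  rw [key h, key h']
  simp only [e]

theorem sim_of_diag [Algebra ℚ R] (h : Sym3 n) (h' : Sym3 n') {g : Matrix I I R} {ν : R}
    (e : ∀ x, tri n' (g *ᵥ x) (g *ᵥ x) (g *ᵥ x) = ν * tri n x x x) : Sim n n' g ν :=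
  sim_iff_pull.2 (tri_eq_of_diag (h'.pull g) (h.map (ν * ·)) fun x => by
    rw [tri_pull, e, tri_smul_tensor])

theorem IsAlb.eq_zero [Algebra ℚ R] (h : IsAlb n m) {x : I → R} (hx : ∀ y, crs n x y = 0) :
    x = 0 := dot_ext fun ξ => (unit_cancel 10 (by norm_num)).mul_left_cancel (by
  have := h.trace x ξ
  simp only [hx, crs_zero_right, Pi.zero_apply, Finset.sum_const_zero] at this
  rw [dotProduct_comm, zero_dotProduct, mul_zero]
  exact_mod_cast this.symm)

theorem IsAlb.exists_ne {K : Type} [Field K] [CharZero K] {n m : T3 K} (h : IsAlb n m) :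
    ∃ x, tri n x x x ≠ 0 := by
  by_contra hc
  push Not at hc
  have e : n = 0 := tri_eq_of_diag h.sym ⟨fun _ _ _ => rfl, fun _ _ _ => rfl⟩ fun x => by
    rw [hc]
    simp [tri]
  have := h.tr (.inl 0) (.inl 0)
  simp [e] at this

theorem IsAlb.unique [Algebra ℚ R] (h : IsAlb n m) (h' : IsAlb n m') : m = m' := by
  obtain ⟨δ, hδ⟩ : ∃ δ : (I → R) →ₗ[R] (I → R) →ₗ[R] (I → R),
      ∀ ξ η, δ ξ η = crs m ξ η - crs m' ξ η := ⟨crsL m - crsL m', fun _ _ => rfl⟩
  have sδ : ∀ ξ η, δ ξ η = δ η ξ := fun ξ η => by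
    rw [hδ, hδ, h.sym'.crs_comm, h'.sym'.crs_comm]
  have H : ∀ x y z w, δ (crs n x y) (crs n z w) + δ (crs n x z) (crs n y w) +
      δ (crs n x w) (crs n y z) = 0 := fun x y z w => by
    simp only [hδ]
    linear_combination (norm := module) h.f4 x y z w - h'.f4 x y z w
  have τ : ∀ u, ∑ c, δ (crs n u (Pi.single c 1)) (Pi.single c 1) = 0 := fun u => by
    simp only [hδ, Finset.sum_sub_distrib, h.symm.span, h'.symm.span, sub_self]
  have sp : ∀ ξ, ∑ b, crs n (Pi.single b 1) (crs m ξ (Pi.single b 1)) = (10 : R) • ξ := fun ξ => by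
    simp only [h.sym.crs_comm (Pi.single _ 1), h.span]
  have main : ∀ ξ η, δ ξ η = 0 := fun ξ η => by
    obtain ⟨s, hs⟩ : ∃ s, s = ∑ b, ∑ c, δ (crs n (crs m ξ (Pi.single b 1)) (crs m η (Pi.single c 1)))
      (crs n (Pi.single b 1) (Pi.single c 1)) := ⟨_, rfl⟩
    have s1 : ∑ b, ∑ c, δ (crs n (crs m ξ (Pi.single b 1)) (Pi.single b 1))
        (crs n (crs m η (Pi.single c 1)) (Pi.single c 1)) = (100 : R) • δ ξ η := by
      simp only [← map_sum, h.span]
      rw [← LinearMap.sum_apply, ← map_sum, h.span, map_smul, map_smul, LinearMap.smul_apply,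
        smul_smul]
      norm_num
    have s3 : ∑ b, ∑ c, δ (crs n (crs m ξ (Pi.single b 1)) (Pi.single c 1))
        (crs n (Pi.single b 1) (crs m η (Pi.single c 1))) = s := by
      rw [hs]
      exact Finset.sum_congr rfl fun b _ => swap h.sym' η
        (δ.compl₁₂ (crsL n (crs m ξ (Pi.single b 1))) (crsL n (Pi.single b 1)))
    have E1 : (100 : R) • δ ξ η + s + s = 0 := by
      nth_rw 2 [← s3]
      rw [← s1, hs]
      simp only [← Finset.sum_add_distrib, H, Finset.sum_const_zero]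
    have t0 : ∑ b, ∑ c, δ (crs n (crs m ξ η) (crs m (Pi.single b 1) (Pi.single c 1)))
        (crs n (Pi.single b 1) (Pi.single c 1)) = 0 := by
      have : ∀ b, ∑ c, δ (crs n (crs m ξ η) (crs m (Pi.single b 1) (Pi.single c 1)))
          (crs n (Pi.single b 1) (Pi.single c 1)) = ∑ c, δ (crs n (crs m ξ η) (Pi.single c 1))
          (crs n (Pi.single b 1) (crs m (Pi.single b 1) (Pi.single c 1))) := fun b =>
        (swap h.sym' (Pi.single b 1)
          (δ.compl₁₂ (crsL n (crs m ξ η)) (crsL n (Pi.single b 1)))).symm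
      simp only [this]
      rw [Finset.sum_comm]
      simp only [← map_sum]
      have e : ∀ c, ∑ b, crs n (Pi.single b 1) (crs m (Pi.single b 1) (Pi.single c 1)) =
          (10 : R) • (Pi.single c 1 : I → R) := fun c => by
        rw [← sp]
        exact Finset.sum_congr rfl fun b _ => by rw [h.sym'.crs_comm]
      simp only [e, map_smul, ← Finset.smul_sum, τ, smul_zero]
    have t1 : ∀ k : I → R, ∑ b, ∑ c, k b • δ (Pi.single c 1)
        (crs n (Pi.single b 1) (Pi.single c 1)) = 0 := fun k => by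
      simp only [← Finset.smul_sum, sδ (Pi.single _ 1), τ, smul_zero, Finset.sum_const_zero]
    have t1' : ∀ k : I → R, ∑ b, ∑ c, k c • δ (Pi.single b 1)
        (crs n (Pi.single b 1) (Pi.single c 1)) = 0 := fun k => by
      rw [Finset.sum_comm, ← t1 k]
      exact Finset.sum_congr rfl fun b _ => Finset.sum_congr rfl fun c _ => by
        rw [h.sym.crs_comm]
    have t2 : ∀ ξ η, ∑ b, ∑ c, tri m ξ (Pi.single b 1) (Pi.single c 1) • δ η
        (crs n (Pi.single b 1) (Pi.single c 1)) = (10 : R) • δ η ξ := fun ξ η => by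
      rw [← map_smul, ← sp, map_sum]
      refine Finset.sum_congr rfl fun b _ => ?_
      conv_rhs => rw [pi_eq_sum_univ' (crs m ξ (Pi.single b 1)), ← crsL_apply, map_sum, map_sum]
      simp only [map_smul, crs_apply, crsL_apply]
    have s2 : ∑ b, ∑ c, δ (crs n (crs m ξ (Pi.single c 1)) (crs m (Pi.single b 1) η))
        (crs n (Pi.single b 1) (Pi.single c 1)) = s := by
      rw [hs, Finset.sum_comm]
      exact Finset.sum_congr rfl fun b _ => Finset.sum_congr rfl fun c _ => by
        rw [h.sym.crs_comm (Pi.single c 1), h.sym'.crs_comm η]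
    have E2 : s + 0 + s = 0 + (10 : R) • δ η ξ + 0 + (10 : R) • δ ξ η := by
      nth_rw 2 [← s2]
      nth_rw 1 [← t0, ← t1 fun b => tri m ξ (Pi.single b 1) η]
      rw [← t1' fun c => tri m ξ η (Pi.single c 1), ← t2, ← t2, hs]
      simp only [← Finset.sum_add_distrib]
      refine Finset.sum_congr rfl fun b _ => Finset.sum_congr rfl fun c _ => ?_
      have := congrArg (fun v => δ v (crs n (Pi.single b 1) (Pi.single c 1)))
        (h.f4' ξ (Pi.single b 1) η (Pi.single c 1))
      simp only [map_add, map_smul, LinearMap.add_apply, LinearMap.smul_apply] at this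
      rw [this, h.sym'.tri_swap₁₂ η]
    rw [sδ η] at E2
    have E3 : ((120 : ℕ) : R) • δ ξ η = 0 := by
      push_cast
      linear_combination (norm := module) E1 - E2
    exact ((unit_cancel 120 (by norm_num)).smul_eq_zero).1 E3
  funext a b
  rw [← crs_ss m, ← crs_ss m', ← sub_eq_zero, ← hδ, main]

theorem Sim.isUnit [Algebra ℚ R] (h : IsAlb n' m') {g : GL I R} {ν : R} (hg : Sim n n' g.1 ν) :
    IsUnit ν := by
  have := (h.pull g).tr (.inl 0) (.inl 0)
  rw [sim_iff_pull.1 hg] at this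
  simp only [Pi.smul_apply, smul_eq_mul, mul_assoc, ← Finset.mul_sum, if_true] at this
  have u := unit_cancel (R := R) 10 (by norm_num)
  push_cast at u
  exact isUnit_of_mul_isUnit_left (this ▸ u)

theorem Sim.unique [Algebra ℚ R] (h : IsAlb n m) {g : Matrix I I R} {ν ν' : R} (hg : Sim n n' g ν)
    (hg' : Sim n n' g ν') : ν = ν' := by
  have e : ν • n = ν' • n := (sim_iff_pull.1 hg).symm.trans (sim_iff_pull.1 hg')
  have k : ∀ t : R, t * 10 = ∑ b, ∑ c, (t • n) (.inl 0) b c * m (.inl 0) b c := fun t => by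
    simp only [Pi.smul_apply, smul_eq_mul, mul_assoc, ← Finset.mul_sum, h.tr, if_true]
  have u := unit_cancel (R := R) 10 (by norm_num)
  push_cast at u
  exact u.mul_right_cancel (by rw [k, k, e])

theorem Sim.dag [Algebra ℚ R] (h : IsAlb n m) (h' : IsAlb n' m') {g : GL I R} {ν : Rˣ}
    (hg : Sim n n' g.1 ν) : Sim m m' (Ex.dag g).1 (ν⁻¹).1 := by
  have := h'.pull g
  rw [sim_iff_pull.1 hg] at this
  exact sim_iff_pull.2 (this.unique (h.smul ν))

theorem Sim.crs' [Algebra ℚ R] (h : IsAlb n m) (h' : IsAlb n' m') {g : GL I R} {ν : Rˣ}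
    (hg : Sim n n' g.1 ν) (ξ η : I → R) :
    Ex.crs m' ((Ex.dag g).1 *ᵥ ξ) ((Ex.dag g).1 *ᵥ η) = (ν⁻¹).1 • g.1 *ᵥ Ex.crs m ξ η :=
  (Sim.dag h h' hg).crs ξ η

theorem dag_map (f : R →+* S) (g : GL I R) : dag (glmap f g) = glmap f (dag g) := Units.ext rfl

theorem NoPlane.of_map {K K' : Type} [Field K] [Field K'] (f : K →+* K') {n : T3 K}
    (h : NoPlane (n.map f)) : NoPlane n := fun x y hxx hxy hyy hx => by
  have z : f ∘ (0 : I → K) = 0 := funext fun _ => map_zero f
  obtain ⟨a, ha⟩ := Function.ne_iff.1 hx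
  have ha' : f (x a) ≠ 0 := (map_ne_zero f).2 ha
  obtain ⟨c, hc⟩ := h (f ∘ x) (f ∘ y) (by rw [crs_map, hxx, z]) (by rw [crs_map, hxy, z])
    (by rw [crs_map, hyy, z]) (Function.ne_iff.2 ⟨a, ha'⟩)
  have e : ∀ i, f (y i) = c * f (x i) := congrFun hc
  refine ⟨y a / x a, funext fun i => f.injective ?_⟩
  rw [Pi.smul_apply, smul_eq_mul, map_mul, map_div₀, e a, e i, mul_div_cancel_right₀ _ ha']

theorem NoPlane.of_sim {g : GL I R} {ν : R} (hg : Sim n n' g.1 ν) (h : NoPlane n') :
    NoPlane n := fun x y hxx hxy hyy hx => by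
  obtain ⟨c, hc⟩ := h (g.1 *ᵥ x) (g.1 *ᵥ y) (by rw [hg.crs, hxx, mulVec_zero, smul_zero])
    (by rw [hg.crs, hxy, mulVec_zero, smul_zero]) (by rw [hg.crs, hyy, mulVec_zero, smul_zero])
    fun e => hx (by rw [← inv_mulVec g x, e, mulVec_zero])
  exact ⟨c, by rw [← inv_mulVec g y, hc, mulVec_smul, inv_mulVec]⟩

end Pool.Agent.P.MP_3c2f8c_gt.Ex
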