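import Pool.Agent.P.MP_3c2f8c_gt.Ex.Al.B1

/-! Ex-Al-B2: derivations. -/

namespace Pool.Agent.P.MP_3c2f8c_gt.Ex

open Matrix

variable {R S : Type} [CommRing R] [CommRing S] {n m n' m' : T3 R} {X Y : Matrix I I R} {c c' : R}

theorem DD_mulVec (n m : T3 R) (x ξ v : I → R) :
    DD n m x ξ *ᵥ v = (ξ ⬝ᵥ x) • v + (ξ ⬝ᵥ v) • x - crs m ξ (crs n x v) := by
  have e : DD n m x ξ = (ξ ⬝ᵥ x) • (1 : Matrix I I R) + vecMulVec x ξ -
      LinearMap.toMatrix' (crsL m ξ ∘ₗ crsL n x) := rfl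
  rw [e, sub_mulVec, add_mulVec, smul_mulVec, one_mulVec, vecMulVec_mulVec, op_smul_eq_smul,
    LinearMap.toMatrix'_mulVec]
  rfl

theorem DD_add_left (n m : T3 R) (x x' ξ : I → R) : DD n m (x + x') ξ = DD n m x ξ + DD n m x' ξ := by
  ext a b
  simp only [DD, of_apply, Matrix.add_apply, crs_add_left, crs_add_right, dotProduct_add,
    Pi.add_apply]
  ring

theorem DD_add_right (n m : T3 R) (x ξ ξ' : I → R) :
    DD n m x (ξ + ξ') = DD n m x ξ + DD n m x ξ' := by
  ext a b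
  simp only [DD, of_apply, Matrix.add_apply, crs_add_left, add_dotProduct, Pi.add_apply]
  ring

theorem DD_smul_left (n m : T3 R) (t : R) (x ξ : I → R) : DD n m (t • x) ξ = t • DD n m x ξ := by
  ext a b
  simp only [DD, of_apply, Matrix.smul_apply, crs_smul_left, crs_smul_right, dotProduct_smul,
    Pi.smul_apply, smul_eq_mul]
  ring

theorem DD_smul_right (n m : T3 R) (t : R) (x ξ : I → R) : DD n m x (t • ξ) = t • DD n m x ξ := by
  ext a b
  simp only [DD, of_apply, Matrix.smul_apply, crs_smul_left, smul_dotProduct, Pi.smul_apply,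
    smul_eq_mul]
  ring

theorem DD_map (f : R →+* S) (n m : T3 R) (x ξ : I → R) :
    (DD n m x ξ).map f = DD (n.map f) (m.map f) (f ∘ x) (f ∘ ξ) := by
  ext a b
  have e : (Pi.single b 1 : I → S) = f ∘ (Pi.single b 1 : I → R) := by
    funext i
    simp [Pi.single_apply]
  simp only [DD, map_apply, of_apply]
  rw [e, crs_map, crs_map, map_sub, map_add, map_mul, map_mul, RingHom.map_dotProduct]
  simp [one_apply]

theorem IsAlb.DD_transpose (h : IsAlb n m) (x ξ : I → R) : (DD n m x ξ)ᵀ = DD m n ξ x := by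
  ext a b
  have e : crs m ξ (crs n x (Pi.single a 1)) b = crs n x (crs m ξ (Pi.single b 1)) a := by
    rw [← dotProduct_single_one (crs m ξ _) b, ← dotProduct_single_one (crs n x (crs m ξ _)) a,
      ← tri_eq_dot, ← tri_eq_dot, h.sym'.tri_swap₂₃, h.sym.tri_swap₂₃, tri_eq_dot, tri_eq_dot,
      dotProduct_comm]
  simp only [DD, transpose_apply, of_apply, e, one_apply, dotProduct_comm x ξ, eq_comm (a := a)]
  ring

namespace B2Aux

theorem tri_sub₁ (n : T3 R) (x x' y z : I → R) :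
    tri n (x - x') y z = tri n x y z - tri n x' y z := by
  simp only [tri_eq_dot, crs_sub_left, sub_dotProduct]

theorem tri_sub₂ (n : T3 R) (x y y' z : I → R) :
    tri n x (y - y') z = tri n x y z - tri n x y' z := by
  simp only [tri_eq_dot, crs_sub_right, sub_dotProduct]

theorem tri_sub₃ (n : T3 R) (x y z z' : I → R) :
    tri n x y (z - z') = tri n x y z - tri n x y z' := by
  simp only [tri_eq_dot, dotProduct_sub]

theorem single_eq (n : T3 R) (X : Matrix I I R) (a b d : I) :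
    tri n (X *ᵥ Pi.single a 1) (Pi.single b 1) (Pi.single d 1) +
      tri n (Pi.single a 1) (X *ᵥ Pi.single b 1) (Pi.single d 1) +
      tri n (Pi.single a 1) (Pi.single b 1) (X *ᵥ Pi.single d 1) =
    ∑ e, (n e b d * X e a + n a e d * X e b + n a b e * X e d) := by
  rw [Finset.sum_add_distrib, Finset.sum_add_distrib]
  simp [tri, Pi.single_apply]

/-- The unit `1 + N` for `N * N = 0`. -/
def sqU {A : Type} [Ring A] (N : A) (h : N * N = 0) : Aˣ where
  val := 1 + N
  inv := 1 + -N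
  val_inv := by rw [mul_add, mul_one, mul_neg, add_mul, one_mul, h, add_zero, add_neg_cancel_right]
  inv_val := by
    rw [add_mul, one_mul, neg_mul, mul_add, mul_one, h, add_zero, add_neg_cancel_right]

theorem sim_eps {e : R} (he : e * e = 0) :
    Sim n n (1 + e • X) (1 + e * c) ↔ Der n (e • X) (e * c) := by
  refine forall₃_congr fun x y z => ?_
  simp only [add_mulVec, one_mulVec, smul_mulVec, tri_add₁, tri_add₂, tri_add₃, tri_smul₁,
    tri_smul₂, tri_smul₃]
  constructor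
  · intro h
    linear_combination h - (tri n (X *ᵥ x) (X *ᵥ y) z + tri n (X *ᵥ x) y (X *ᵥ z) +
      tri n x (X *ᵥ y) (X *ᵥ z) + e * tri n (X *ᵥ x) (X *ᵥ y) (X *ᵥ z)) * he
  · intro h
    linear_combination h + (tri n (X *ᵥ x) (X *ᵥ y) z + tri n (X *ᵥ x) y (X *ᵥ z) +
      tri n x (X *ᵥ y) (X *ᵥ z) + e * tri n (X *ᵥ x) (X *ᵥ y) (X *ᵥ z)) * he

end B2Aux

theorem IsAlb.der_DD (h : IsAlb n m) (x ξ : I → R) : Der n (DD n m x ξ) (2 * (ξ ⬝ᵥ x)) := by
  intro v y z
  have e : ∀ v y z, tri n (DD n m x ξ *ᵥ v) y z = (ξ ⬝ᵥ x) * tri n v y z + (ξ ⬝ᵥ v) * tri n x y z -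
      crs m (crs n x v) (crs n y z) ⬝ᵥ ξ := fun v y z => by
    rw [DD_mulVec, B2Aux.tri_sub₁, tri_add₁, tri_smul₁, tri_smul₁,
      h.sym.tri_rotate (crs m ξ _), tri_eq_dot n y z, dotProduct_comm (crs n y z), ← tri_eq_dot m,
      h.sym'.tri_rotate, tri_eq_dot m]
  have h4 := congrArg (· ⬝ᵥ ξ) (h.f4 x v y z)
  simp only [add_dotProduct, smul_dotProduct, smul_eq_mul] at h4
  rw [h.sym.tri_swap₁₂ v (_ *ᵥ _), ← h.sym.tri_rotate (_ *ᵥ z), e, e, e, h.sym.tri_swap₁₂ y v,
    h.sym.tri_rotate z v, dotProduct_comm ξ v, dotProduct_comm ξ y, dotProduct_comm ξ z,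
    dotProduct_comm ξ x]
  linear_combination -h4

theorem der_iff_single : Der n X c ↔ ∀ a b d : I,
    ∑ e, (n e b d * X e a + n a e d * X e b + n a b e * X e d) = c * n a b d := by
  refine ⟨fun h a b d => by rw [← B2Aux.single_eq, h, tri_single], fun h x y z => ?_⟩
  have e : triL n ∘ₗ X.mulVecLin + (triL n).compl₂ X.mulVecLin +
      (triL n).compr₂ (LinearMap.lcomp R R X.mulVecLin) = c • triL n := by
    ext a b d
    exact ((B2Aux.single_eq n X a b d).trans (h a b d)).trans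
      (congrArg (c * ·) (tri_single n a b d).symm)
  exact LinearMap.congr_fun (LinearMap.congr_fun (LinearMap.congr_fun e x) y) z

theorem Der.map (h : Der n X c) (f : R →+* S) : Der (n.map f) (X.map f) (f c) :=   der_iff_single.2 fun a b d => by
    simpa [T3.map] using congrArg f (der_iff_single.1 h a b d)

theorem Der.of_map {f : R →+* S} (hf : Function.Injective f)
    (h : Der (n.map f) (X.map f) (f c)) : Der n X c :=   der_iff_single.2 fun a b d => hf (by simpa [T3.map] using der_iff_single.1 h a b d)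

theorem der_one (n : T3 R) : Der n 1 3 := fun x y z => by
  simp only [one_mulVec]
  ring

theorem Der.add (h : Der n X c) (h' : Der n Y c') : Der n (X + Y) (c + c') := fun x y z => by
  simp only [add_mulVec, tri_add₁, tri_add₂, tri_add₃]
  linear_combination h x y z + h' x y z

theorem Der.smul (h : Der n X c) (t : R) : Der n (t • X) (t * c) := fun x y z => by
  simp only [smul_mulVec, tri_smul₁, tri_smul₂, tri_smul₃]
  linear_combination t * h x y z

theorem Der.lie (h : Der n X c) (h' : Der n Y c') : Der n (X * Y - Y * X) 0 := fun x y z => by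
  simp only [sub_mulVec, ← mulVec_mulVec, B2Aux.tri_sub₁, B2Aux.tri_sub₂, B2Aux.tri_sub₃]
  linear_combination h (Y *ᵥ x) y z + h x (Y *ᵥ y) z + h x y (Y *ᵥ z) - h' (X *ᵥ x) y z -
    h' x (X *ᵥ y) z - h' x y (X *ᵥ z) + c * h' x y z - c' * h x y z

theorem Der.crs (h : Der n X c) (x y : I → R) :
    Ex.crs n (X *ᵥ x) y + Ex.crs n x (X *ᵥ y) = c • Ex.crs n x y - Xᵀ *ᵥ Ex.crs n x y := by
  refine dotProduct_eq _ _ fun z => ?_
  rw [add_dotProduct, sub_dotProduct, smul_dotProduct, mulVec_transpose, ← dotProduct_mulVec,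
    ← tri_eq_dot, ← tri_eq_dot, ← tri_eq_dot, ← tri_eq_dot, smul_eq_mul]
  linear_combination h x y z

theorem Sim.conj_der {g : GL I R} {ν : Rˣ} (hg : Sim n n' g.1 ν) (h : Der n X c) :
    Der n' (g.1 * X * (g⁻¹).1) c := by
  have e : ∀ x, (g⁻¹).1 *ᵥ (g.1 *ᵥ x) = x := fun x => by
    rw [mulVec_mulVec, ← Units.val_mul, inv_mul_cancel, Units.val_one, one_mulVec]
  have e' : ∀ x, ∃ x', g.1 *ᵥ x' = x := fun x => ⟨(g⁻¹).1 *ᵥ x, by
    rw [mulVec_mulVec, ← Units.val_mul, mul_inv_cancel, Units.val_one, one_mulVec]⟩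
  intro x y z
  obtain ⟨x, rfl⟩ := e' x
  obtain ⟨y, rfl⟩ := e' y
  obtain ⟨z, rfl⟩ := e' z
  simp only [← mulVec_mulVec, e]
  rw [hg, hg, hg, hg]
  linear_combination ν.1 * h x y z

variable [Algebra ℚ R]

theorem Der.dual (h : IsAlb n m) (hX : Der n X c) : Der m Xᵀ c := by
  let f : R →+* DualNumber R := algebraMap R (DualNumber R)
  have he : (DualNumber.eps : DualNumber R) * DualNumber.eps = 0 := DualNumber.eps_mul_eps
  have he' : (-DualNumber.eps : DualNumber R) * -DualNumber.eps = 0 := by rw [neg_mul_neg, he]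
  have h1 := Sim.dag (h.map f) (h.map f)
    (g := B2Aux.sqU ((DualNumber.eps : DualNumber R) • X.map f)
      (by rw [smul_mul_smul_comm, he, zero_smul]))
    (ν := B2Aux.sqU (DualNumber.eps * f c) (by rw [mul_mul_mul_comm, he, zero_mul]))
    ((B2Aux.sim_eps he).2 ((hX.map f).smul _))
  have h2 : Sim (m.map f) (m.map f) (1 + (-DualNumber.eps : DualNumber R) • Xᵀ.map f)
      (1 + -DualNumber.eps * f c) := by
    rw [neg_smul, neg_mul, transpose_map, ← transpose_smul, ← transpose_neg, ← transpose_one,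
      ← transpose_add]
    exact h1
  refine der_iff_single.2 fun a b d => ?_
  have h3 := congrArg TrivSqZeroExt.snd
    (der_iff_single.1 (((B2Aux.sim_eps he').1 h2).smul (-1)) a b d)
  simpa [T3.map, f, TrivSqZeroExt.snd_sum, TrivSqZeroExt.algebraMap_eq_inl] using h3

theorem Der.trace (h : IsAlb n m) (hX : Der n X c) : X.trace = 9 * c := by
  have h1 : ∑ a, ∑ b, ∑ d, (∑ e, n e b d * X e a) * m a b d = 10 * X.trace := by
    rw [Matrix.trace, Finset.mul_sum]
    refine Finset.sum_congr rfl fun a _ => ?_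
    have e1 : ∑ b, ∑ d, (∑ e, n e b d * X e a) * m a b d =
        ∑ e, X e a * ∑ b, ∑ d, n e b d * m a b d := by
      simp only [Finset.sum_mul, Finset.mul_sum]
      rw [Finset.sum_congr rfl fun b _ => Finset.sum_comm, Finset.sum_comm]
      exact Finset.sum_congr rfl fun e _ => Finset.sum_congr rfl fun b _ =>
        Finset.sum_congr rfl fun d _ => by ring
    rw [e1, mul_comm]
    simp only [h.tr, mul_ite, mul_zero, Finset.sum_ite_eq', Finset.mem_univ, if_true, diag_apply]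
  have h2 : ∑ a, ∑ b, ∑ d, (∑ e, n a e d * X e b) * m a b d = 10 * X.trace := by
    rw [Finset.sum_comm, ← h1]
    refine Finset.sum_congr rfl fun a _ => Finset.sum_congr rfl fun b _ =>
      Finset.sum_congr rfl fun d _ => ?_
    rw [h.sym'.1 b a, Finset.sum_congr rfl fun e _ => congrArg (· * X e a) (h.sym.1 b e d)]
  have h3 : ∑ a, ∑ b, ∑ d, (∑ e, n a b e * X e d) * m a b d = 10 * X.trace := by
    rw [← h2]
    refine Finset.sum_congr rfl fun a _ => ?_
    rw [Finset.sum_comm]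
    refine Finset.sum_congr rfl fun b _ => Finset.sum_congr rfl fun d _ => ?_
    rw [h.sym'.2 a d, Finset.sum_congr rfl fun e _ => congrArg (· * X e b) (h.sym.2 a d e)]
  have h4 : ∑ a, ∑ b, ∑ d, (c * n a b d) * m a b d = 270 * c := by
    simp only [mul_assoc, ← Finset.mul_sum, h.tr]
    simp
    ring
  simp only [← der_iff_single.1 hX, Finset.sum_add_distrib, add_mul] at h4
  have h5 : IsUnit (30 : R) := by
    rw [← map_ofNat (algebraMap ℚ R) 30]
    exact (IsUnit.mk0 (30 : ℚ) (by norm_num)).map (algebraMap ℚ R)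
  refine h5.mul_left_cancel ?_
  linear_combination h4 - h1 - h2 - h3

theorem Sim.conj_DD (h : IsAlb n m) (h' : IsAlb n' m') {g : GL I R} {ν : Rˣ} (hg : Sim n n' g.1 ν)
    (x ξ : I → R) : g.1 * DD n m x ξ * (g⁻¹).1 = DD n' m' (g.1 *ᵥ x) ((Ex.dag g).1 *ᵥ ξ) := by
  have e : ∀ x, (g⁻¹).1 *ᵥ (g.1 *ᵥ x) = x := fun x => by
    rw [mulVec_mulVec, ← Units.val_mul, inv_mul_cancel, Units.val_one, one_mulVec]
  have e' : ∀ x, ∃ x', g.1 *ᵥ x' = x := fun x => ⟨(g⁻¹).1 *ᵥ x, by
    rw [mulVec_mulVec, ← Units.val_mul, mul_inv_cancel, Units.val_one, one_mulVec]⟩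
  refine ext_iff_mulVec.2 fun v => ?_
  obtain ⟨v, rfl⟩ := e' v
  simp only [← mulVec_mulVec, e]
  rw [DD_mulVec, DD_mulVec, dag_dot, dag_dot, hg.crs, crs_smul_right, hg.crs' h h', smul_smul,
    Units.mul_inv, one_smul, mulVec_sub, mulVec_add, mulVec_smul, mulVec_smul]

theorem Der.lie_DD (h : IsAlb n m) (hX : Der n X c) (x ξ : I → R) :
    X * DD n m x ξ - DD n m x ξ * X = DD n m (X *ᵥ x) ξ - DD n m x (Xᵀ *ᵥ ξ) := by
  refine ext_iff_mulVec.2 fun v => ?_
  have h1 := congrArg (Ex.crs m ξ) (hX.crs x v)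
  have h2 := (hX.dual h).crs ξ (Ex.crs n x v)
  rw [crs_add_right, crs_sub_right, crs_smul_right] at h1
  rw [transpose_transpose] at h2
  have e : ∀ w, (Xᵀ *ᵥ ξ) ⬝ᵥ w = ξ ⬝ᵥ (X *ᵥ w) := fun w => by
    rw [mulVec_transpose, ← dotProduct_mulVec]
  simp only [sub_mulVec, ← mulVec_mulVec, DD_mulVec, mulVec_sub, mulVec_add, mulVec_smul, e]
  linear_combination (exp := 1) h1 - h2

theorem B2Aux.exp_aux {W : Type} [AddCommGroup W] [Module R W] [Module ℚ W]
    (f₁ f₂ f₃ : Matrix I I R →ₐ[R] Module.End R W) (g : W →ₗ[R] R) (hn : IsNilpotent X)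
    (c₁ : Commute (f₁ X) (f₂ X)) (c₂ : Commute (f₁ X + f₂ X) (f₃ X))
    (k0 : (0 : Module.End R R) ∘ₗ g = g ∘ₗ (f₁ X + f₂ X + f₃ X)) (w : W) :
    g (f₁ (IsNilpotent.exp X) (f₂ (IsNilpotent.exp X) (f₃ (IsNilpotent.exp X) w))) = g w := by
  have n₁ := hn.map f₁
  have n₂ := hn.map f₂
  have n₃ := hn.map f₃
  have key := Module.End.commute_exp_left_of_commute
    (c₂.isNilpotent_add (c₁.isNilpotent_add n₁ n₂) n₃) IsNilpotent.zero k0
  rw [IsNilpotent.exp_add_of_commute c₂ (c₁.isNilpotent_add n₁ n₂) n₃,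
    IsNilpotent.exp_add_of_commute c₁ n₁ n₂, ← hn.map_exp, ← hn.map_exp, ← hn.map_exp,
    IsNilpotent.exp_zero] at key
  exact (LinearMap.congr_fun key w).symm

theorem Der.sim_exp (hX : Der n X 0) (hn : IsNilpotent X) : Sim n n (IsNilpotent.exp X) 1 := by
  intro x y z
  let φ : Matrix I I R →ₐ[R] Module.End R (I → R) := Matrix.toLinAlgEquiv'.toAlgHom
  let f₁ : Matrix I I R →ₐ[R]
      Module.End R (TensorProduct R (TensorProduct R (I → R) (I → R)) (I → R)) :=
    (Module.End.rTensorAlgHom R (TensorProduct R (I → R) (I → R)) (I → R)).comp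
    ((Module.End.rTensorAlgHom R (I → R) (I → R)).comp φ)
  let f₂ : Matrix I I R →ₐ[R]
      Module.End R (TensorProduct R (TensorProduct R (I → R) (I → R)) (I → R)) :=
    (Module.End.rTensorAlgHom R (TensorProduct R (I → R) (I → R)) (I → R)).comp
    ((Module.End.lTensorAlgHom R (I → R) (I → R)).comp φ)
  let f₃ : Matrix I I R →ₐ[R]
      Module.End R (TensorProduct R (TensorProduct R (I → R) (I → R)) (I → R)) :=
    (Module.End.lTensorAlgHom R (I → R) (TensorProduct R (I → R) (I → R))).comp φ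
  have a₁ : ∀ P x y z, f₁ P (x ⊗ₜ y ⊗ₜ z) = (P *ᵥ x) ⊗ₜ y ⊗ₜ z := fun _ _ _ _ => rfl
  have a₂ : ∀ P x y z, f₂ P (x ⊗ₜ y ⊗ₜ z) = x ⊗ₜ (P *ᵥ y) ⊗ₜ z := fun _ _ _ _ => rfl
  have a₃ : ∀ P x y z, f₃ P (x ⊗ₜ y ⊗ₜ z) = x ⊗ₜ y ⊗ₜ (P *ᵥ z) := fun _ _ _ _ => rfl
  have c₁ : Commute (f₁ X) (f₂ X) := TensorProduct.ext_threefold fun x y z => by
    simp only [Module.End.mul_apply, a₁, a₂]
  have c₂ : Commute (f₁ X + f₂ X) (f₃ X) := TensorProduct.ext_threefold fun x y z => by
    simp only [Module.End.mul_apply, LinearMap.add_apply, map_add, a₁, a₂, a₃]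
  have k0 : (0 : Module.End R R) ∘ₗ TensorProduct.lift (TensorProduct.lift (triL n)) =
      TensorProduct.lift (TensorProduct.lift (triL n)) ∘ₗ (f₁ X + f₂ X + f₃ X) :=
    TensorProduct.ext_threefold fun x y z => by
      simp only [LinearMap.comp_apply, LinearMap.add_apply, map_add, a₁, a₂, a₃,
        TensorProduct.lift.tmul, triL_apply, LinearMap.zero_apply]
      rw [hX, zero_mul]
  have h1 := B2Aux.exp_aux (W := TensorProduct R (TensorProduct R (I → R) (I → R)) (I → R))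
    f₁ f₂ f₃ _ hn c₁ c₂ k0 (x ⊗ₜ y ⊗ₜ z)
  rw [one_mul]
  exact h1

theorem Der.sim_one_add (hX : Der n X 0) (h2 : X * X = 0) : Sim n n (1 + X) 1 := by
  have e : X ^ 2 = 0 := by rw [sq, h2]
  have h1 := hX.sim_exp ⟨2, e⟩
  rw [IsNilpotent.exp_eq_sum e] at h1
  simpa [Finset.sum_range_succ] using h1

theorem Der.sim_three (hX : Der n X 0) (h3 : X * X * X = 0) :
    Sim n n (1 + X + (1 / 2 : ℚ) • (X * X)) 1 := by
  have e : X ^ 3 = 0 := by rw [pow_three', h3]
  have h1 := hX.sim_exp ⟨3, e⟩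
  rw [IsNilpotent.exp_eq_sum e] at h1
  simpa [Finset.sum_range_succ, sq] using h1

end Pool.Agent.P.MP_3c2f8c_gt.Ex
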