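import Pool.Agent.P.MP_3c2f8c_gt.Ex.Grp

/-! Ex-Al-Cub2: more on the cubic algebra. -/

namespace Pool.Agent.P.MP_3c2f8c_gt.Ex

open Matrix

section Ring

variable {R S : Type} [CommRing R] [CommRing S]

namespace Cub2Aux

theorem C_inj : Function.Injective (Cub.C : R → Cub R) := fun _ _ h => congrArg Cub.c0 h

theorem eq_co (x : Cub R) : x = Cub.C x.c0 + Cub.C x.c1 * Cub.eta + Cub.C x.c2 * Cub.eta ^ 2 := by
  ext <;> simp [Cub.eta, pow_succ]

/-- Seven times the basis dual to `1, η, η²` for the trace form. -/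
def du (k : Fin 3) : Cub R := ![⟨7, -1, -3⟩, ⟨-1, 2, 1⟩, ⟨-3, 1, 2⟩] k

theorem tr_du (x : Cub R) (k : Fin 3) : Cub.C (7 * Cub.co x k) =
    x * du k + Cub.sig x * Cub.sig (du k) + Cub.sig (Cub.sig x) * Cub.sig (Cub.sig (du k)) := by
  fin_cases k <;> ext <;> simp [du, Cub.co] <;> ring

theorem hom_apply (j : Cub R →+* S) (x : Cub R) :
    j x = j (Cub.C x.c0) + j (Cub.C x.c1) * j Cub.eta + j (Cub.C x.c2) * j Cub.eta ^ 2 := by
  conv_lhs => rw [eq_co x]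
  simp only [map_add, map_mul, map_pow]

theorem hom_root (j : Cub R →+* S) : j Cub.eta ^ 3 + j Cub.eta ^ 2 - 2 * j Cub.eta - 1 = 0 := by
  simpa only [map_sub, map_add, map_mul, map_pow, map_one, map_ofNat, map_zero] using
    congrArg j Cub.eta_root

theorem seven_co (j : Cub R →+* R) (hj : ∀ t, j (Cub.C t) = t) (x : Cub R) (k : Fin 3) :
    7 * Cub.co x k = j x * j (du k) + j (Cub.sig x) * j (Cub.sig (du k)) +
      j (Cub.sig (Cub.sig x)) * j (Cub.sig (Cub.sig (du k))) := by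
  simpa only [hj, map_add, map_mul] using congrArg j (tr_du x k)

open Polynomial in
theorem eq_zero_of_nrm {F : Type} [Field F] (h : ∀ t : F, t ^ 3 + t ^ 2 - 2 * t - 1 ≠ 0)
    {x : Cub F} (hx : Cub.nrm x = 0) : x = 0 := by
  set f : F[X] := X ^ 3 + X ^ 2 - C 2 * X - 1 with hf
  have hd : f.natDegree = 3 := by rw [hf]; compute_degree!
  have hm : f.Monic := by rw [hf]; monicity!
  have hirr : Irreducible f := by
    rw [hm.irreducible_iff_roots_eq_zero_of_degree_le_three (by omega) (by omega)]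
    refine Multiset.eq_zero_of_forall_notMem fun t ht => h t ?_
    simpa [hf] using (mem_roots hm.ne_zero).1 ht
  have : Fact (Irreducible f) := ⟨hirr⟩
  have hr : AdjoinRoot.root f ^ 3 + AdjoinRoot.root f ^ 2 - 2 * AdjoinRoot.root f - 1 = 0 := by
    have := AdjoinRoot.eval₂_root f
    rw [hf] at this
    simpa [map_ofNat] using this
  set j := Cub.lift (AdjoinRoot.of f) (AdjoinRoot.root f) hr with hj
  have inj : ∀ y, j y = 0 → y = 0 := fun y hy => by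
    have e : j y = AdjoinRoot.mk f (C y.c0 + C y.c1 * X + C y.c2 * X ^ 2) := by
      simp [hj, Cub.lift_apply]
    rw [e, AdjoinRoot.mk_eq_zero] at hy
    have hz := eq_zero_of_dvd_of_natDegree_lt hy (by
      rw [hd]
      refine Nat.lt_succ_of_le ?_
      compute_degree)
    have h0 := congrArg (coeff · 0) hz
    have h1 := congrArg (coeff · 1) hz
    have h2 := congrArg (coeff · 2) hz
    simp [coeff_X, coeff_C] at h0 h1 h2
    exact Cub.ext h0 h1 h2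
  have h1 := congrArg j (Cub.C_nrm x)
  rw [hx, map_zero, map_zero, map_mul, map_mul, eq_comm, mul_eq_zero, mul_eq_zero] at h1
  rcases h1 with (h1 | h1) | h1
  · exact inj _ h1
  · simpa using inj _ h1
  · simpa using inj _ h1

end Cub2Aux

open Cub2Aux

theorem Cub.nrm_mul (x y : Cub R) : Cub.nrm (x * y) = Cub.nrm x * Cub.nrm y := C_inj (by
  simp only [map_mul, Cub.C_nrm]
  ring)

theorem Cub.nrm_one : Cub.nrm (1 : Cub R) = 1 := by simp [Cub.nrm_eq]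

theorem Cub.nrm_C (t : R) : Cub.nrm (Cub.C t) = t ^ 3 := by simp [Cub.nrm_eq]

theorem Cub.nrm_sig (x : Cub R) : Cub.nrm (Cub.sig x) = Cub.nrm x := C_inj (by
  simp only [Cub.C_nrm, Cub.sig_sig_sig]
  ring)

theorem Cub.nrm_map (f : R →+* S) (x : Cub R) : Cub.nrm (Cub.map f x) = f (Cub.nrm x) := by
  simp [Cub.nrm_eq, map_ofNat]

theorem Cub.isUnit_iff (x : Cub R) : IsUnit x ↔ IsUnit (Cub.nrm x) := by
  refine ⟨fun h => ?_, fun h => ?_⟩
  · obtain ⟨y, hy⟩ := h.exists_right_inv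
    exact IsUnit.of_mul_eq_one (Cub.nrm y) (by rw [← Cub.nrm_mul, hy, Cub.nrm_one])
  · have := h.map Cub.C
    rw [Cub.C_nrm] at this
    exact isUnit_of_mul_isUnit_left (isUnit_of_mul_isUnit_left this)

theorem Cub.C_injective : Function.Injective (Cub.C : R → Cub R) := C_inj

theorem Cub.map_injective {f : R →+* S} (hf : Function.Injective f) :
    Function.Injective (Cub.map f) := fun _ _ h =>
  Cub.ext (hf (congrArg Cub.c0 h)) (hf (congrArg Cub.c1 h)) (hf (congrArg Cub.c2 h))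

theorem Cub.map_map {T : Type} [CommRing T] (f : R →+* S) (g : S →+* T) (x : Cub R) :
    Cub.map g (Cub.map f x) = Cub.map (g.comp f) x := rfl

theorem Cub.hom_ext {f g : Cub R →+* S} (h : ∀ t, f (Cub.C t) = g (Cub.C t))
    (h' : f Cub.eta = g Cub.eta) : f = g := RingHom.ext fun x => by
  rw [hom_apply f, hom_apply g, h, h, h, h']

theorem Cub.eq_C_of_sig [Algebra ℚ R] {x : Cub R} (h : Cub.sig x = x) : x = Cub.C x.c0 := by
  have h1 : -x.c2 = x.c1 := congrArg Cub.c1 h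
  have h2 : x.c1 - x.c2 = x.c2 := congrArg Cub.c2 h
  have h3 : (algebraMap ℚ R 3⁻¹) * 3 = 1 := by
    rw [← map_ofNat (algebraMap ℚ R) 3, ← map_mul]; norm_num
  have h4 : x.c2 = 0 := by linear_combination (-algebraMap ℚ R 3⁻¹) * (h1 + h2) - x.c2 * h3
  ext
  · rfl
  · simp [← h1, h4]
  · simp [h4]

/-- A ring map `j : Cub R → R` over `R` splits the cubic algebra. -/
theorem Cub.split_bijective [Algebra ℚ R] (j : Cub R →+* R) (hj : ∀ t, j (Cub.C t) = t) :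
    Function.Bijective fun x : Cub R => (j x, j (Cub.sig x), j (Cub.sig (Cub.sig x))) := by
  obtain ⟨u, hu⟩ : ∃ u : R, u * 7 = 1 :=
    ⟨algebraMap ℚ R 7⁻¹, by rw [← map_ofNat (algebraMap ℚ R) 7, ← map_mul]; norm_num⟩
  constructor
  · intro x y h
    simp only [Prod.mk.injEq] at h
    refine Cub.co_injective (funext fun k => ?_)
    have h1 := seven_co j hj x k
    rw [h.1, h.2.1, h.2.2, ← seven_co j hj y k] at h1
    linear_combination u * h1 - (Cub.co x k - Cub.co y k) * hu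
  · rintro ⟨a, b, c⟩
    have h := hom_root j
    set θ := j Cub.eta with hθ
    refine ⟨⟨u * (a * (7 - θ - 3 * θ ^ 2) + b * (3 * θ + 2 * θ ^ 2) + c * (-2 * θ + θ ^ 2)),
      u * (a * (-1 + 2 * θ + θ ^ 2) + b * (-2 - θ + θ ^ 2) + c * (3 - θ - 2 * θ ^ 2)),
      u * (a * (-3 + θ + 2 * θ ^ 2) + b * (1 - 2 * θ - θ ^ 2) + c * (2 + θ - θ ^ 2))⟩, ?_⟩
    simp only [Prod.mk.injEq]
    refine ⟨?_, ?_, ?_⟩ <;> rw [hom_apply j, hj, hj, hj, ← hθ] <;>
      simp only [Cub.sig_c0, Cub.sig_c1, Cub.sig_c2]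
    · linear_combination u * θ * (2 * a - b - c) * h + a * hu
    · linear_combination u * θ * (2 * b - a - c) * h + b * hu
    · linear_combination u * θ * (2 * c - a - b) * h + c * hu

theorem Cub.sig_ne : (Cub.sig : Cub ℚ ≃+* Cub ℚ) ≠ RingEquiv.refl _ := fun h => by
  have := congrArg (fun f : Cub ℚ ≃+* Cub ℚ => (f Cub.eta).c1) h
  simp [Cub.eta] at this

theorem iota_C (t : ℝ) : iota (Cub.C t) = t := by simp [iota, Cub.lift_apply]

theorem continuous_iota : Continuous iota := by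
  have h0 := Cub.continuous_c0 (R := ℝ)
  have h1 := Cub.continuous_c1 (R := ℝ)
  have h2 := Cub.continuous_c2 (R := ℝ)
  change Continuous fun x : Cub ℝ => x.c0 + x.c1 * _ + x.c2 * _
  fun_prop

theorem iotaQ_injective : Function.Injective iotaQ := iotaQ.injective

/-- The coordinates are bounded by the three real values. -/
theorem Cub.abs_co_le : ∃ C : ℝ, 0 < C ∧ ∀ (x : Cub ℝ) (B : ℝ), |iota x| ≤ B →
    |iota (Cub.sig x)| ≤ B → |iota (Cub.sig (Cub.sig x))| ≤ B → ∀ i, |Cub.co x i| ≤ C * B := by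
  refine ⟨1 + ∑ k, (|iota (du k)| + |iota (Cub.sig (du k))| + |iota (Cub.sig (Cub.sig (du k)))|),
    by positivity, fun x B h0 h1 h2 i => ?_⟩
  have hB : 0 ≤ B := (abs_nonneg _).trans h0
  have e := seven_co iota iota_C x i
  have s := Finset.single_le_sum (f := fun k => |iota (du k)| + |iota (Cub.sig (du k))| +
    |iota (Cub.sig (Cub.sig (du k)))|) (fun _ _ => by positivity) (Finset.mem_univ i)
  have t : |7 * Cub.co x i| ≤ B * |iota (du i)| + B * |iota (Cub.sig (du i))| +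
      B * |iota (Cub.sig (Cub.sig (du i)))| := by
    rw [e]
    refine (abs_add_three _ _ _).trans ?_
    simp only [abs_mul]
    gcongr
  rw [abs_mul, abs_of_pos (by norm_num : (0 : ℝ) < 7)] at t
  have := mul_le_mul_of_nonneg_left s hB
  have := abs_nonneg (Cub.co x i)
  nlinarith

open scoped TensorProduct in
/-- The cubic algebra over `k` is the base change of the cubic field. -/
theorem Cub.exists_tensor (k : Type) [CommRing k] [Algebra ℚ k] :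
    ∃ e : Cub k ≃ₐ[k] k ⊗[ℚ] Cub ℚ, ∀ x : Cub ℚ, e (Cub.map (algebraMap ℚ k) x) = 1 ⊗ₜ x := by
  have hr : (1 ⊗ₜ Cub.eta : k ⊗[ℚ] Cub ℚ) ^ 3 + (1 ⊗ₜ Cub.eta) ^ 2 - 2 * (1 ⊗ₜ Cub.eta) - 1 = 0 :=
    hom_root (Algebra.TensorProduct.includeRight (R := ℚ) (A := k) (B := Cub ℚ)).toRingHom
  let φ : Cub k →ₐ[k] k ⊗[ℚ] Cub ℚ :=
    { Cub.lift (algebraMap k _) _ hr with
      commutes' := fun t => by simp [Cub.algebraMap_eq, Cub.lift_apply] }
  let m : Cub ℚ →ₐ[ℚ] Cub k := (Cub.map (algebraMap ℚ k)).toRatAlgHom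
  let ψ : k ⊗[ℚ] Cub ℚ →ₐ[k] Cub k :=
    Algebra.TensorProduct.lift (Algebra.ofId k (Cub k)) m fun _ _ => Commute.all _ _
  have hφη : φ Cub.eta = 1 ⊗ₜ Cub.eta := by simp [φ, Cub.lift_apply, Cub.eta]
  have hφ : ∀ x : Cub ℚ, φ (Cub.map (algebraMap ℚ k) x) = 1 ⊗ₜ x := fun x => by
    have := Cub.hom_ext (f := φ.toRingHom.comp (Cub.map (algebraMap ℚ k)))
      (g := (Algebra.TensorProduct.includeRight (R := ℚ) (A := k) (B := Cub ℚ)).toRingHom)
      (fun t => RingHom.congr_fun (Subsingleton.elim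
        ((φ.toRingHom.comp (Cub.map (algebraMap ℚ k))).comp Cub.C)
        ((Algebra.TensorProduct.includeRight (R := ℚ) (A := k) (B := Cub ℚ)).toRingHom.comp
          Cub.C)) t)
      (by
        have e : Cub.map (algebraMap ℚ k) Cub.eta = Cub.eta := by ext <;> simp [Cub.eta]
        simpa [e] using hφη)
    exact RingHom.congr_fun this x
  refine ⟨AlgEquiv.ofAlgHom φ ψ ?_ ?_, hφ⟩
  · refine Algebra.TensorProduct.ext (Subsingleton.elim _ _) (AlgHom.ext fun x => ?_)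
    simpa [ψ, m] using hφ x
  · refine AlgHom.coe_ringHom_injective (Cub.hom_ext (fun t => (ψ.comp φ).commutes t) ?_)
    have e : Cub.map (algebraMap ℚ k) Cub.eta = Cub.eta := by ext <;> simp [Cub.eta]
    simp [hφη, ψ, m, e]

end Ring

section Padic

variable {p : ℕ} [Fact p.Prime]

namespace Cub2Aux

theorem intC_map (y : Cub ℤ_[p]) : IntC (Cub.map (algebraMap ℤ_[p] ℚ_[p]) y) :=
  ⟨y.c0.2, y.c1.2, y.c2.2⟩

theorem exists_map {x : Cub ℚ_[p]} (hx : IntC x) :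
    ∃ y : Cub ℤ_[p], Cub.map (algebraMap ℤ_[p] ℚ_[p]) y = x :=
  ⟨⟨⟨x.c0, hx.1⟩, ⟨x.c1, hx.2.1⟩, ⟨x.c2, hx.2.2⟩⟩, rfl⟩

theorem intC_iff {x : Cub ℚ_[p]} : IntC x ↔ ∀ k, ‖Cub.co x k‖ ≤ 1 :=
  ⟨fun h k => by fin_cases k; exacts [h.1, h.2.1, h.2.2], fun h => ⟨h 0, h 1, h 2⟩⟩

theorem intC_du (k : Fin 3) : IntC (du k : Cub ℚ_[p]) := by
  have : (du k : Cub ℚ_[p]) = Cub.map (algebraMap ℤ_[p] ℚ_[p]) (du k) := by
    fin_cases k <;> ext <;> simp only [du, Cub.map_c0, Cub.map_c1, Cub.map_c2] <;>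
      simp [-PadicInt.algebraMap_apply, map_ofNat]
  exact this ▸ intC_map _

theorem norm_seven (hp : p ≠ 7) : ‖(7 : ℚ_[p])‖ = 1 := by
  have := (Padic.norm_natCast_eq_one_iff (p := p) (n := 7)).2
    ((Nat.coprime_primes Fact.out (by norm_num)).2 hp)
  simpa using this

theorem ev_le (q : ℚ_[p]) : ∀ᶠ k : ℕ in Filter.atTop, ‖(p : ℚ_[p]) ^ k • q‖ ≤ 1 := by
  have h := (tendsto_pow_atTop_nhds_zero_of_norm_lt_one (Padic.norm_p_lt_one (p := p))).smul_const q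
  rw [zero_smul] at h
  exact (h.norm.eventually (ge_mem_nhds (by simp))).mono fun _ h => h

theorem finite_rat (q : ℚ) : {p : Nat.Primes | ¬ ‖algebraMap ℚ ℚ_[p] q‖ ≤ 1}.Finite := by
  refine ((Set.finite_le_nat q.den).preimage Subtype.val_injective.injOn).subset fun p hp => ?_
  refine Nat.le_of_dvd q.den_pos ?_
  by_contra h
  have : Fact p.1.Prime := ⟨p.2⟩
  exact hp (Padic.norm_rat_le_one h)

theorem int_of_rat {q : ℚ} (h : ∀ p : Nat.Primes, ‖algebraMap ℚ ℚ_[p] q‖ ≤ 1) : (q.num : ℚ) = q := by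
  refine Rat.coe_int_num_of_den_eq_one ?_
  by_contra hd
  obtain ⟨l, hl, hld⟩ := Nat.exists_prime_and_dvd hd
  have : Fact l.Prime := ⟨hl⟩
  have h1 : ‖(q : ℚ_[l])‖ ≤ 1 := h ⟨l, hl⟩
  have h2 : ‖((q.den : ℤ) : ℚ_[l])‖ < 1 :=
    Padic.norm_intCast_lt_one_iff.2 (Int.natCast_dvd_natCast.2 hld)
  have h3 : ((q.num : ℤ) : ℚ_[l]) = q * ((q.den : ℤ) : ℚ_[l]) := by
    exact_mod_cast congrArg (Rat.cast : ℚ → ℚ_[l]) (Rat.mul_den_eq_num q).symm
  have h4 : ‖((q.num : ℤ) : ℚ_[l])‖ < 1 := by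
    rw [h3, norm_mul]
    exact mul_lt_one_of_nonneg_of_lt_one_right h1 (norm_nonneg _) h2
  have h5 := Int.natCast_dvd.1 (Padic.norm_intCast_lt_one_iff.1 h4)
  exact hl.one_lt.ne' (Nat.eq_one_of_dvd_coprimes q.reduced h5 hld)

theorem norm_eq_one_iff {z : ℤ_[p]} : ‖z‖ = 1 ↔ PadicInt.toZMod z ≠ 0 := by
  rw [← PadicInt.isUnit_iff, ne_eq, ← RingHom.mem_ker, PadicInt.ker_toZMod,
    IsLocalRing.notMem_maximalIdeal]

theorem norm_lt_one_iff {z : ℤ_[p]} : ‖z‖ < 1 ↔ PadicInt.toZMod z = 0 := by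
  rw [← not_iff_not, ← ne_eq, ← norm_eq_one_iff, not_lt]
  exact ⟨fun h => le_antisymm z.2 h, fun h => h.ge⟩

theorem exists_max (x : Cub ℚ_[p]) : ∃ k, ‖Cub.co x k‖ = max ‖x.c0‖ (max ‖x.c1‖ ‖x.c2‖) := by
  rcases max_choice ‖x.c0‖ (max ‖x.c1‖ ‖x.c2‖) with h | h
  · exact ⟨0, h.symm⟩
  · rcases max_choice ‖x.c1‖ ‖x.c2‖ with h' | h'
    · exact ⟨1, (h.trans h').symm⟩
    · exact ⟨2, (h.trans h').symm⟩

theorem co_le_max (x : Cub ℚ_[p]) (k : Fin 3) :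
    ‖Cub.co x k‖ ≤ max ‖x.c0‖ (max ‖x.c1‖ ‖x.c2‖) := by
  fin_cases k <;> simp [Cub.co]

theorem co_ne (x : Cub ℚ_[p]) (hx : x ≠ 0) {k : Fin 3}
    (hk : ‖Cub.co x k‖ = max ‖x.c0‖ (max ‖x.c1‖ ‖x.c2‖)) : Cub.co x k ≠ 0 := fun h0 => by
  refine hx (Cub.co_injective (funext fun i => ?_))
  have := co_le_max x i
  rw [← hk, h0, norm_zero, norm_le_zero_iff] at this
  rw [this]
  fin_cases i <;> rfl

open Polynomial in
theorem hensel3 {a b c d : ℤ_[p]} (t : ℤ_[p])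
    (h0 : PadicInt.toZMod (a * t ^ 3 + b * t ^ 2 + c * t + d) = 0)
    (h1 : PadicInt.toZMod (3 * a * t ^ 2 + 2 * b * t + c) ≠ 0) :
    ∃ z : ℤ_[p], a * z ^ 3 + b * z ^ 2 + c * z + d = 0 := by
  have e1 : ∀ z : ℤ_[p], (C a * X ^ 3 + C b * X ^ 2 + C c * X + C d : ℤ_[p][X]).aeval z =
      a * z ^ 3 + b * z ^ 2 + c * z + d := fun z => by simp
  have e2 : (C a * X ^ 3 + C b * X ^ 2 + C c * X + C d : ℤ_[p][X]).derivative.aeval t =
      3 * a * t ^ 2 + 2 * b * t + c := by simp; ring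
  obtain ⟨z, hz, -⟩ := hensels_lemma (F := C a * X ^ 3 + C b * X ^ 2 + C c * X + C d) (a := t) (by
    rw [e1, e2, norm_eq_one_iff.2 h1, one_pow]
    exact norm_lt_one_iff.2 h0)
  exact ⟨z, (e1 z).symm.trans hz⟩

open MvPolynomial in
theorem exists_nrm_mod (h : ∀ t : ZMod p, t ^ 3 + t ^ 2 - 2 * t - 1 ≠ 0) (t : ZMod p) :
    ∃ x : Cub (ZMod p), Cub.nrm x = t := by
  set f : MvPolynomial (Fin 4) (ZMod p) :=
    Cub.nrm (⟨X 0, X 1, X 2⟩ : Cub (MvPolynomial (Fin 4) (ZMod p))) - C t * X 3 ^ 3 with hf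
  have ev : ∀ v : Fin 4 → ZMod p, eval v f = Cub.nrm (⟨v 0, v 1, v 2⟩ : Cub (ZMod p)) -
      t * v 3 ^ 3 := fun v => by
    rw [hf, map_sub, ← Cub.nrm_map]
    simp [Cub.map]
  have hh : f.IsHomogeneous 3 := by
    have hX := fun i : Fin 4 => isHomogeneous_X (ZMod p) i
    have a : ∀ (c : ZMod p) (i j k : Fin 4), (C c * (X i * X j * X k) :
        MvPolynomial (Fin 4) (ZMod p)).IsHomogeneous 3 := fun c i j k =>
      (((hX i).mul (hX j)).mul (hX k)).C_mul c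
    have e : f = C 1 * (X 0 * X 0 * X 0) + C 1 * (X 1 * X 1 * X 1) + C 1 * (X 2 * X 2 * X 2) +
        C (-1) * (X 0 * X 0 * X 1) + C 5 * (X 0 * X 0 * X 2) + C (-2) * (X 0 * X 1 * X 1) +
        C 6 * (X 0 * X 2 * X 2) + C (-1) * (X 1 * X 1 * X 2) + C (-2) * (X 1 * X 2 * X 2) +
        C (-1) * (X 0 * X 1 * X 2) + C (-t) * (X 3 * X 3 * X 3) := by
      rw [hf, Cub.nrm_eq]
      simp only [map_neg, map_one, map_ofNat]
      ring
    rw [e]
    repeat' refine IsHomogeneous.add ?_ (a _ _ _ _)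
    exact a _ _ _ _
  have hc := char_dvd_card_solutions p (f := f) (lt_of_le_of_lt hh.totalDegree_le (by simp))
  have h0 : eval (0 : Fin 4 → ZMod p) f = 0 := by rw [ev]; simp [Cub.nrm_eq]
  obtain ⟨⟨v, hv⟩, hv0⟩ := Fintype.exists_ne_of_one_lt_card
    (lt_of_lt_of_le (Fact.out : p.Prime).one_lt
      (Nat.le_of_dvd (Fintype.card_pos_iff.2 ⟨⟨0, h0⟩⟩) hc)) ⟨0, h0⟩
  rw [ev, sub_eq_zero] at hv
  have h3 : v 3 ≠ 0 := fun h3 => by
    rw [h3] at hv
    have := eq_zero_of_nrm h (hv.trans (by simp))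
    refine hv0 (Subtype.ext (funext fun i => ?_))
    fin_cases i
    exacts [congrArg Cub.c0 this, congrArg Cub.c1 this, congrArg Cub.c2 this, h3]
  refine ⟨Cub.C (v 3)⁻¹ * ⟨v 0, v 1, v 2⟩, ?_⟩
  rw [Cub.nrm_mul, Cub.nrm_C, hv]
  field_simp

end Cub2Aux

open Cub2Aux

theorem IntC.neg {x : Cub ℚ_[p]} (hx : IntC x) : IntC (-x) := by simpa [IntC] using hx

theorem IntC.sig {x : Cub ℚ_[p]} (hx : IntC x) : IntC (Cub.sig x) := by
  obtain ⟨y, rfl⟩ := exists_map hx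
  rw [← Cub.map_sig]
  exact intC_map _

theorem intC_C {t : ℚ_[p]} : IntC (Cub.C t) ↔ ‖t‖ ≤ 1 := by simp [IntC]

theorem IntC.nrm {x : Cub ℚ_[p]} (hx : IntC x) : ‖Cub.nrm x‖ ≤ 1 := by
  obtain ⟨y, rfl⟩ := exists_map hx
  rw [Cub.nrm_map]
  exact (Cub.nrm y).2

theorem IntC.isIntegral {x : Cub ℚ_[p]} (hx : IntC x) : IsIntegral ℤ_[p] x := by
  obtain ⟨y, rfl⟩ := exists_map hx
  let m : Cub ℤ_[p] →ₐ[ℤ_[p]] Cub ℚ_[p] :=
    { Cub.map (algebraMap ℤ_[p] ℚ_[p]) with commutes' := fun t => Cub.map_C _ _ }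
  exact (Algebra.IsIntegral.isIntegral (R := ℤ_[p]) y).map m

theorem intC_of_isIntegral (hp : p ≠ 7) {x : Cub ℚ_[p]} (hx : IsIntegral ℤ_[p] x) : IntC x := by
  let s : Cub ℚ_[p] →ₐ[ℤ_[p]] Cub ℚ_[p] :=
    { (Cub.sig (R := ℚ_[p])).toRingHom with commutes' := fun t => Cub.sig_C _ }
  let c : ℚ_[p] →ₐ[ℤ_[p]] Cub ℚ_[p] := { (Cub.C (R := ℚ_[p])) with commutes' := fun _ => rfl }
  refine intC_iff.2 fun k => ?_
  have h1 : IsIntegral ℤ_[p] (c (7 * Cub.co x k)) := by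
    change IsIntegral ℤ_[p] (Cub.C (7 * Cub.co x k))
    rw [tr_du]
    exact ((hx.mul (intC_du k).isIntegral).add ((hx.map s).mul (intC_du k).sig.isIntegral)).add
      (((hx.map s).map s).mul (intC_du k).sig.sig.isIntegral)
  obtain ⟨z, hz⟩ := IsIntegrallyClosed.isIntegral_iff.1 ((isIntegral_algHom_iff c C_inj).1 h1)
  have h2 : ‖7 * Cub.co x k‖ ≤ 1 := hz ▸ z.2
  rwa [norm_mul, norm_seven hp, one_mul] at h2

theorem exists_pow_intX (g : Matrix I I (Cub ℚ_[p])) : ∃ k : ℕ, IntX ((p : ℚ_[p]) ^ k • g) := by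
  have : ∀ᶠ k : ℕ in Filter.atTop, IntX ((p : ℚ_[p]) ^ k • g) :=
    Filter.eventually_all.2 fun a => Filter.eventually_all.2 fun c =>
      (ev_le (g a c).c0).and ((ev_le (g a c).c1).and (ev_le (g a c).c2))
  exact this.exists

theorem finite_not_intC (x : Cub ℚ) :
    {p : Nat.Primes | ¬ IntC (Cub.map (algebraMap ℚ ℚ_[p]) x)}.Finite := by
  refine ((finite_rat x.c0).union ((finite_rat x.c1).union (finite_rat x.c2))).subset
    fun p hp => ?_
  by_contra h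
  simp only [Set.mem_union, Set.mem_ofPred_eq, not_or, not_not] at h
  exact hp h

theorem finite_not_intX (g : Matrix I I (Cub ℚ)) :
    {p : Nat.Primes | ¬ IntX (g.map (Cub.map (algebraMap ℚ ℚ_[p])))}.Finite := by
  refine (Set.finite_iUnion fun a => Set.finite_iUnion fun c => finite_not_intC (g a c)).subset
    fun p hp => ?_
  by_contra h
  simp only [Set.mem_iUnion, Set.mem_ofPred_eq, not_exists, not_not] at h
  exact hp h

theorem exists_int_of_intC {x : Cub ℚ}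
    (h : ∀ p : Nat.Primes, IntC (Cub.map (algebraMap ℚ ℚ_[p]) x)) :
    ∃ y : Cub ℤ, Cub.map (Int.castRingHom ℚ) y = x :=
  ⟨⟨x.c0.num, x.c1.num, x.c2.num⟩, Cub.ext (int_of_rat fun p => (h p).1)
    (int_of_rat fun p => (h p).2.1) (int_of_rat fun p => (h p).2.2)⟩

theorem Inert.three_dvd (h : Inert p) {x : Cub ℚ_[p]} (hx : x ≠ 0) :
    Cub.nrm x ≠ 0 ∧ (3 : ℤ) ∣ (Cub.nrm x).valuation := by
  obtain ⟨k, hk⟩ := exists_max x
  have h0 := co_ne x hx hk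
  have h1 : ‖Cub.nrm x‖ = ‖Cub.co x k ^ 3‖ := by rw [h x, norm_pow, hk]
  have h2 : Cub.nrm x ≠ 0 := by
    rw [← norm_ne_zero_iff, h1, norm_ne_zero_iff]
    exact pow_ne_zero _ h0
  refine ⟨h2, (Cub.co x k).valuation, ?_⟩
  rw [Padic.norm_eq_zpow_neg_valuation h2, Padic.norm_eq_zpow_neg_valuation (pow_ne_zero _ h0),
    Padic.valuation_pow] at h1
  have h3 : (1 : ℝ) < p := by exact_mod_cast (Fact.out : p.Prime).one_lt
  have := zpow_right_injective₀ (by linarith) h3.ne' h1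
  simpa using this

theorem inert_of_no_root (h : ∀ t : ZMod p, t ^ 3 + t ^ 2 - 2 * t - 1 ≠ 0) : Inert p := by
  intro x
  by_cases hx : x = 0
  · simp [hx, Cub.nrm_eq]
  obtain ⟨k, hk⟩ := exists_max x
  have h0 := co_ne x hx hk
  have e : ∀ i, Cub.co (Cub.C (Cub.co x k)⁻¹ * x) i = (Cub.co x k)⁻¹ * Cub.co x i := fun i => by
    fin_cases i <;> simp [Cub.co]
  obtain ⟨y, hy⟩ := exists_map (x := Cub.C (Cub.co x k)⁻¹ * x) (intC_iff.2 fun i => by
    rw [e, norm_mul, norm_inv, inv_mul_le_iff₀ (norm_pos_iff.2 h0), mul_one, hk]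
    exact co_le_max x i)
  have h1 : Cub.co y k = 1 := by
    have : algebraMap ℤ_[p] ℚ_[p] (Cub.co y k) = Cub.co (Cub.C (Cub.co x k)⁻¹ * x) k := by
      rw [← hy]; fin_cases k <;> rfl
    rw [e, inv_mul_cancel₀ h0] at this
    exact Subtype.ext this
  have h2 : ‖Cub.nrm y‖ = 1 := norm_eq_one_iff.2 fun h2 => by
    rw [← Cub.nrm_map] at h2
    have h3 := eq_zero_of_nrm h h2
    have h4 : PadicInt.toZMod (Cub.co y k) = Cub.co (Cub.map PadicInt.toZMod y) k := by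
      fin_cases k <;> rfl
    rw [h1, h3, map_one] at h4
    revert h4
    fin_cases k <;> simp [Cub.co]
  have h3 := congrArg (fun z => ‖Cub.nrm z‖) hy
  simp only [Cub.nrm_map, Cub.nrm_mul, Cub.nrm_C, norm_mul, norm_pow, norm_inv] at h3
  have h4 : ‖algebraMap ℤ_[p] ℚ_[p] (Cub.nrm y)‖ = 1 := h2
  have h5 := norm_pos_iff.2 h0
  rw [h4] at h3
  rw [← hk]
  field_simp at h3
  exact h3.symm

theorem exists_root_of_root (hp : p ≠ 7) {t : ZMod p} (h : t ^ 3 + t ^ 2 - 2 * t - 1 = 0) :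
    ∃ j : Cub ℚ_[p] →+* ℚ_[p], (∀ t, j (Cub.C t) = t) ∧ ∀ x, IntC x ↔
      ‖j x‖ ≤ 1 ∧ ‖j (Cub.sig x)‖ ≤ 1 ∧ ‖j (Cub.sig (Cub.sig x))‖ ≤ 1 := by
  have ht : PadicInt.toZMod (t.val : ℤ_[p]) = t := by simp
  obtain ⟨z, hz⟩ := hensel3 (a := 1) (b := 1) (c := -2) (d := -1) (t.val : ℤ_[p])
    (by
      simp only [map_add, map_mul, map_pow, map_neg, map_one, map_ofNat, ht]
      linear_combination h)
    (by
      simp only [map_add, map_mul, map_pow, map_neg, map_one, map_ofNat, ht]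
      intro h1
      have h7 : ((7 : ℕ) : ZMod p) = 0 := by
        push_cast
        linear_combination (-3 + t + 2 * t ^ 2) * h1 - (1 + 6 * t) * h
      exact hp ((Nat.prime_dvd_prime_iff_eq Fact.out (by norm_num)).1
        ((ZMod.natCast_eq_zero_iff _ _).1 h7)))
  have hz' : z ^ 3 + z ^ 2 - 2 * z - 1 = 0 := by linear_combination hz
  have hq : (algebraMap ℤ_[p] ℚ_[p] z) ^ 3 + (algebraMap ℤ_[p] ℚ_[p] z) ^ 2 -
      2 * (algebraMap ℤ_[p] ℚ_[p] z) - 1 = 0 := by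
    simpa only [map_sub, map_add, map_mul, map_pow, map_one, map_ofNat, map_zero] using
      congrArg (algebraMap ℤ_[p] ℚ_[p]) hz'
  set j := Cub.lift (RingHom.id ℚ_[p]) _ hq with hj
  have hjC : ∀ t, j (Cub.C t) = t := fun t => by simp [hj, Cub.lift_apply]
  have hle : ∀ x, IntC x → ‖j x‖ ≤ 1 := fun x hx => by
    obtain ⟨y, rfl⟩ := exists_map hx
    have : j (Cub.map (algebraMap ℤ_[p] ℚ_[p]) y) =
        algebraMap ℤ_[p] ℚ_[p] (y.c0 + y.c1 * z + y.c2 * z ^ 2) := by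
      simp [hj, Cub.lift_apply]
    exact this ▸ (y.c0 + y.c1 * z + y.c2 * z ^ 2).2
  refine ⟨j, hjC, fun x => ⟨fun hx => ⟨hle _ hx, hle _ hx.sig, hle _ hx.sig.sig⟩, fun hx => ?_⟩⟩
  refine intC_iff.2 fun k => ?_
  have m : ∀ a b : ℚ_[p], ‖a‖ ≤ 1 → ‖b‖ ≤ 1 → ‖a * b‖ ≤ 1 := fun a b ha hb =>
    (norm_mul a b).le.trans (mul_le_one₀ ha (norm_nonneg _) hb)
  have h2 : ‖7 * Cub.co x k‖ ≤ 1 := by
    rw [seven_co j hjC]
    exact (Padic.nonarchimedean _ _).trans (max_le ((Padic.nonarchimedean _ _).trans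
      (max_le (m _ _ hx.1 (hle _ (intC_du k))) (m _ _ hx.2.1 (hle _ (intC_du k).sig))))
      (m _ _ hx.2.2 (hle _ (intC_du k).sig.sig)))
  rwa [norm_mul, norm_seven hp, one_mul] at h2

/-- Units are norms of units at the unramified primes. -/
theorem exists_nrm_unit (hp : p ≠ 7) {t : ℚ_[p]} (ht : ‖t‖ = 1) :
    ∃ c : (Cub ℚ_[p])ˣ, IntC c.1 ∧ IntC (c⁻¹).1 ∧ Cub.nrm c.1 = t := by
  have t0 : t ≠ 0 := norm_ne_zero_iff.1 (by rw [ht]; exact one_ne_zero)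
  by_cases h : ∃ s : ZMod p, s ^ 3 + s ^ 2 - 2 * s - 1 = 0
  · obtain ⟨s, hs⟩ := h
    obtain ⟨j, hj, hI⟩ := exists_root_of_root hp hs
    have hb := Cub.split_bijective j hj
    obtain ⟨x, hx⟩ := hb.2 (t, 1, 1)
    obtain ⟨y, hy⟩ := hb.2 (t⁻¹, 1, 1)
    simp only [Prod.mk.injEq] at hx hy
    have hxy : x * y = 1 := hb.1 (by
      simp only [map_mul, map_one, hx.1, hx.2.1, hx.2.2, hy.1, hy.2.1, hy.2.2, mul_inv_cancel₀ t0,
        mul_one])
    refine ⟨⟨x, y, hxy, (mul_comm _ _).trans hxy⟩, (hI x).2 ?_, (hI y).2 ?_, ?_⟩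
    · simp [hx.1, hx.2.1, hx.2.2, ht]
    · simp [hy.1, hy.2.1, hy.2.2, ht]
    · rw [← hj (Cub.nrm x), Cub.C_nrm, map_mul, map_mul, hx.1, hx.2.1, hx.2.2, mul_one, mul_one]
  · push Not at h
    set t' : ℤ_[p] := ⟨t, ht.le⟩ with ht'
    have h1 : PadicInt.toZMod t' ≠ 0 := norm_eq_one_iff.1 ht
    obtain ⟨x, hx⟩ := exists_nrm_mod h (PadicInt.toZMod t')
    set x' : Cub ℤ_[p] := ⟨x.c0.val, x.c1.val, x.c2.val⟩ with hx'
    have h2 : PadicInt.toZMod (Cub.nrm x') = PadicInt.toZMod t' := by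
      rw [← Cub.nrm_map, ← hx]
      congr 1
      ext <;> simp [hx']
    obtain ⟨z, hz⟩ := hensel3 (a := -Cub.nrm x') (b := -2 * Cub.nrm x') (c := Cub.nrm x')
      (d := Cub.nrm x' - t') 0 (by simp [h2]) (by simpa [h2] using h1)
    have h3 : Cub.nrm (x' * ⟨1, -z, 0⟩) = t' := by
      rw [Cub.nrm_mul, Cub.nrm_eq ⟨1, -z, 0⟩]
      linear_combination hz
    obtain ⟨u, hu⟩ := (Cub.isUnit_iff (x' * ⟨1, -z, 0⟩)).2
      (by rw [h3]; exact PadicInt.isUnit_iff.2 ht)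
    refine ⟨Units.map (Cub.map (algebraMap ℤ_[p] ℚ_[p])).toMonoidHom u, intC_map _, intC_map _, ?_⟩
    change Cub.nrm (Cub.map (algebraMap ℤ_[p] ℚ_[p]) u) = t
    rw [Cub.nrm_map, hu, h3]
    rfl

end Padic

end Pool.Agent.P.MP_3c2f8c_gt.Ex
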