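import Pool.Agent.P.MP_3c2f8c_gt.Ex.Al.Spl

/-! Ex-Al-J1: the model `nJ`: trace form, Cartan involution, `phi`, `rdiag`. -/

namespace Pool.Agent.P.MP_3c2f8c_gt.Ex

open Matrix

variable {R S : Type} [CommRing R] [CommRing S]

namespace J1Aux

theorem sh3 : ∀ c : I, sh (sh (sh c)) = c := by decide

theorem sh_inj {a c : I} : sh a = sh c ↔ a = c :=
  ⟨fun h => by rw [← sh3 a, h, sh3], fun h => by rw [h]⟩

theorem phi_mulVec (b : R) (x : I → R) (c : I) : (phi b *ᵥ x) (sh c) = phc b c * x c := by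
  simp only [mulVec, dotProduct, phi, of_apply, sh_inj, ite_mul, zero_mul]
  rw [Finset.sum_ite_eq]
  simp

theorem ext_mulVec {A B : Matrix I I R} (h : ∀ x, A *ᵥ x = B *ᵥ x) : A = B := by
  ext i j
  simpa using congrFun (h (Pi.single j 1)) i

theorem ob_smul (a c : R) (x y : Fin 8 → R) : ob (a • x) (c • y) = a * c * ob x y := by
  simp only [ob, Fin.sum_univ_eight, Pi.smul_apply, smul_eq_mul]
  ring

theorem zb_smul (a c : R) (x y : Fin 8 → R) : zb (a • x) (c • y) = a * c * zb x y := by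
  simp only [zb, Pi.smul_apply, smul_eq_mul]
  ring

theorem ot_smul (a c d : R) (x y z : Fin 8 → R) :
    ot (a • x) (c • y) (d • z) = a * c * d * ot x y z := by
  simp [ot, om]
  ring

theorem zt_smul (a c d : R) (x y z : Fin 8 → R) :
    zt (a • x) (c • y) (d • z) = a * c * d * zt x y z := by
  simp [zt, zm]
  ring

/-- The common shape of the two trilinear forms. -/
def shape (bl : (Fin 8 → R) → (Fin 8 → R) → R) (t : (Fin 8 → R) → (Fin 8 → R) → (Fin 8 → R) → R)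
    (x y z : I → R) : R :=
  ∑ i : Fin 3, x (.inl i) * (y (.inl (i + 1)) * z (.inl (i + 2)) + y (.inl (i + 2)) * z (.inl (i + 1))) -
    ∑ i : Fin 3, (x (.inl i) * bl (ov y i) (ov z i) + y (.inl i) * bl (ov x i) (ov z i) +
      z (.inl i) * bl (ov x i) (ov y i)) +
    (t (ov x 0) (ov y 1) (ov z 2) + t (ov x 0) (ov z 1) (ov y 2) + t (ov y 0) (ov x 1) (ov z 2) +
      t (ov y 0) (ov z 1) (ov x 2) + t (ov z 0) (ov x 1) (ov y 2) + t (ov z 0) (ov y 1) (ov x 2))

variable {bl : (Fin 8 → R) → (Fin 8 → R) → R} {t : (Fin 8 → R) → (Fin 8 → R) → (Fin 8 → R) → R}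

theorem fin3 : (0 : Fin 3) + 1 = 1 ∧ (0 : Fin 3) + 2 = 2 ∧ (1 : Fin 3) + 1 = 2 ∧
    (1 : Fin 3) + 2 = 0 ∧ (2 : Fin 3) + 1 = 0 ∧ (2 : Fin 3) + 2 = 1 := by decide

theorem shape_phi (hb : ∀ (a c : R) x y, bl (a • x) (c • y) = a * c * bl x y)
    (ht : ∀ (a c d : R) x y z, t (a • x) (c • y) (d • z) = a * c * d * t x y z)
    (hr : ∀ x y z, t x y z = t y z x) (b : R) (x y z : I → R) :
    shape bl t (phi b *ᵥ x) (phi b *ᵥ y) (phi b *ᵥ z) = b ^ 2 * shape bl t x y z := by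
  have a0 : ∀ x : I → R, (phi b *ᵥ x) (.inl 0) = b ^ 2 * x (.inl 2) := fun x =>
    phi_mulVec b x (.inl 2)
  have a1 : ∀ x : I → R, (phi b *ᵥ x) (.inl 1) = 1 * x (.inl 0) := fun x => phi_mulVec b x (.inl 0)
  have a2 : ∀ x : I → R, (phi b *ᵥ x) (.inl 2) = 1 * x (.inl 1) := fun x => phi_mulVec b x (.inl 1)
  have b0 : ∀ x : I → R, ov (phi b *ᵥ x) 0 = (1 : R) • ov x 2 := fun x => funext fun u =>
    phi_mulVec b x (.inr (2, u))
  have b1 : ∀ x : I → R, ov (phi b *ᵥ x) 1 = b • ov x 0 := fun x => funext fun u =>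
    phi_mulVec b x (.inr (0, u))
  have b2 : ∀ x : I → R, ov (phi b *ᵥ x) 2 = b • ov x 1 := fun x => funext fun u =>
    phi_mulVec b x (.inr (1, u))
  simp only [shape, Fin.sum_univ_three, fin3, a0, a1, a2, b0, b1, b2, hb, ht,
    fun u v w : I → R => hr (ov u 2) (ov v 0) (ov w 1)]
  ring

theorem shape_rdiag (hb : ∀ (a c : R) x y, bl (a • x) (c • y) = a * c * bl x y)
    (ht : ∀ (a c d : R) x y z, t (a • x) (c • y) (d • z) = a * c * d * t x y z)
    (d : Fin 3 → R) (x y z : I → R) :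
    shape bl t (diagonal (rdiag d) *ᵥ x) (diagonal (rdiag d) *ᵥ y) (diagonal (rdiag d) *ᵥ z) =
      (d 0 * d 1 * d 2) ^ 2 * shape bl t x y z := by
  have a : ∀ (x : I → R) i, (diagonal (rdiag d) *ᵥ x) (.inl i) = d i ^ 2 * x (.inl i) :=
    fun x i => mulVec_diagonal _ _ _
  have b : ∀ (x : I → R) i, ov (diagonal (rdiag d) *ᵥ x) i = (d (i + 1) * d (i + 2)) • ov x i :=
    fun x i => funext fun u => mulVec_diagonal _ _ _
  simp only [shape, Fin.sum_univ_three, fin3, a, b, hb, ht]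
  ring

end J1Aux

open J1Aux

theorem phi_mulVec (b : R) (x : I → R) (c : I) : (phi b *ᵥ x) (sh c) = phc b c * x c :=
  J1Aux.phi_mulVec b x c

theorem sh_sh_sh (c : I) : sh (sh (sh c)) = c := sh3 c

theorem phi_cube (b : R) : phi b * phi b * phi b = b ^ 2 • (1 : Matrix I I R) := by
  refine ext_mulVec fun x => funext fun c => ?_
  rw [← mulVec_mulVec, ← mulVec_mulVec, smul_mulVec, one_mulVec, Pi.smul_apply, smul_eq_mul]
  conv_lhs => rw [← sh3 c, phi_mulVec, phi_mulVec, phi_mulVec]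
  rcases c with i | ⟨i, u⟩ <;> fin_cases i <;> simp [phc, sh, fin3] <;> ring

theorem sim_phi (b : R) : Sim (nJ R) (nJ R) (phi b) (b ^ 2) := fun x y z => by
  rw [tri_nJ, tri_nJ]
  exact shape_phi ob_smul ot_smul ot_rotate b x y z

theorem sim_phi' (b : R) : Sim (nZ R) (nZ R) (phi b) (b ^ 2) := fun x y z => by
  rw [tri_nZ, tri_nZ]
  exact shape_phi zb_smul zt_smul zt_rotate b x y z

theorem exists_phiU (b : Rˣ) : ∃ φ : GL I R, φ.1 = phi b.1 := by
  have h : ((b⁻¹).1 ^ 2 * b.1 ^ 2) • (1 : Matrix I I R) = 1 := by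
    rw [← mul_pow, Units.inv_mul, one_pow, one_smul]
  refine ⟨⟨phi b.1, (b⁻¹).1 ^ 2 • (phi b.1 * phi b.1), ?_, ?_⟩, rfl⟩
  · rw [Matrix.mul_smul, ← mul_assoc, phi_cube, smul_smul, h]
  · rw [Matrix.smul_mul, phi_cube, smul_smul, h]

theorem sim_rdiag (d : Fin 3 → R) :
    Sim (nJ R) (nJ R) (diagonal (rdiag d)) ((d 0 * d 1 * d 2) ^ 2) := fun x y z => by
  rw [tri_nJ, tri_nJ]
  exact shape_rdiag ob_smul ot_smul d x y z

theorem sim_rdiag' (d : Fin 3 → R) :
    Sim (nZ R) (nZ R) (diagonal (rdiag d)) ((d 0 * d 1 * d 2) ^ 2) := fun x y z => by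
  rw [tri_nZ, tri_nZ]
  exact shape_rdiag zb_smul zt_smul d x y z

theorem rdiag_mul (d d' : Fin 3 → R) : rdiag (d * d') = rdiag d * rdiag d' := by
  funext c
  rcases c with i | ⟨i, u⟩ <;> simp only [rdiag, Pi.mul_apply, Sum.elim_inl, Sum.elim_inr] <;> ring

theorem rdiag_one : rdiag (1 : Fin 3 → R) = 1 := by
  funext c
  rcases c with i | ⟨i, u⟩ <;> simp [rdiag]

theorem rdiag_map (f : R →+* S) (d : Fin 3 → R) : f ∘ rdiag d = rdiag (f ∘ d) := by
  funext c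
  rcases c with i | ⟨i, u⟩ <;> simp [rdiag]

theorem rdiag_phi {b b' : R} {d d' : Fin 3 → R} (h0 : d 1 = d' 0) (h1 : d 2 = d' 1)
    (h2 : d 0 * b = b' * d' 2) : diagonal (rdiag d) * phi b = phi b' * diagonal (rdiag d') := by
  refine ext_mulVec fun x => funext fun c => ?_
  rw [← mulVec_mulVec, ← mulVec_mulVec, ← sh3 c, mulVec_diagonal, phi_mulVec, phi_mulVec,
    mulVec_diagonal, ← mul_assoc, ← mul_assoc]
  congr 1
  generalize sh (sh c) = e
  rcases e with i | ⟨i, u⟩ <;> fin_cases i <;> simp [phc, sh, rdiag, fin3, ← h0, ← h1]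
  · rw [← mul_pow, ← mul_pow, h2]
  · linear_combination d 2 * h2
  · linear_combination d 1 * h2

theorem sum_crs_inl (x y : I → R) : ∑ i : Fin 3, crs (nJ R) x y (.inl i) =
    (∑ i : Fin 3, x (.inl i)) * (∑ i : Fin 3, y (.inl i)) - TJ x y := by
  simp only [crs_nJ_inl, TJ, ob, ov, Fintype.sum_prod_type, Fin.sum_univ_three, fin3]
  ring

variable [Algebra ℚ R] [Algebra ℚ S]

theorem sim_iff_NJ {g : Matrix I I R} {ν : R} :
    Sim (nJ R) (nJ R) g ν ↔ ∀ x, NJ (g *ᵥ x) = ν * NJ x := by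
  constructor
  · intro h x
    have h1 := h x x x
    rw [tri_nJ_self, tri_nJ_self] at h1
    have h6 : IsUnit (6 : R) := by
      rw [← map_ofNat (algebraMap ℚ R) 6]
      exact (IsUnit.mk0 (6 : ℚ) (by norm_num)).map (algebraMap ℚ R)
    exact h6.mul_left_cancel (by linear_combination h1)
  · intro h
    refine sim_of_diag sym3_nJ sym3_nJ fun x => ?_
    rw [tri_nJ_self, tri_nJ_self, h]
    ring

theorem mem_E6_iff {g : GL I ℝ} : g ∈ E6 ↔ Sim (nJ ℝ) (nJ ℝ) g.1 1 := by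
  rw [sim_iff_NJ]
  simp only [one_mul]
  rfl

theorem TJ_eq (x y : I → R) : TJ x y = ((DJ R).1 *ᵥ x) ⬝ᵥ y := by
  have h : ∀ a, ((DJ R).1 *ᵥ x) a = algebraMap ℚ R (dJ a) * x a := fun a => mulVec_diagonal _ _ _
  simp only [TJ, dotProduct, Fintype.sum_sum_type, h, dJ, Sum.elim_inl, Sum.elim_inr, Pi.one_apply,
    map_one, one_mul, Finset.mul_sum, mul_assoc]
  congr 1
  refine Finset.sum_congr rfl fun j _ => ?_
  congr 1
  exact (map_ofNat (algebraMap ℚ R) 2).symm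

theorem sim_DJ : Sim (nJ R) (mJ R) (DJ R).1 1 := fun x y z => by
  have h : ∀ (x : I → R) a, ((DJ R).1 *ᵥ x) a = algebraMap ℚ R (dJ a) * x a :=
    fun x a => mulVec_diagonal _ _ _
  have h0 : ∀ a, dJ a ≠ 0 := fun a => by cases a <;> simp [dJ]
  rw [one_mul]
  refine Finset.sum_congr rfl fun a _ => Finset.sum_congr rfl fun b _ =>
    Finset.sum_congr rfl fun c _ => ?_
  have e : mJ R a b c * (algebraMap ℚ R (dJ a) * algebraMap ℚ R (dJ b) * algebraMap ℚ R (dJ c)) =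
      nJ R a b c := by
    rw [mJ, ← map_mul, ← map_mul, ← map_mul, div_mul_cancel₀ _
      (mul_ne_zero (mul_ne_zero (h0 a) (h0 b)) (h0 c)), map_intCast, nJ]
  rw [h, h, h, ← e]
  ring

theorem crs_mJ (x y : I → R) : crs (mJ R) ((DJ R).1 *ᵥ x) ((DJ R).1 *ᵥ y) =
    ((DJ R)⁻¹).1 *ᵥ crs (nJ R) x y := by
  rw [sim_DJ.crs, one_smul, dag_val]
  congr 1
  exact diagonal_transpose _

theorem DJ_map (f : R →+* S) : glmap f (DJ R) = DJ S := by
  refine Units.ext ?_
  change (diagonal fun a => algebraMap ℚ R (dJ a)).map f = diagonal fun a => algebraMap ℚ S (dJ a)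
  rw [diagonal_map (map_zero f)]
  congr 1
  funext a
  exact RingHom.map_rat_algebraMap f _

theorem cartan_mul (g h : GL I R) : cartan (g * h) = cartan g * cartan h := by
  simp only [cartan, dag_mul, mul_assoc, mul_inv_cancel_left]

theorem cartan_one : cartan (1 : GL I R) = 1 :=
  mul_left_cancel (a := cartan (1 : GL I R)) (by rw [← cartan_mul, mul_one, mul_one])

theorem cartan_inv (g : GL I R) : cartan g⁻¹ = (cartan g)⁻¹ :=
  eq_inv_of_mul_eq_one_left (by rw [← cartan_mul, inv_mul_cancel, cartan_one])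

theorem cartan_cartan (g : GL I R) : cartan (cartan g) = g := by
  have h : dag (DJ R) = (DJ R)⁻¹ := Units.ext (diagonal_transpose _)
  simp only [cartan, dag_mul, dag_inv, dag_dag, h, inv_inv, mul_assoc, inv_mul_cancel_left,
    inv_mul_cancel, mul_one]

theorem cartan_map (f : R →+* S) (g : GL I R) : cartan (glmap f g) = glmap f (cartan g) := by
  rw [cartan, cartan, map_mul, map_mul, map_inv, DJ_map, dag_map]

theorem cartan_smul {g h : GL I R} {t : Rˣ} (e : h.1 = t.1 • g.1) :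
    (cartan h).1 = (t⁻¹).1 • (cartan g).1 := by
  have h1 : (h⁻¹).1 = (t⁻¹).1 • (g⁻¹).1 := by
    refine Units.inv_eq_of_mul_eq_one_right ?_
    rw [e, Matrix.smul_mul, Matrix.mul_smul, smul_smul, Units.mul_inv, Units.mul_inv, one_smul]
  simp only [cartan, Units.val_mul, dag_val, h1, transpose_smul, Matrix.mul_smul, Matrix.smul_mul]

theorem charpoly_cartan (g : GL I R) : (cartan g).1.charpoly = (g⁻¹).1.charpoly := by
  rw [cartan, Units.val_mul, Units.val_mul, charpoly_mul_comm, ← mul_assoc, Units.mul_inv, one_mul,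
    dag_val, charpoly_transpose]

theorem TJ_cartan (g : GL I R) (x y : I → R) : TJ (g.1 *ᵥ x) ((cartan g).1 *ᵥ y) = TJ x y := by
  have hc : ∀ u v : I → R, TJ u v = TJ v u := fun u v => by simp only [TJ, mul_comm]
  rw [hc, TJ_eq, mulVec_mulVec, ← Units.val_mul, cartan, mul_assoc, mul_inv_cancel_left,
    Units.val_mul, ← mulVec_mulVec, dag_dot, ← TJ_eq, hc]

theorem eq_cartan {g h : GL I R} (e : ∀ x y, TJ (g.1 *ᵥ x) (h.1 *ᵥ y) = TJ x y) : h = cartan g := by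
  have hc : ∀ u v : I → R, TJ u v = TJ v u := fun u v => by simp only [TJ, mul_comm]
  have h1 : (DJ R * h).1 = (DJ R * cartan g).1 := by
    refine ext_mulVec fun y => funext fun c => ?_
    have h2 := (e ((g⁻¹).1 *ᵥ Pi.single c 1) y).trans
      (TJ_cartan g ((g⁻¹).1 *ᵥ Pi.single c 1) y).symm
    rw [mulVec_mulVec, Units.mul_inv, one_mulVec, hc, hc _ ((cartan g).1 *ᵥ y), TJ_eq, TJ_eq,
      dotProduct_single_one, dotProduct_single_one, mulVec_mulVec, mulVec_mulVec] at h2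
    exact h2
  exact mul_left_cancel (Units.ext h1)

theorem Sim.cartan {g : GL I R} {ν : Rˣ} (h : Sim (nJ R) (nJ R) g.1 ν) :
    Sim (nJ R) (nJ R) (Ex.cartan g).1 (ν⁻¹).1 := by
  have h0 : Sim (nJ R) (mJ R) (DJ R).1 (1 : Rˣ) := sim_DJ
  have h1 := (h0.inv.mul (h.dag (isAlb_nJ R) (isAlb_nJ R))).mul h0
  simpa [Ex.cartan] using h1

theorem cartan_mem {g : GL I R} (h : g ∈ Str (nJ R)) : cartan g ∈ Str (nJ R) := by
  obtain ⟨ν, hν⟩ := h
  exact ⟨ν⁻¹, hν.cartan⟩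

theorem cartan_phi {φ : GL I R} {b : Rˣ} (h : φ.1 = phi b.1) : (cartan φ).1 = phi (b⁻¹).1 := by
  obtain ⟨ψ, hψ⟩ := exists_phiU b⁻¹
  rw [← hψ, eq_cartan (g := φ) (h := ψ) fun x y => ?_]
  have hb : b.1 * (b⁻¹).1 = 1 := b.mul_inv
  have e : ∀ c, (phi b.1 *ᵥ x) (sh c) * (phi (b⁻¹).1 *ᵥ y) (sh c) = x c * y c := fun c => by
    have e1 : phc b.1 c * phc (b⁻¹).1 c = 1 := by
      rcases c with i | ⟨i, u⟩ <;> fin_cases i <;> simp [phc, ← mul_pow]
    rw [phi_mulVec, phi_mulVec]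
    linear_combination x c * y c * e1
  rw [h, hψ, TJ, TJ]
  congr 1
  · exact (Fintype.sum_equiv (Equiv.addRight 1) _ _ fun i => (e (.inl i)).symm).symm
  · congr 1
    exact (Fintype.sum_equiv ((Equiv.addRight 1).prodCongr (Equiv.refl _)) _ _
      fun j => (e (.inr j)).symm).symm

theorem noPlane_nJ : NoPlane (nJ ℝ) := by
  intro x y hxx hxy hyy hx
  have key : ∀ u : I → ℝ, crs (nJ ℝ) u u = 0 → ∑ i : Fin 3, u (.inl i) = 0 → u = 0 := by
    intro u hu h0
    have h1 := sum_crs_inl u u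
    rw [hu, h0, zero_mul, zero_sub, TJ_eq] at h1
    simp only [Pi.zero_apply, Finset.sum_const_zero, zero_eq_neg] at h1
    have h2 : ∀ a, ((DJ ℝ).1 *ᵥ u) a = (dJ a : ℝ) * u a := fun a => mulVec_diagonal _ _ _
    have h3 : ∀ a, (0 : ℝ) < dJ a := fun a => by cases a <;> simp [dJ]
    simp only [dotProduct, h2, mul_assoc] at h1
    funext a
    have h4 := (Finset.sum_eq_zero_iff_of_nonneg fun a _ =>
      mul_nonneg (h3 a).le (mul_self_nonneg (u a))).1 h1 a (Finset.mem_univ a)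
    exact mul_self_eq_zero.1 ((mul_eq_zero.1 h4).resolve_left (h3 a).ne')
  have ht : ∑ i : Fin 3, x (.inl i) ≠ 0 := fun h => hx (key x hxx h)
  refine ⟨(∑ i : Fin 3, y (.inl i)) / ∑ i : Fin 3, x (.inl i), sub_eq_zero.1 (key _ ?_ ?_)⟩
  · rw [crs_sub_left, crs_sub_right, crs_sub_right, crs_smul_left, crs_smul_left, crs_smul_right,
      crs_smul_right, sym3_nJ.crs_comm y x, hxx, hxy, hyy]
    simp
  · simp only [Pi.sub_apply, Pi.smul_apply, smul_eq_mul, Finset.sum_sub_distrib, ← Finset.mul_sum]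
    rw [div_mul_cancel₀ _ ht, sub_self]

theorem noPlane_mJ : NoPlane (mJ ℝ) :=
  NoPlane.of_sim (Sim.inv (g := DJ ℝ) (ν := 1) sim_DJ) noPlane_nJ

end Pool.Agent.P.MP_3c2f8c_gt.Ex
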