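import Pool.Agent.P.MP_3c2f8c_gt.Ex.AlbA

/-! Ex-Al-Oct: octonions and Zorn matrices in coordinates. -/

namespace Pool.Agent.P.MP_3c2f8c_gt.Ex

open Matrix

variable {R : Type} [CommRing R]

namespace OctAux

theorem om0 (x y : Fin 8 → R) : om x y 0 =
    x 0 * y 0 - x 1 * y 1 - x 2 * y 2 - x 3 * y 3 - x 4 * y 4 - x 5 * y 5 - x 6 * y 6 - x 7 * y 7 := rfl

theorem om1 (x y : Fin 8 → R) : om x y 1 =
    x 0 * y 1 + x 1 * y 0 + x 2 * y 3 - x 3 * y 2 + x 4 * y 5 - x 5 * y 4 - x 6 * y 7 + x 7 * y 6 := rfl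

theorem om2 (x y : Fin 8 → R) : om x y 2 =
    x 0 * y 2 - x 1 * y 3 + x 2 * y 0 + x 3 * y 1 + x 4 * y 6 + x 5 * y 7 - x 6 * y 4 - x 7 * y 5 := rfl

theorem om3 (x y : Fin 8 → R) : om x y 3 =
    x 0 * y 3 + x 1 * y 2 - x 2 * y 1 + x 3 * y 0 + x 4 * y 7 - x 5 * y 6 + x 6 * y 5 - x 7 * y 4 := rfl

theorem om4 (x y : Fin 8 → R) : om x y 4 =
    x 0 * y 4 - x 1 * y 5 - x 2 * y 6 - x 3 * y 7 + x 4 * y 0 + x 5 * y 1 + x 6 * y 2 + x 7 * y 3 := rfl

theorem om5 (x y : Fin 8 → R) : om x y 5 =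
    x 0 * y 5 + x 1 * y 4 - x 2 * y 7 + x 3 * y 6 - x 4 * y 1 + x 5 * y 0 - x 6 * y 3 + x 7 * y 2 := rfl

theorem om6 (x y : Fin 8 → R) : om x y 6 =
    x 0 * y 6 + x 1 * y 7 + x 2 * y 4 - x 3 * y 5 - x 4 * y 2 + x 5 * y 3 + x 6 * y 0 - x 7 * y 1 := rfl

theorem om7 (x y : Fin 8 → R) : om x y 7 =
    x 0 * y 7 - x 1 * y 6 + x 2 * y 5 + x 3 * y 4 - x 4 * y 3 - x 5 * y 2 + x 6 * y 1 + x 7 * y 0 := rfl

theorem zm0 (x y : Fin 8 → R) : zm x y 0 =
    x 0 * y 0 + x 1 * y 4 + x 2 * y 5 + x 3 * y 6 := rfl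

theorem zm1 (x y : Fin 8 → R) : zm x y 1 =
    x 0 * y 1 + x 1 * y 7 - x 5 * y 6 + x 6 * y 5 := rfl

theorem zm2 (x y : Fin 8 → R) : zm x y 2 =
    x 0 * y 2 + x 2 * y 7 - x 6 * y 4 + x 4 * y 6 := rfl

theorem zm3 (x y : Fin 8 → R) : zm x y 3 =
    x 0 * y 3 + x 3 * y 7 - x 4 * y 5 + x 5 * y 4 := rfl

theorem zm4 (x y : Fin 8 → R) : zm x y 4 =
    x 4 * y 0 + x 7 * y 4 + x 2 * y 3 - x 3 * y 2 := rfl

theorem zm5 (x y : Fin 8 → R) : zm x y 5 =
    x 5 * y 0 + x 7 * y 5 + x 3 * y 1 - x 1 * y 3 := rfl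

theorem zm6 (x y : Fin 8 → R) : zm x y 6 =
    x 6 * y 0 + x 7 * y 6 + x 1 * y 2 - x 2 * y 1 := rfl

theorem zm7 (x y : Fin 8 → R) : zm x y 7 =
    x 7 * y 7 + x 4 * y 1 + x 5 * y 2 + x 6 * y 3 := rfl

theorem cj0 (x : Fin 8 → R) : ocj x 0 = x 0 := rfl

theorem cj1 (x : Fin 8 → R) : ocj x 1 = -x 1 := rfl

theorem cj2 (x : Fin 8 → R) : ocj x 2 = -x 2 := rfl

theorem cj3 (x : Fin 8 → R) : ocj x 3 = -x 3 := rfl

theorem cj4 (x : Fin 8 → R) : ocj x 4 = -x 4 := rfl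

theorem cj5 (x : Fin 8 → R) : ocj x 5 = -x 5 := rfl

theorem cj6 (x : Fin 8 → R) : ocj x 6 = -x 6 := rfl

theorem cj7 (x : Fin 8 → R) : ocj x 7 = -x 7 := rfl

omit [CommRing R] in
theorem ext8 {x y : Fin 8 → R} (h0 : x 0 = y 0) (h1 : x 1 = y 1) (h2 : x 2 = y 2)
    (h3 : x 3 = y 3) (h4 : x 4 = y 4) (h5 : x 5 = y 5) (h6 : x 6 = y 6) (h7 : x 7 = y 7) :
    x = y := by
  funext u
  fin_cases u
  exacts [h0, h1, h2, h3, h4, h5, h6, h7]

theorem ob_eq (x y : Fin 8 → R) : ob x y = 2 * (x 0 * y 0 + x 1 * y 1 + x 2 * y 2 + x 3 * y 3 +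
    x 4 * y 4 + x 5 * y 5 + x 6 * y 6 + x 7 * y 7) := by
  rw [ob, Fin.sum_univ_eight]

end OctAux

open OctAux

theorem ob_comm (x y : Fin 8 → R) : ob x y = ob y x := by
  simp only [ob_eq]
  ring

theorem ob_om (x y : Fin 8 → R) : 2 * ob (om x y) (om x y) = ob x x * ob y y := by
  simp only [ob_eq, om0, om1, om2, om3, om4, om5, om6, om7]
  ring

theorem ocj_ocj (x : Fin 8 → R) : ocj (ocj x) = x := by
  apply ext8 <;> simp only [cj0, cj1, cj2, cj3, cj4, cj5, cj6, cj7, neg_neg]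

theorem ocj_om (x y : Fin 8 → R) : ocj (om x y) = om (ocj y) (ocj x) := by
  apply ext8 <;> simp only [cj0, cj1, cj2, cj3, cj4, cj5, cj6, cj7, om0, om1, om2, om3, om4, om5, om6, om7] <;> ring

theorem ob_ocj (x y : Fin 8 → R) : ob (ocj x) (ocj y) = ob x y := by
  simp only [ob_eq, cj0, cj1, cj2, cj3, cj4, cj5, cj6, cj7]
  ring

theorem ot_eq (x y z : Fin 8 → R) : ot x y z = ob (ocj (om x y)) z := by
  simp only [ot, ob_eq, cj0, cj1, cj2, cj3, cj4, cj5, cj6, cj7, om0 (om x y)]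
  ring

theorem ot_rotate (x y z : Fin 8 → R) : ot x y z = ot y z x := by
  simp only [ot, om0, om1, om2, om3, om4, om5, om6, om7]
  ring

theorem ob_om_left (x y z : Fin 8 → R) : ob (om x y) z = ob y (om (ocj x) z) := by
  simp only [ob_eq, cj0, cj1, cj2, cj3, cj4, cj5, cj6, cj7, om0, om1, om2, om3, om4, om5, om6, om7]
  ring

theorem ob_om_right (x y z : Fin 8 → R) : ob (om x y) z = ob x (om z (ocj y)) := by
  simp only [ob_eq, cj0, cj1, cj2, cj3, cj4, cj5, cj6, cj7, om0, om1, om2, om3, om4, om5, om6, om7]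
  ring

theorem om_ocj_left (x x' y : Fin 8 → R) :
    om (ocj x) (om x' y) + om (ocj x') (om x y) = ob x x' • y := by
  apply ext8 <;>
    simp only [Pi.add_apply, Pi.smul_apply, smul_eq_mul, ob_eq, cj0, cj1, cj2, cj3, cj4, cj5, cj6, cj7,
      om0, om1, om2, om3, om4, om5, om6, om7] <;> ring

theorem om_ocj_right (x y y' : Fin 8 → R) :
    om (om x y) (ocj y') + om (om x y') (ocj y) = ob y y' • x := by
  apply ext8 <;>
    simp only [Pi.add_apply, Pi.smul_apply, smul_eq_mul, ob_eq, cj0, cj1, cj2, cj3, cj4, cj5, cj6, cj7,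
      om0, om1, om2, om3, om4, om5, om6, om7] <;> ring

theorem om_ocj_self (x y : Fin 8 → R) : om (ocj x) (om x y) = (∑ u, x u ^ 2) • y := by
  apply ext8 <;>
    simp only [Pi.smul_apply, smul_eq_mul, Fin.sum_univ_eight, cj0, cj1, cj2, cj3, cj4, cj5, cj6, cj7,
      om0, om1, om2, om3, om4, om5, om6, om7] <;> ring

theorem om_self_ocj (x y : Fin 8 → R) : om (om x y) (ocj y) = (∑ u, y u ^ 2) • x := by
  apply ext8 <;>
    simp only [Pi.smul_apply, smul_eq_mul, Fin.sum_univ_eight, cj0, cj1, cj2, cj3, cj4, cj5, cj6, cj7,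
      om0, om1, om2, om3, om4, om5, om6, om7] <;> ring

theorem zb_comm (x y : Fin 8 → R) : zb x y = zb y x := by
  simp only [zb]
  ring

theorem zb_zm (x y : Fin 8 → R) : 2 * zb (zm x y) (zm x y) = zb x x * zb y y := by
  simp only [zb, zm0, zm1, zm2, zm3, zm4, zm5, zm6, zm7]
  ring

theorem zt_rotate (x y z : Fin 8 → R) : zt x y z = zt y z x := by
  simp only [zt, zm0, zm1, zm2, zm3, zm4, zm5, zm6, zm7]
  ring

namespace OctAux

theorem lin8 (f : (Fin 8 → R) → R) (ha : ∀ a b, f (a + b) = f a + f b)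
    (hs : ∀ (c : R) a, f (c • a) = c * f a) (a : Fin 8 → R) :
    ∑ u, f (Pi.single u 1) * a u = f a := by
  let L : (Fin 8 → R) →ₗ[R] R := ⟨⟨f, ha⟩, hs⟩
  have h : a = ∑ u, a u • (Pi.single u 1 : Fin 8 → R) := by
    funext v
    simp [Pi.single_apply]
  change _ = L a
  conv_rhs => rw [h, map_sum]
  refine Finset.sum_congr rfl fun u _ => ?_
  rw [map_smul, smul_eq_mul, mul_comm]
  rfl

theorem bil8 (f : (Fin 8 → R) → (Fin 8 → R) → R) (ha : ∀ a a' b, f (a + a') b = f a b + f a' b)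
    (hs : ∀ (c : R) a b, f (c • a) b = c * f a b) (ha' : ∀ a b b', f a (b + b') = f a b + f a b')
    (hs' : ∀ (c : R) a b, f a (c • b) = c * f a b) (a b : Fin 8 → R) :
    ∑ u, ∑ v, f (Pi.single u 1) (Pi.single v 1) * (a u * b v) = f a b := by
  rw [← lin8 (fun a => f a b) (fun a a' => ha a a' b) (fun c a => hs c a b) a]
  refine Finset.sum_congr rfl fun u _ => ?_
  rw [← lin8 (f (Pi.single u 1)) (ha' _) (fun c b => hs' c _ b) b, Finset.sum_mul]
  exact Finset.sum_congr rfl fun v _ => by ring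

theorem tril8 (f : (Fin 8 → R) → (Fin 8 → R) → (Fin 8 → R) → R)
    (ha : ∀ a a' b c, f (a + a') b c = f a b c + f a' b c)
    (hs : ∀ (t : R) a b c, f (t • a) b c = t * f a b c)
    (hr : ∀ a b c, f a b c = f b c a) (a b c : Fin 8 → R) :
    ∑ u, ∑ v, ∑ w, f (Pi.single u 1) (Pi.single v 1) (Pi.single w 1) * (a u * b v * c w) =
      f a b c := by
  rw [← lin8 (fun a => f a b c) (fun a a' => ha a a' b c) (fun t a => hs t a b c) a]
  refine Finset.sum_congr rfl fun u _ => ?_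
  rw [← bil8 (f (Pi.single u 1)) (fun b b' c => by rw [hr, ha, ← hr, ← hr _ b'])
    (fun t b c => by rw [hr, hs, ← hr])
    (fun b c c' => by rw [← hr (c + c'), ha, hr c, hr c'])
    (fun t b c => by rw [← hr (t • c), hs, hr c]) b c, Finset.sum_mul]
  refine Finset.sum_congr rfl fun v _ => ?_
  rw [Finset.sum_mul]
  exact Finset.sum_congr rfl fun w _ => by ring

theorem ob_exp (a b : Fin 8 → R) :
    ∑ u, ∑ v, ob (Pi.single u 1) (Pi.single v 1) * (a u * b v) = ob a b := by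
  refine bil8 ob ?_ ?_ ?_ ?_ a b <;> intros <;>
    simp only [ob_eq, Pi.add_apply, Pi.smul_apply, smul_eq_mul] <;> ring

theorem zb_exp (a b : Fin 8 → R) :
    ∑ u, ∑ v, zb (Pi.single u 1) (Pi.single v 1) * (a u * b v) = zb a b := by
  refine bil8 zb ?_ ?_ ?_ ?_ a b <;> intros <;>
    simp only [zb, Pi.add_apply, Pi.smul_apply, smul_eq_mul] <;> ring

theorem ot_exp (a b c : Fin 8 → R) :
    ∑ u, ∑ v, ∑ w, ot (Pi.single u 1) (Pi.single v 1) (Pi.single w 1) * (a u * b v * c w) =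
      ot a b c := by
  refine tril8 ot ?_ ?_ ot_rotate a b c <;> intros <;>
    simp only [ot, om0, om1, om2, om3, om4, om5, om6, om7, Pi.add_apply, Pi.smul_apply, smul_eq_mul] <;> ring

theorem zt_exp (a b c : Fin 8 → R) :
    ∑ u, ∑ v, ∑ w, zt (Pi.single u 1) (Pi.single v 1) (Pi.single w 1) * (a u * b v * c w) =
      zt a b c := by
  refine tril8 zt ?_ ?_ zt_rotate a b c <;> intros <;>
    simp only [zt, zm0, zm1, zm2, zm3, zm4, zm5, zm6, zm7, Pi.add_apply, Pi.smul_apply, smul_eq_mul] <;> ring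

theorem cast_e8 (u v : Fin 8) : ((e8 u v : ℤ) : R) = (Pi.single u 1 : Fin 8 → R) v := by
  rw [e8, Pi.single_apply]
  split_ifs <;> simp

theorem cast_h3 (bl : Fin 8 → Fin 8 → ℤ) (t : Fin 8 → Fin 8 → Fin 8 → ℤ) (a b c : I) :
    ((h3 bl t a b c : ℤ) : R) =
      h3 (fun u v => (bl u v : R)) (fun u v w => (t u v w : R)) a b c := by
  rcases a with a | a <;> rcases b with b | b <;> rcases c with c | c <;>
    simp only [h3, apply_ite (Int.cast : ℤ → R), Int.cast_zero, Int.cast_one, Int.cast_neg]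

theorem nJ_eq : nJ R = h3 (fun u v => ob (Pi.single u 1) (Pi.single v 1))
    fun u v w => ot (Pi.single u 1) (Pi.single v 1) (Pi.single w 1) := by
  funext a b c
  rw [nJ, nJ0, cast_h3]
  simp only [ob_eq, ot, om0, om1, om2, om3, om4, om5, om6, om7, Int.cast_mul, Int.cast_add, Int.cast_sub,
    Int.cast_ofNat, cast_e8]

theorem nZ_eq : nZ R = h3 (fun u v => zb (Pi.single u 1) (Pi.single v 1))
    fun u v w => zt (Pi.single u 1) (Pi.single v 1) (Pi.single w 1) := by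
  funext a b c
  rw [nZ, nZ0, cast_h3]
  simp only [zb, zt, zm0, zm1, zm2, zm3, zm4, zm5, zm6, zm7, Int.cast_mul, Int.cast_add, Int.cast_sub, cast_e8]

theorem sw12 (f : Fin 8 → Fin 8 → Fin 8 → R) :
    ∑ u, ∑ v, ∑ w, f u v w = ∑ u, ∑ v, ∑ w, f v u w := Finset.sum_comm

theorem sw23 (f : Fin 8 → Fin 8 → Fin 8 → R) :
    ∑ u, ∑ v, ∑ w, f u v w = ∑ u, ∑ v, ∑ w, f u w v :=
  Finset.sum_congr rfl fun _ _ => Finset.sum_comm

theorem sum3_congr {f g : Fin 8 → Fin 8 → Fin 8 → R} (h : ∀ u v w, f u v w = g u v w) :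
    ∑ u, ∑ v, ∑ w, f u v w = ∑ u, ∑ v, ∑ w, g u v w := by
  simp only [h]

theorem tri_h3 (bl : Fin 8 → Fin 8 → R) (t : Fin 8 → Fin 8 → Fin 8 → R) (x y z : I → R) :
    tri (h3 bl t) x y z =
    ∑ i : Fin 3, x (.inl i) * (y (.inl (i + 1)) * z (.inl (i + 2)) +
      y (.inl (i + 2)) * z (.inl (i + 1))) -
    ∑ i : Fin 3, (x (.inl i) * ∑ u, ∑ v, bl u v * (ov y i u * ov z i v) +
      y (.inl i) * ∑ u, ∑ v, bl u v * (ov x i u * ov z i v) +
      z (.inl i) * ∑ u, ∑ v, bl u v * (ov x i u * ov y i v)) +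
    (∑ u, ∑ v, ∑ w, t u v w * (ov x 0 u * ov y 1 v * ov z 2 w) +
      ∑ u, ∑ v, ∑ w, t u v w * (ov x 0 u * ov z 1 v * ov y 2 w) +
      ∑ u, ∑ v, ∑ w, t u v w * (ov y 0 u * ov x 1 v * ov z 2 w) +
      ∑ u, ∑ v, ∑ w, t u v w * (ov y 0 u * ov z 1 v * ov x 2 w) +
      ∑ u, ∑ v, ∑ w, t u v w * (ov z 0 u * ov x 1 v * ov y 2 w) +
      ∑ u, ∑ v, ∑ w, t u v w * (ov z 0 u * ov y 1 v * ov x 2 w)) := by
  have b1 : ∀ (s : R) (a b : Fin 8 → R),
      ∑ u, ∑ v, bl u v * (s * a u * b v) = s * ∑ u, ∑ v, bl u v * (a u * b v) := fun s a b => by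
    simp only [Finset.mul_sum]
    exact Finset.sum_congr rfl fun u _ => Finset.sum_congr rfl fun v _ => by ring
  have b2 : ∀ (s : R) (a b : Fin 8 → R),
      ∑ u, ∑ v, bl u v * (a u * s * b v) = s * ∑ u, ∑ v, bl u v * (a u * b v) := fun s a b => by
    simp only [Finset.mul_sum]
    exact Finset.sum_congr rfl fun u _ => Finset.sum_congr rfl fun v _ => by ring
  have b3 : ∀ (s : R) (a b : Fin 8 → R),
      ∑ u, ∑ v, bl u v * (a u * b v * s) = s * ∑ u, ∑ v, bl u v * (a u * b v) := fun s a b => by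
    simp only [Finset.mul_sum]
    exact Finset.sum_congr rfl fun u _ => Finset.sum_congr rfl fun v _ => by ring
  have t1 : ∀ a b c : Fin 8 → R, ∑ u, ∑ v, ∑ w, t u w v * (a u * b v * c w) =
      ∑ u, ∑ v, ∑ w, t u v w * (a u * c v * b w) := fun a b c => by
    rw [sw23]
    exact sum3_congr fun u v w => by ring
  have t2 : ∀ a b c : Fin 8 → R, ∑ u, ∑ v, ∑ w, t v u w * (a u * b v * c w) =
      ∑ u, ∑ v, ∑ w, t u v w * (b u * a v * c w) := fun a b c => by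
    rw [sw12]
    exact sum3_congr fun u v w => by ring
  have t3 : ∀ a b c : Fin 8 → R, ∑ u, ∑ v, ∑ w, t w u v * (a u * b v * c w) =
      ∑ u, ∑ v, ∑ w, t u v w * (c u * a v * b w) := fun a b c => by
    rw [sw23, sw12]
    exact sum3_congr fun u v w => by ring
  have t4 : ∀ a b c : Fin 8 → R, ∑ u, ∑ v, ∑ w, t v w u * (a u * b v * c w) =
      ∑ u, ∑ v, ∑ w, t u v w * (b u * c v * a w) := fun a b c => by
    rw [sw12, sw23]
    exact sum3_congr fun u v w => by ring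
  have t5 : ∀ a b c : Fin 8 → R, ∑ u, ∑ v, ∑ w, t w v u * (a u * b v * c w) =
      ∑ u, ∑ v, ∑ w, t u v w * (c u * b v * a w) := fun a b c => by
    rw [sw12, sw23, sw12]
    exact sum3_congr fun u v w => by ring
  simp only [tri, Fintype.sum_sum_type, Fintype.sum_prod_type, Fin.sum_univ_three, h3, ov]
  simp only [Fin.isValue, Fin.reduceEq, Fin.reduceAdd, ne_eq, not_true_eq_false, not_false_eq_true,
    and_self, and_true, and_false, if_true, if_false, zero_mul, one_mul,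
    Finset.sum_const_zero, add_zero, zero_add, Finset.sum_add_distrib, neg_mul,
    Finset.sum_neg_distrib]
  simp only [b1, b2, b3, t1, t2, t3, t4, t5]
  ring

theorem sym3_h3 {bl : Fin 8 → Fin 8 → R} (hb : ∀ u v, bl u v = bl v u)
    (t : Fin 8 → Fin 8 → Fin 8 → R) : Sym3 (h3 bl t) := by
  constructor
  · rintro (a | ⟨a, u⟩) (b | ⟨b, v⟩) (c | ⟨c, w⟩) <;> fin_cases a <;> fin_cases b <;>
      fin_cases c <;> simp [h3, hb]
  · rintro (a | ⟨a, u⟩) (b | ⟨b, v⟩) (c | ⟨c, w⟩) <;> fin_cases a <;> fin_cases b <;>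
      fin_cases c <;> simp [h3, hb]

theorem ob_zero (a : Fin 8 → R) : ob a 0 = 0 := by simp [ob]

theorem ob_single (a : Fin 8 → R) (u : Fin 8) : ob a (Pi.single u 1) = 2 * a u := by
  simp [ob, Pi.single_apply]

theorem ot_zero₃ (a b : Fin 8 → R) : ot a b 0 = 0 := by rw [ot_eq, ob_zero]

theorem ot_zero₂ (a b : Fin 8 → R) : ot a 0 b = 0 := by rw [ot_rotate, ot_rotate, ot_zero₃]

theorem ot_zero₁ (a b : Fin 8 → R) : ot 0 a b = 0 := by rw [ot_rotate, ot_zero₃]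

/-- The coordinates of an octonion. -/
def toV (a : Oct R) : Fin 8 → R :=
  ![a.1.re, a.1.imI, a.1.imJ, a.1.imK, a.2.re, a.2.imI, a.2.imJ, a.2.imK]

theorem tv0 (a : Oct R) : toV a 0 = a.1.re := rfl

theorem tv1 (a : Oct R) : toV a 1 = a.1.imI := rfl

theorem tv2 (a : Oct R) : toV a 2 = a.1.imJ := rfl

theorem tv3 (a : Oct R) : toV a 3 = a.1.imK := rfl

theorem tv4 (a : Oct R) : toV a 4 = a.2.re := rfl

theorem tv5 (a : Oct R) : toV a 5 = a.2.imI := rfl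

theorem tv6 (a : Oct R) : toV a 6 = a.2.imJ := rfl

theorem tv7 (a : Oct R) : toV a 7 = a.2.imK := rfl

theorem toV_oc (x : I → R) (i : Fin 3) : toV (oc x i) = ov x i :=
  ext8 rfl rfl rfl rfl rfl rfl rfl rfl

theorem om_toV (a b : Oct R) : om (toV a) (toV b) = toV (omul a b) := by
  apply ext8 <;>
    simp only [om0, om1, om2, om3, om4, om5, om6, om7, tv0, tv1, tv2, tv3, tv4, tv5, tv6, tv7,
      omul, Quaternion.re_mul, Quaternion.imI_mul,
      Quaternion.imJ_mul, Quaternion.imK_mul, Quaternion.re_sub, Quaternion.imI_sub,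
      Quaternion.imJ_sub, Quaternion.imK_sub, Quaternion.re_add, Quaternion.imI_add,
      Quaternion.imJ_add, Quaternion.imK_add, Quaternion.re_star, Quaternion.imI_star,
      Quaternion.imJ_star, Quaternion.imK_star] <;> ring

theorem onorm_eq (a : Oct R) : onorm a = ∑ u, toV a u ^ 2 := by
  simp only [onorm, Quaternion.normSq_def', Fin.sum_univ_eight, tv0, tv1, tv2, tv3, tv4, tv5, tv6, tv7]
  ring

theorem otr_eq (a : Oct R) : otr a = 2 * toV a 0 := rfl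

end OctAux

theorem tri_nJ (x y z : I → R) : tri (nJ R) x y z =
    ∑ i : Fin 3, x (.inl i) * (y (.inl (i + 1)) * z (.inl (i + 2)) + y (.inl (i + 2)) * z (.inl (i + 1))) -
    ∑ i : Fin 3, (x (.inl i) * ob (ov y i) (ov z i) + y (.inl i) * ob (ov x i) (ov z i) +
      z (.inl i) * ob (ov x i) (ov y i)) +
    (ot (ov x 0) (ov y 1) (ov z 2) + ot (ov x 0) (ov z 1) (ov y 2) + ot (ov y 0) (ov x 1) (ov z 2) +
      ot (ov y 0) (ov z 1) (ov x 2) + ot (ov z 0) (ov x 1) (ov y 2) + ot (ov z 0) (ov y 1) (ov x 2)) := by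
  rw [nJ_eq, tri_h3]
  simp only [ob_exp, ot_exp]

theorem tri_nZ (x y z : I → R) : tri (nZ R) x y z =
    ∑ i : Fin 3, x (.inl i) * (y (.inl (i + 1)) * z (.inl (i + 2)) + y (.inl (i + 2)) * z (.inl (i + 1))) -
    ∑ i : Fin 3, (x (.inl i) * zb (ov y i) (ov z i) + y (.inl i) * zb (ov x i) (ov z i) +
      z (.inl i) * zb (ov x i) (ov y i)) +
    (zt (ov x 0) (ov y 1) (ov z 2) + zt (ov x 0) (ov z 1) (ov y 2) + zt (ov y 0) (ov x 1) (ov z 2) +
      zt (ov y 0) (ov z 1) (ov x 2) + zt (ov z 0) (ov x 1) (ov y 2) + zt (ov z 0) (ov y 1) (ov x 2)) := by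
  rw [nZ_eq, tri_h3]
  simp only [zb_exp, zt_exp]

theorem crs_nJ_inl (x y : I → R) (i : Fin 3) : crs (nJ R) x y (.inl i) =
    x (.inl (i + 1)) * y (.inl (i + 2)) + x (.inl (i + 2)) * y (.inl (i + 1)) - ob (ov x i) (ov y i) := by
  have e : crs (nJ R) x y (.inl i) = tri (nJ R) x y (Pi.single (.inl i) 1) := by
    rw [tri_eq_dot, dotProduct_single, mul_one]
  have h0 : ∀ j, ov (Pi.single (.inl i) 1 : I → R) j = 0 := fun j => by
    funext u
    simp [ov]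
  rw [e, tri_nJ]
  simp only [h0, ob_zero, ot_zero₁, ot_zero₂, ot_zero₃, Fin.sum_univ_three]
  fin_cases i <;> simp [add_comm]

theorem ov_crs_nJ (x y : I → R) (i : Fin 3) : ov (crs (nJ R) x y) i =
    (2 : R) • (ocj (om (ov x (i + 1)) (ov y (i + 2))) + ocj (om (ov y (i + 1)) (ov x (i + 2))) -
      x (.inl i) • ov y i - y (.inl i) • ov x i) := by
  funext u
  have e : ov (crs (nJ R) x y) i u = tri (nJ R) x y (Pi.single (.inr (i, u)) 1) := by
    rw [tri_eq_dot, dotProduct_single, mul_one, ov]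
  have h0 : ∀ j, ov (Pi.single (.inr (i, u)) 1 : I → R) j =
      if j = i then Pi.single u 1 else 0 := fun j => by
    funext v
    by_cases h : j = i
    · simp [ov, h, Pi.single_apply]
    · simp [ov, h]
  have h1 : ∀ j, (Pi.single (.inr (i, u)) 1 : I → R) (.inl j) = 0 := fun j => by simp
  rw [e, tri_nJ, ot_rotate (ov x 0) (ov _ 1) (ov y 2), ot_rotate (ov _ 1) (ov y 2) (ov x 0),
    ot_rotate (ov y 0) (ov _ 1) (ov x 2), ot_rotate (ov _ 1) (ov x 2) (ov y 0),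
    ot_rotate (ov _ 0) (ov x 1) (ov y 2), ot_rotate (ov _ 0) (ov y 1) (ov x 2)]
  simp only [h0, h1, ot_eq, Fin.sum_univ_three]
  fin_cases i <;> simp [ob_zero, ob_single] <;> ring

theorem NJ_eq (x : I → R) : NJ x = x (.inl 0) * x (.inl 1) * x (.inl 2) -
    ∑ i : Fin 3, x (.inl i) * ∑ u, ov x i u ^ 2 + ot (ov x 0) (ov x 1) (ov x 2) := by
  simp only [NJ, onorm_eq, otr_eq, ← om_toV, toV_oc, ot]

theorem tri_nJ_self (x : I → R) : tri (nJ R) x x x = 6 * NJ x := by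
  have e1 : ((0 : Fin 3) + 1 = 1 ∧ (0 : Fin 3) + 2 = 2) ∧ ((1 : Fin 3) + 1 = 2 ∧ (1 : Fin 3) + 2 = 0) ∧
      (2 : Fin 3) + 1 = 0 ∧ (2 : Fin 3) + 2 = 1 := by decide
  have e2 : ∀ a : Fin 8 → R, ob a a = 2 * ∑ u, a u ^ 2 := fun a => by simp only [ob, sq]
  rw [tri_nJ, NJ_eq]
  simp only [Fin.sum_univ_three, e1, e2]
  ring

theorem sym3_nJ : Sym3 (nJ R) := by
  rw [nJ_eq]
  exact sym3_h3 (fun u v => by rw [ob_comm]) _

theorem sym3_nZ : Sym3 (nZ R) := by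
  rw [nZ_eq]
  exact sym3_h3 (fun u v => by rw [zb_comm]) _

end Pool.Agent.P.MP_3c2f8c_gt.Ex
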