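import Pool.Agent.P.MP_3c2f8c_gt.Ex.Al.Z1
import Pool.Agent.P.MP_3c2f8c_gt.Ex.Al.Oct

/-! Ex-Al-Spl: the splitting of the octonions. -/

namespace Pool.Agent.P.MP_3c2f8c_gt.Ex

open Matrix

variable {R : Type} [CommRing R] [Algebra ℚ R]

namespace SplAux

theorem ext8 {R : Type} {u v : Fin 8 → R} (h0 : u 0 = v 0) (h1 : u 1 = v 1) (h2 : u 2 = v 2)
    (h3 : u 3 = v 3) (h4 : u 4 = v 4) (h5 : u 5 = v 5) (h6 : u 6 = v 6) (h7 : u 7 = v 7) : u = v := by
  funext k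
  fin_cases k
  exacts [h0, h1, h2, h3, h4, h5, h6, h7]

/-- The splitting map in coordinates. -/
def fv (q : Fin 4 → R) (x : Fin 8 → R) : Fin 8 → R :=
  ![q 0 * x 4 - q 1 * x 5 - q 2 * x 6 - q 3 * x 7 + x 0,
    -q 0 * x 5 - q 1 * x 4 - q 2 * x 7 + q 3 * x 6 + x 1,
    -q 0 * x 6 + q 1 * x 7 - q 2 * x 4 - q 3 * x 5 + x 2,
    q 0 * x 7 + q 1 * x 6 - q 2 * x 5 + q 3 * x 4 - x 3,
    -q 0 * x 5 - q 1 * x 4 - q 2 * x 7 + q 3 * x 6 - x 1,
    -q 0 * x 6 + q 1 * x 7 - q 2 * x 4 - q 3 * x 5 - x 2,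
    q 0 * x 7 + q 1 * x 6 - q 2 * x 5 + q 3 * x 4 + x 3,
    -q 0 * x 4 + q 1 * x 5 + q 2 * x 6 + q 3 * x 7 + x 0]

/-- The involution given by the Gram matrix of the split norm. -/
def zv (x : Fin 8 → R) : Fin 8 → R := ![x 7, -x 4, -x 5, -x 6, -x 1, -x 2, -x 3, x 0]

/-- The splitting map as a matrix. -/
def fm (q : Fin 4 → R) : Matrix (Fin 8) (Fin 8) R := LinearMap.toMatrix'
  { toFun := fv q
    map_add' := fun x y => by
      apply ext8 <;> simp only [fv, Pi.add_apply, Matrix.cons_val] <;> ring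
    map_smul' := fun c x => by
      apply ext8 <;> simp only [fv, Pi.smul_apply, Matrix.cons_val, smul_eq_mul, RingHom.id_apply] <;>
        ring }

variable (R) in
/-- The Gram matrix of the split norm. -/
def zg : Matrix (Fin 8) (Fin 8) R := LinearMap.toMatrix'
  { toFun := zv
    map_add' := fun x y => by
      apply ext8 <;> simp only [zv, Pi.add_apply, Matrix.cons_val, neg_add]
    map_smul' := fun c x => by
      apply ext8 <;>
        simp only [zv, Pi.smul_apply, Matrix.cons_val, smul_eq_mul, RingHom.id_apply, mul_neg] }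

omit [Algebra ℚ R]

theorem fm_mulVec (q : Fin 4 → R) (x : Fin 8 → R) : fm q *ᵥ x = fv q x :=
  LinearMap.toMatrix'_mulVec _ x

theorem zg_mulVec (x : Fin 8 → R) : zg R *ᵥ x = zv x := LinearMap.toMatrix'_mulVec _ x

theorem fv_om {q : Fin 4 → R} (hq : q 0 ^ 2 + q 1 ^ 2 + q 2 ^ 2 + q 3 ^ 2 = -1) (x y : Fin 8 → R) :
    fv q (om x y) = zm (fv q x) (fv q y) := by
  apply ext8 <;> simp only [fv, om, zm, Matrix.cons_val]
  · linear_combination (-x 4 * y 4 - x 5 * y 5 - x 6 * y 6 - x 7 * y 7) * hq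
  · linear_combination (x 4 * y 5 - x 5 * y 4 - x 6 * y 7 + x 7 * y 6) * hq
  · linear_combination (x 4 * y 6 + x 5 * y 7 - x 6 * y 4 - x 7 * y 5) * hq
  · linear_combination (-x 4 * y 7 + x 5 * y 6 - x 6 * y 5 + x 7 * y 4) * hq
  · linear_combination (-x 4 * y 5 + x 5 * y 4 + x 6 * y 7 - x 7 * y 6) * hq
  · linear_combination (-x 4 * y 6 - x 5 * y 7 + x 6 * y 4 + x 7 * y 5) * hq
  · linear_combination (x 4 * y 7 - x 5 * y 6 + x 6 * y 5 - x 7 * y 4) * hq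
  · linear_combination (-x 4 * y 4 - x 5 * y 5 - x 6 * y 6 - x 7 * y 7) * hq

theorem fv_zb {q : Fin 4 → R} (hq : q 0 ^ 2 + q 1 ^ 2 + q 2 ^ 2 + q 3 ^ 2 = -1) (x y : Fin 8 → R) :
    zb (fv q x) (fv q y) = ob x y := by
  simp only [fv, zb, ob, Matrix.cons_val, Fin.sum_univ_eight]
  linear_combination (-2 * x 4 * y 4 - 2 * x 5 * y 5 - 2 * x 6 * y 6 - 2 * x 7 * y 7) * hq

theorem fv_zt {q : Fin 4 → R} (hq : q 0 ^ 2 + q 1 ^ 2 + q 2 ^ 2 + q 3 ^ 2 = -1) (x y z : Fin 8 → R) :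
    zt (fv q x) (fv q y) (fv q z) = ot x y z := by
  rw [zt, ← fv_om hq, ← fv_om hq, ot]
  generalize om (om x y) z = w
  simp only [fv, Matrix.cons_val]
  ring

theorem zv_zm (x y : Fin 8 → R) : zm (zv x) (zv y) = zv (zm x y) := by
  apply ext8 <;> simp only [zv, zm, Matrix.cons_val] <;> ring

theorem zv_zb (x y : Fin 8 → R) : zb (zv x) (zv y) = zb x y := by
  simp only [zv, zb, Matrix.cons_val]
  ring

theorem zv_zt (x y z : Fin 8 → R) : zt (zv x) (zv y) (zv z) = zt x y z := by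
  rw [zt, zv_zm, zv_zm, zt]
  exact add_comm _ _

theorem zb_eq (x y : Fin 8 → R) : zb x y = x ⬝ᵥ zg R *ᵥ y := by
  simp only [zg_mulVec, zv, zb, dotProduct, Fin.sum_univ_eight, Matrix.cons_val]
  ring

theorem entry (A : Matrix (Fin 8) (Fin 8) R) (u v : Fin 8) :
    A u v = Pi.single u 1 ⬝ᵥ A *ᵥ Pi.single v 1 := by
  rw [single_one_dotProduct, mulVec_single_one, Matrix.col_apply]

theorem zg_symm : (zg R)ᵀ = zg R := by
  ext u v
  rw [transpose_apply, entry (zg R) v u, entry (zg R) u v, ← zb_eq, ← zb_eq, zb_comm]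

theorem gram_eq {f : Matrix (Fin 8) (Fin 8) R} (h : ∀ x y, zb (f *ᵥ x) (f *ᵥ y) = ob x y) :
    fᵀ * zg R * f = (2 : R) • (1 : Matrix (Fin 8) (Fin 8) R) := by
  ext u v
  rw [entry (fᵀ * zg R * f) u v, entry ((2 : R) • (1 : Matrix (Fin 8) (Fin 8) R)) u v,
    ← mulVec_mulVec, ← mulVec_mulVec, dotProduct_mulVec, vecMul_transpose, ← zb_eq, h,
    smul_mulVec, one_mulVec, dotProduct_smul, smul_eq_mul]
  rfl

end SplAux

open SplAux

omit [Algebra ℚ R] in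
theorem blk_mul (f f' : Matrix (Fin 8) (Fin 8) R) : blk f * blk f' = blk (f * f') := by
  ext a b
  rcases a with i | ⟨i, u⟩ <;> rcases b with j | ⟨j, v⟩ <;>
    simp [blk, mul_apply, Fintype.sum_sum_type, Fintype.sum_prod_type]

omit [Algebra ℚ R] in
theorem blk_one : blk (1 : Matrix (Fin 8) (Fin 8) R) = 1 := by
  ext a b
  rcases a with i | ⟨i, u⟩ <;> rcases b with j | ⟨j, v⟩ <;> simp [blk, one_apply, ite_and]

omit [Algebra ℚ R] in
theorem blk_transpose (f : Matrix (Fin 8) (Fin 8) R) : (blk f)ᵀ = blk fᵀ := by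
  ext a b
  rcases a with i | ⟨i, u⟩ <;> rcases b with j | ⟨j, v⟩ <;> simp [blk, eq_comm]

omit [Algebra ℚ R] in
theorem blk_mulVec (f : Matrix (Fin 8) (Fin 8) R) (x : I → R) :
    blk f *ᵥ x = mkJ (fun i => x (.inl i)) fun i => f *ᵥ ov x i := by
  funext a
  rcases a with i | ⟨i, u⟩ <;>
    simp [blk, mkJ, ov, mulVec, dotProduct, Fintype.sum_sum_type, Fintype.sum_prod_type]

omit [Algebra ℚ R] in
theorem SplAux.blk_inl (f : Matrix (Fin 8) (Fin 8) R) (x : I → R) (i : Fin 3) :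
    (blk f *ᵥ x) (.inl i) = x (.inl i) := by
  rw [blk_mulVec]
  rfl

omit [Algebra ℚ R] in
theorem SplAux.blk_ov (f : Matrix (Fin 8) (Fin 8) R) (x : I → R) (i : Fin 3) :
    ov (blk f *ᵥ x) i = f *ᵥ ov x i := by
  rw [blk_mulVec]
  rfl

omit [Algebra ℚ R] in
theorem blk_map {S : Type} [CommRing S] (φ : R →+* S) (f : Matrix (Fin 8) (Fin 8) R) :
    (blk f).map φ = blk (f.map φ) := by
  ext a b
  rcases a with i | ⟨i, u⟩ <;> rcases b with j | ⟨j, v⟩ <;> simp [blk, apply_ite φ]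

omit [Algebra ℚ R] in
theorem blk_phi (f : Matrix (Fin 8) (Fin 8) R) (b : R) : blk f * phi b = phi b * blk f := by
  have e : ∀ c : I, ∃ a, c = sh a ∧ ∀ d, c = sh d → d = a := by decide +kernel
  ext a c
  obtain ⟨a, rfl, ha⟩ := e a
  rw [mul_apply, mul_apply, Finset.sum_eq_single (sh c), Finset.sum_eq_single a]
  · simp only [phi, of_apply, if_true]
    rcases a with i | ⟨i, u⟩ <;> rcases c with j | ⟨j, v⟩ <;>
      simp only [blk, sh, of_apply, Sum.map_inl, Sum.map_inr, add_left_inj, zero_mul, mul_zero]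
    · split_ifs with h
      · rw [h, mul_comm]
      · rw [zero_mul, mul_zero]
    · split_ifs with h
      · subst h
        exact mul_comm _ _
      · rw [zero_mul, mul_zero]
  · intro d _ hd
    rw [phi, of_apply, if_neg fun h => hd (ha d h), zero_mul]
  · exact fun h => absurd (Finset.mem_univ _) h
  · intro d _ hd
    rw [phi, of_apply, if_neg hd, mul_zero]
  · exact fun h => absurd (Finset.mem_univ _) h

omit [Algebra ℚ R] in
theorem blk_rdiag (f : Matrix (Fin 8) (Fin 8) R) (d : Fin 3 → R) :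
    blk f * diagonal (rdiag d) = diagonal (rdiag d) * blk f := by
  ext a c
  rw [mul_diagonal, diagonal_mul]
  rcases a with i | ⟨i, u⟩ <;> rcases c with j | ⟨j, v⟩ <;>
    simp only [blk, of_apply, zero_mul, mul_zero]
  · split_ifs with h
    · rw [h, mul_comm]
    · rw [zero_mul, mul_zero]
  · split_ifs with h
    · subst h
      exact mul_comm _ _
    · rw [zero_mul, mul_zero]

omit [Algebra ℚ R] in
theorem sim_blk {f : Matrix (Fin 8) (Fin 8) R} (hb : ∀ x y, zb (f *ᵥ x) (f *ᵥ y) = ob x y)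
    (ht : ∀ x y z, zt (f *ᵥ x) (f *ᵥ y) (f *ᵥ z) = ot x y z) : Sim (nJ R) (nZ R) (blk f) 1 :=
  fun x y z => by simp only [tri_nZ, tri_nJ, blk_inl, blk_ov, hb, ht, one_mul]

omit [Algebra ℚ R] in
theorem sim_blk' {f : Matrix (Fin 8) (Fin 8) R} (hb : ∀ x y, ob (f *ᵥ x) (f *ᵥ y) = ob x y)
    (ht : ∀ x y z, ot (f *ᵥ x) (f *ᵥ y) (f *ᵥ z) = ot x y z) : Sim (nJ R) (nJ R) (blk f) 1 :=
  fun x y z => by simp only [tri_nJ, blk_inl, blk_ov, hb, ht, one_mul]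

omit [Algebra ℚ R] in
theorem SplAux.sim_zg : Sim (nZ R) (nZ R) (blk (zg R)) 1 := fun x y z => by
  simp only [tri_nZ, blk_inl, blk_ov, zg_mulVec, zv_zb, zv_zt, one_mul]

theorem SplAux.sim_half :
    Sim (mJ R) (nJ R) (blk (algebraMap ℚ R 2⁻¹ • (1 : Matrix (Fin 8) (Fin 8) R))) 1 := by
  have e : ∀ (x : I → R) (a : I), (blk (algebraMap ℚ R 2⁻¹ • (1 : Matrix (Fin 8) (Fin 8) R)) *ᵥ x) a =
      algebraMap ℚ R (dJ a)⁻¹ * x a := by
    rintro x (i | ⟨i, u⟩)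
    · rw [blk_inl]
      simp [dJ]
    · have h := congrFun (blk_ov (algebraMap ℚ R 2⁻¹ • (1 : Matrix (Fin 8) (Fin 8) R)) x i) u
      rw [smul_mulVec, one_mulVec] at h
      exact h
  intro x y z
  rw [one_mul]
  refine Finset.sum_congr rfl fun a _ => Finset.sum_congr rfl fun b _ =>
    Finset.sum_congr rfl fun c _ => ?_
  rw [e, e, e, mJ, nJ, div_eq_mul_inv, mul_inv, mul_inv, map_mul, map_mul, map_mul, map_intCast]
  ring

theorem exists_split (q : Fin 4 → R) (hq : ∑ i, q i ^ 2 = -1) :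
    ∃ (f : GL (Fin 8) R) (P : GL I R), P.1 = blk f.1 ∧
      (∀ x y, f.1 *ᵥ om x y = zm (f.1 *ᵥ x) (f.1 *ᵥ y)) ∧ (∀ x y, zb (f.1 *ᵥ x) (f.1 *ᵥ y) = ob x y) ∧
      Sim (nJ R) (nZ R) P.1 1 ∧ Sim (mJ R) (nZ R) (dag P).1 1 := by
  rw [Fin.sum_univ_four] at hq
  have hb : ∀ x y, zb (fm q *ᵥ x) (fm q *ᵥ y) = ob x y := fun x y => by
    rw [fm_mulVec, fm_mulVec, fv_zb hq]
  have hs : Sim (nJ R) (nZ R) (blk (fm q)) 1 := sim_blk hb fun x y z => by
    rw [fm_mulVec, fm_mulVec, fm_mulVec, fv_zt hq]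
  have h1 : (algebraMap ℚ R 2⁻¹ • ((fm q)ᵀ * zg R)) * fm q = 1 := by
    rw [smul_mul_assoc, gram_eq hb, smul_smul, ← map_ofNat (algebraMap ℚ R) 2, ← map_mul,
      inv_mul_cancel₀ two_ne_zero, map_one, one_smul]
  have h2 := mul_eq_one_comm.1 h1
  refine ⟨⟨fm q, _, h2, h1⟩, ⟨blk (fm q), blk (algebraMap ℚ R 2⁻¹ • ((fm q)ᵀ * zg R)),
    by rw [blk_mul, h2, blk_one], by rw [blk_mul, h1, blk_one]⟩, rfl, fun x y => ?_, hb, hs, ?_⟩
  · simp only [fm_mulVec, fv_om hq]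
  · have h3 := sim_zg.mul (hs.mul sim_half)
    rw [blk_mul, blk_mul, mul_smul_comm, mul_one, mul_smul_comm, one_mul, one_mul] at h3
    change Sim (mJ R) (nZ R) (blk (algebraMap ℚ R 2⁻¹ • ((fm q)ᵀ * zg R)))ᵀ 1
    rwa [blk_transpose, transpose_smul, transpose_mul, zg_symm, transpose_transpose]

theorem isAlb_nJ (R : Type) [CommRing R] [Algebra ℚ R] : IsAlb (nJ R) (mJ R) := by
  obtain ⟨-, P, -, -, -, h1, h2⟩ := exists_split (R := ℂ) ![Complex.I, 0, 0, 0]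
    (by simp [Fin.sum_univ_four])
  have h3 := (isAlb_nZ ℂ).pull P
  rw [sim_iff_pull.1 h1, sim_iff_pull.1 h2, one_smul, one_smul, ← nJ_map (algebraMap ℚ ℂ),
    ← mJ_map (algebraMap ℚ ℂ)] at h3
  have h4 := (h3.of_map (algebraMap ℚ ℂ).injective).map (algebraMap ℚ R)
  rwa [nJ_map, mJ_map] at h4

theorem exists_sq_padic (p : ℕ) [Fact p.Prime] : ∃ q : Fin 4 → ℚ_[p], ∑ i, q i ^ 2 = -1 := by
  have hp : p.Prime := Fact.out
  obtain ⟨z, hz, -⟩ := hensels_lemma (p := p) (R := ℤ_[p]) (a := 0)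
    (F := Polynomial.X ^ 2 + Polynomial.X + Polynomial.C (p : ℤ_[p])) (by
      simpa using PadicInt.norm_lt_one_iff_dvd (p : ℤ_[p]) |>.2 dvd_rfl)
  have h1 : (z : ℚ_[p]) ^ 2 + z + p = 0 := by
    have h := congrArg (fun t : ℤ_[p] => (t : ℚ_[p])) hz
    simpa using h
  obtain ⟨a, b, c, d, h2⟩ := Nat.sum_four_squares (4 * p - 1)
  have h3 : (a : ℚ_[p]) ^ 2 + b ^ 2 + c ^ 2 + d ^ 2 + 1 = 4 * p := by
    have h : a ^ 2 + b ^ 2 + c ^ 2 + d ^ 2 + 1 = 4 * p := by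
      have := hp.pos
      omega
    exact_mod_cast h
  have h4 : (2 * z + 1 : ℚ_[p]) ≠ 0 := fun h => by
    have h5 : (4 * p : ℚ_[p]) = 1 := by linear_combination 4 * h1 - (2 * z + 1) * h
    have h6 : 4 * p = 1 := by exact_mod_cast h5
    omega
  refine ⟨![a / (2 * z + 1), b / (2 * z + 1), c / (2 * z + 1), d / (2 * z + 1)], ?_⟩
  simp only [Fin.sum_univ_four, Matrix.cons_val]
  field_simp
  linear_combination h3 + 4 * h1

end Pool.Agent.P.MP_3c2f8c_gt.Ex
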