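import Pool.Agent.P.MP_3c2f8c_gt.Ex.Al.Z1
import Pool.Agent.P.MP_3c2f8c_gt.Ex.Al.B2

/-! Ex-Al-Std: derivations of the split model. -/

namespace Pool.Agent.P.MP_3c2f8c_gt.Ex

open Matrix

variable {R : Type} [CommRing R] {X : Matrix I I R} {c : R} {e a : I}

namespace StdAux

/-- The nonzero columns of a root vector. -/
def Col (e a v : I) : Prop := v = a ∨ (Adj e v ∧ Adj a (thd e v))

instance (e a v : I) : Decidable (Col e a v) := inferInstanceAs (Decidable (_ ∨ _))

/-- The row of the nonzero entry of a column. -/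
def rowOf (e a v : I) : I := if v = a then e else thd a (thd e v)

theorem col_card : ∀ e a, Rt e a → (Finset.univ.filter (Col e a)).card = 6 := by decide +kernel

theorem adj_ne {x y : I} (h : Adj x y) : x ≠ y := fun e' => not_adj_self y (e' ▸ h)

theorem two_adj {x y d : I} (h : Adj x y) (h1 : Adj d x) (h2 : Adj d y) : d = thd x y := by
  by_contra h3
  rcases gq x y d h (adj_ne h1) (adj_ne h2) h3 with k | k | k
  · exact k.2.1 h2
  · exact k.1 h1
  · exact k.1 h1

theorem col_spec (e a : I) (h : Rt e a) (v : I) (hv : Col e a v) :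
    ¬ Col a e v ∧ Rt (rowOf e a v) v ∧
    ¬ Adj a v ∧ ∀ u, Col a e u → u = rowOf e a v ∨ Adj v u := by
  by_cases hva : v = a
  · subst hva
    rw [rowOf, if_pos rfl]
    exact ⟨fun k => k.elim (fun k => h.1 k.symm) fun k => not_adj_self _ k.1, h, not_adj_self _,
      fun u hu => hu.imp_right fun k => k.1⟩
  obtain ⟨h1, h2⟩ := hv.resolve_left hva
  rw [rowOf, if_neg hva]
  obtain ⟨a1, a2, -, -, -⟩ := thd_spec e v h1
  obtain ⟨-, b2, b3, -, -⟩ := thd_spec v e h1.symm
  rw [a1] at b2 b3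
  obtain ⟨c1, c2, -, -, -⟩ := thd_spec a _ h2
  obtain ⟨-, d2, d3, -, -⟩ := thd_spec _ a h2.symm
  rw [c1] at d2 d3
  have n3 : ¬ Adj a v := fun k => h.1 ((two_adj b2 k h2).trans b3).symm
  refine ⟨fun k => k.elim (fun k => adj_ne h1 k.symm) fun k => n3 k.1,
    ⟨fun k => n3 (k ▸ c2), fun k => hva ((two_adj d2 b2 k.symm).trans d3)⟩, n3, fun u hu => ?_⟩
  rcases hu with rfl | ⟨k1, k2⟩
  · exact Or.inr h1.symm
  obtain ⟨-, e2, e3, -, -⟩ := thd_spec a u k1
  by_cases hw : thd a u = thd e v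
  · exact Or.inl (by rw [← hw, e3])
  · rcases gq a u v k1 hva (fun k => n3 (k ▸ k1)) (fun k => n3 (k ▸ e2)) with k | k | k
    · exact absurd k.1.symm n3
    · exact Or.inr k.2.1
    · exact absurd (two_adj h1 k2.symm k.2.2.symm) hw

theorem sg_sq' (a b : I) : (sg a b : R) * (sg a b : R) = 1 := by
  rw [← Int.cast_mul, sg_sq, Int.cast_one]

theorem sum_nZ (b d : I) (Y : I → R) :
    ∑ f, nZ R b d f * Y f = if Adj b d then (sg b d : R) * Y (thd b d) else 0 := by
  rw [Finset.sum_eq_single (thd b d) (fun f _ hf => by rw [nZ_eq, if_neg fun h => hf h.2, zero_mul])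
    (by simp), nZ_eq]
  by_cases h : Adj b d
  · rw [if_pos h, if_pos ⟨h, rfl⟩]
  · rw [if_neg h, if_neg fun h' => h h'.1, zero_mul]

theorem der_eq (hX : Der (nZ R) X c) (a b d : I) :
    (if Adj b d then (sg b d : R) * X (thd b d) a else 0) +
      (if Adj a d then (sg a d : R) * X (thd a d) b else 0) +
      (if Adj a b then (sg a b : R) * X (thd a b) d else 0) = c * nZ R a b d := by
  have hs := (isAlb_nZ R).sym
  rw [← der_iff_single.1 hX a b d, Finset.sum_add_distrib, Finset.sum_add_distrib,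
    ← sum_nZ b d fun f => X f a, ← sum_nZ a d fun f => X f b, ← sum_nZ a b fun f => X f d]
  refine congrArg₂ (· + ·) (congrArg₂ (· + ·) ?_ ?_) rfl
  · exact Finset.sum_congr rfl fun f _ => by rw [hs.1 f b d, hs.2 b f d]
  · exact Finset.sum_congr rfl fun f _ => by rw [hs.2 a f d]

end StdAux

open StdAux

theorem Rt.symm (h : Rt e a) : Rt a e := ⟨h.1.symm, fun h' => h.2 h'.symm⟩

theorem Er_apply (h : Rt e a) (u v : I) : Er R e a u v =
    if u = e ∧ v = a then 1
    else if Adj e v ∧ Adj a u ∧ thd e v = thd a u then -((sg e v : R) * (sg a u : R)) else 0 := by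
  have h1 : (Pi.single a 1 : I → R) ⬝ᵥ Pi.single e 1 = 0 := by
    rw [dotProduct_single, Pi.single_eq_of_ne h.1, zero_mul]
  have h2 : (Pi.single e 1 : I → R) u * (Pi.single a 1 : I → R) v =
      if u = e ∧ v = a then 1 else 0 := by
    by_cases hu : u = e <;> by_cases hv : v = a <;> simp [hu, hv]
  have h3 : crs (nZ R) (Pi.single a 1) (crs (nZ R) (Pi.single e 1) (Pi.single v 1)) u =
      if Adj e v ∧ Adj a u ∧ thd e v = thd a u then (sg e v : R) * (sg a u : R) else 0 := by
    rw [crs_nZ_single]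
    by_cases hv : Adj e v
    · rw [if_pos hv, crs_smul_right, Pi.smul_apply, crs_single, (isAlb_nZ R).sym.2, nZ_eq,
        smul_eq_mul]
      by_cases ht : Tr a u (thd e v)
      · rw [if_pos ht, if_pos ⟨hv, ht.1, ht.2⟩]
      · rw [if_neg ht, if_neg fun h' => ht ⟨h'.2.1, h'.2.2⟩, mul_zero]
    · rw [if_neg hv, crs_zero_right, if_neg fun h' => hv h'.1]
      rfl
  rw [Er, DD, of_apply, h1, h2, h3, zero_mul, zero_add]
  by_cases h4 : u = e ∧ v = a
  · rw [if_pos h4, if_pos h4, if_neg fun h' => h.2 (h4.2 ▸ h'.1), sub_zero]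
  · rw [if_neg h4, if_neg h4, zero_sub]
    split_ifs
    · rfl
    · exact neg_zero

theorem Er_map {S : Type} [CommRing S] (f : R →+* S) (e a : I) : (Er R e a).map f = Er S e a := by
  have h : ∀ b : I, f ∘ (Pi.single b 1 : I → R) = Pi.single b 1 := fun b => by
    funext u
    by_cases hu : u = b <;> simp [hu]
  rw [Er, DD_map, nZ_map, h, h, Er]

theorem Er_transpose (e a : I) : (Er R e a)ᵀ = Er R a e := (isAlb_nZ R).DD_transpose _ _

theorem der_Er (h : Rt e a) : Der (nZ R) (Er R e a) 0 := by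
  have h1 := (isAlb_nZ R).der_DD (Pi.single e 1) (Pi.single a 1)
  rwa [dotProduct_single, Pi.single_eq_of_ne h.1, zero_mul, mul_zero] at h1

namespace StdAux

theorem Er_cast (e a u v : I) : Er R e a u v = (Er ℤ e a u v : R) := by
  rw [← Er_map (Int.castRingHom R)]
  rfl

theorem Er_swap (e a u v : I) : Er R e a u v = Er R a e v u := by
  rw [← Er_transpose e a]
  rfl

theorem Er_self (h : Rt e a) : Er R e a e a = 1 := by
  rw [Er_apply h, if_pos ⟨rfl, rfl⟩]

theorem cases_ne (h : Rt e a) {u v : I} (huv : Er ℤ e a u v ≠ 0) : (u = e ∧ v = a) ∨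
    (Adj e v ∧ Adj a u ∧ thd e v = thd a u ∧ Er ℤ e a u v = -(sg e v * sg a u)) := by
  rw [Er_apply h] at huv ⊢
  by_cases h1 : u = e ∧ v = a
  · exact Or.inl h1
  · rw [if_neg h1] at huv ⊢
    by_cases h2 : Adj e v ∧ Adj a u ∧ thd e v = thd a u
    · exact Or.inr ⟨h2.1, h2.2.1, h2.2.2, by rw [if_pos h2]; rfl⟩
    · exact absurd (if_neg h2) huv

theorem Er_sq (h : Rt e a) {u v : I} (huv : Er ℤ e a u v ≠ 0) :
    Er ℤ e a u v * Er ℤ e a u v = 1 := by
  rcases cases_ne h huv with ⟨rfl, rfl⟩ | ⟨-, -, -, h1⟩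
  · rw [Er_self h, mul_one]
  · rw [h1]
    linear_combination (sg a u * sg a u) * sg_sq e v + sg_sq a u

theorem ne_iff (h : Rt e a) {u v : I} : Er ℤ e a u v ≠ 0 ↔ Col e a v ∧ u = rowOf e a v := by
  constructor
  · intro huv
    rcases cases_ne h huv with ⟨rfl, rfl⟩ | ⟨h1, h2, h3, -⟩
    · exact ⟨Or.inl rfl, (if_pos rfl).symm⟩
    · have h4 := thd_spec a u h2
      refine ⟨Or.inr ⟨h1, h3 ▸ h4.2.1⟩, ?_⟩
      rw [rowOf, if_neg fun hv : v = a => h.2 (hv ▸ h1), h3, h4.2.2.1]
  · rintro ⟨h1, rfl⟩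
    by_cases hv : v = a
    · subst hv
      rw [rowOf, if_pos rfl, Er_self h]
      exact one_ne_zero
    · obtain ⟨h2, h3⟩ := h1.resolve_left hv
      have h4 := thd_spec a _ h3
      rw [rowOf, if_neg hv, Er_apply h, if_neg fun h' => hv h'.2,
        if_pos ⟨h2, h4.2.1, h4.2.2.1.symm⟩]
      intro h0
      have h5 := sg_sq e v
      have h6 := sg_sq a (thd a (thd e v))
      simp only [Int.cast_id, neg_eq_zero, mul_eq_zero] at h0
      rcases h0 with h0 | h0
      · rw [h0] at h5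
        exact zero_ne_one h5
      · rw [h0] at h6
        exact zero_ne_one h6

theorem col_of_ne (h : Rt e a) {u v : I} (huv : Er ℤ e a u v ≠ 0) : Col a e u := by
  rw [Er_swap] at huv
  exact ((ne_iff h.symm).1 huv).1

theorem rt_of_ne (h : Rt e a) {u v : I} (huv : Er ℤ e a u v ≠ 0) : Rt u v := by
  obtain ⟨h1, rfl⟩ := (ne_iff h).1 huv
  exact (col_spec e a h v h1).2.1

theorem entry' (hX : Der (nZ R) X c) (h : Rt e a) {u v : I} (huv : Er ℤ e a u v ≠ 0) :
    X u v = (Er ℤ e a u v : R) * X e a := by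
  have hn := (col_spec e a h v ((ne_iff h).1 huv).1).2.2.1
  rcases cases_ne h huv with ⟨rfl, rfl⟩ | ⟨h1, h2, h3, h4⟩
  · rw [Er_self h, Int.cast_one, one_mul]
  · have k := der_eq hX a v (thd e v)
    obtain ⟨a1, -, -, a4, -⟩ := thd_spec e v h1
    obtain ⟨-, b2, b3, -, b5⟩ := thd_spec v e h1.symm
    obtain ⟨-, c2, c3, -, c5⟩ := thd_spec a u h2
    rw [a1] at b2 b3 b5
    rw [← h3] at c2 c3 c5
    rw [if_pos b2, if_pos c2, if_neg hn, b3, b5, c3, c5, a4, nZ_eq, if_neg fun h' => hn h'.1] at k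
    rw [h4]
    push_cast
    linear_combination (sg a u : R) * k - X u v * sg_sq' (R := R) a u

end StdAux

theorem Er_mul_self (h : Rt e a) : Er R e a * Er R e a = 0 := by
  ext u v
  rw [mul_apply, Matrix.zero_apply]
  refine Finset.sum_eq_zero fun w _ => ?_
  rw [Er_cast e a u w, Er_cast e a w v]
  by_cases h1 : Er ℤ e a u w = 0
  · rw [h1, Int.cast_zero, zero_mul]
  · by_cases h2 : Er ℤ e a w v = 0
    · rw [h2, Int.cast_zero, mul_zero]
    · exact absurd (col_of_ne h h2) (col_spec e a h w ((ne_iff h).1 h1).1).1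

namespace StdAux

theorem root_map {A B : Type} [CommRing A] [CommRing B] (f : A →+* B) (s : A) (e a : I) :
    (1 + s • Er A e a).map f = 1 + f s • Er B e a := by
  rw [← Er_map f]
  generalize Er A e a = M
  ext u v
  by_cases huv : u = v <;> simp [huv]

theorem sim_root_rat [Algebra ℚ R] (h : Rt e a) (t : R) :
    Sim (nZ R) (nZ R) (1 + t • Er R e a) 1 := by
  refine Der.sim_one_add ?_ ?_
  · have := (der_Er (R := R) h).smul t
    rwa [mul_zero] at this
  · rw [smul_mul_smul_comm, Er_mul_self h, smul_zero]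

theorem sim_root_map {A B : Type} [CommRing A] [CommRing B] (f : A →+* B) (s : A)
    (h : Sim (nZ A) (nZ A) (1 + s • Er A e a) 1) : Sim (nZ B) (nZ B) (1 + f s • Er B e a) 1 := by
  have h3 := h.map f
  rwa [nZ_map, root_map, map_one] at h3

theorem sim_root_of_map {A B : Type} [CommRing A] [CommRing B] {f : A →+* B}
    (hf : Function.Injective f) (s : A) (h : Sim (nZ B) (nZ B) (1 + f s • Er B e a) 1) :
    Sim (nZ A) (nZ A) (1 + s • Er A e a) 1 := by
  refine Sim.of_map hf ?_
  rwa [nZ_map, root_map, map_one]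

end StdAux

theorem sim_root (h : Rt e a) (t : R) : Sim (nZ R) (nZ R) (1 + t • Er R e a) 1 := by
  have h1 := sim_root_map (Polynomial.eval₂RingHom (Int.castRingHom R) t) Polynomial.X
    (sim_root_of_map (f := Polynomial.mapRingHom (Int.castRingHom ℚ))
      (Polynomial.map_injective _ (RingHom.injective_int _)) _ (sim_root_rat h _))
  rwa [Polynomial.coe_eval₂RingHom, Polynomial.eval₂_X] at h1

theorem card_Er (h : Rt e a) :
    (Finset.univ.filter fun w : I × I => Er ℤ e a w.1 w.2 ≠ 0).card = 6 := by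
  rw [← col_card e a h]
  refine Finset.card_bij (fun w _ => w.2) (fun w hw => ?_) (fun w hw w' hw' e' => ?_)
    fun v hv => ⟨(rowOf e a v, v), ?_, rfl⟩
  · exact Finset.mem_filter.2 ⟨Finset.mem_univ _, ((ne_iff h).1 (Finset.mem_filter.1 hw).2).1⟩
  · refine Prod.ext ?_ e'
    rw [((ne_iff h).1 (Finset.mem_filter.1 hw).2).2, ((ne_iff h).1 (Finset.mem_filter.1 hw').2).2,
      show w.2 = w'.2 from e']
  · exact Finset.mem_filter.2 ⟨Finset.mem_univ _, (ne_iff h).2 ⟨(Finset.mem_filter.1 hv).2, rfl⟩⟩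

theorem Er_eq_of_ne (h : Rt e a) {u v : I} (huv : Er ℤ e a u v ≠ 0) :
    Rt u v ∧ Er R e a = (Er ℤ e a u v : R) • Er R u v := by
  have hr := rt_of_ne h huv
  refine ⟨hr, ?_⟩
  have h1 := entry' (der_Er (R := ℤ) hr) h huv
  rw [Er_self hr, Int.cast_id] at h1
  have h2 : Er ℤ u v e a = Er ℤ e a u v := by
    linear_combination -(Er ℤ e a u v) * h1 - Er ℤ u v e a * Er_sq h huv
  have h3 : ∀ p q, Er ℤ e a p q ≠ 0 → Er ℤ u v p q = Er ℤ e a p q * Er ℤ e a u v := by
    intro p q hpq
    rw [entry' (der_Er (R := ℤ) hr) h hpq, Int.cast_id, h2]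
  have h4 : (Finset.univ.filter fun w : I × I => Er ℤ e a w.1 w.2 ≠ 0) =
      Finset.univ.filter fun w : I × I => Er ℤ u v w.1 w.2 ≠ 0 := by
    refine Finset.eq_of_subset_of_card_le (fun w hw => ?_) (by rw [card_Er h, card_Er hr])
    have hw' := (Finset.mem_filter.1 hw).2
    refine Finset.mem_filter.2 ⟨Finset.mem_univ _, ?_⟩
    rw [h3 _ _ hw']
    exact mul_ne_zero hw' huv
  ext p q
  rw [Matrix.smul_apply, smul_eq_mul, Er_cast e a p q, Er_cast u v p q, ← Int.cast_mul]
  refine congrArg _ ?_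
  by_cases hpq : Er ℤ e a p q = 0
  · have : Er ℤ u v p q = 0 := by
      by_contra h0
      have h5 : (p, q) ∈ Finset.univ.filter fun w : I × I => Er ℤ u v w.1 w.2 ≠ 0 :=
        Finset.mem_filter.2 ⟨Finset.mem_univ _, h0⟩
      rw [← h4] at h5
      exact (Finset.mem_filter.1 h5).2 hpq
    rw [hpq, this, mul_zero]
  · rw [h3 p q hpq]
    linear_combination -(Er ℤ e a p q) * Er_sq h huv

theorem diagonal_Er (h : Rt e a) {d : I → R} {ν : Rˣ} (hd : Sim (nZ R) (nZ R) (diagonal d) ν) :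
    d a • (diagonal d * Er R e a) = d e • (Er R e a * diagonal d) := by
  ext u v
  rw [Matrix.smul_apply, Matrix.smul_apply, diagonal_mul, mul_diagonal, smul_eq_mul, smul_eq_mul,
    Er_cast e a u v]
  by_cases huv : Er ℤ e a u v = 0
  · simp [huv]
  · rcases cases_ne h huv with ⟨rfl, rfl⟩ | ⟨h1, h2, h3, -⟩
    · ring
    · have k1 := sim_diagonal_iff.1 hd e v h1
      have k2 := sim_diagonal_iff.1 hd a u h2
      rw [← h3] at k2
      have hu : IsUnit (d (thd e v)) := isUnit_of_mul_isUnit_right (k1 ▸ ν.isUnit)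
      have k3 : d a * d u = d e * d v := hu.mul_right_cancel (k2.trans k1.symm)
      linear_combination (Er ℤ e a u v : R) * k3

variable [Algebra ℚ R]

theorem Der.adj_eq_zero (hX : Der (nZ R) X c) (h : Adj e a) : X e a = 0 := by
  have k := der_eq hX a a (thd a e)
  obtain ⟨-, b2, b3, -, -⟩ := thd_spec a e h.symm
  rw [if_pos b2, if_neg (not_adj_self a), b3, nZ_eq, if_neg fun h' => not_adj_self a h'.1] at k
  have h2 : algebraMap ℚ R (1 / 2) * 2 = 1 := by
    rw [← map_ofNat (algebraMap ℚ R) 2, ← map_mul]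
    norm_num
  linear_combination (algebraMap ℚ R (1 / 2) * sg a (thd a e)) * k -
    (algebraMap ℚ R (1 / 2) * 2 * X e a) * sg_sq' (R := R) a (thd a e) - X e a * h2

theorem Der.entry (hX : Der (nZ R) X c) (h : Rt e a) {u v : I} (huv : Er ℤ e a u v ≠ 0) :
    X u v = (Er ℤ e a u v : R) * X e a := entry' hX h huv

theorem Der.diag (hX : Der (nZ R) X c) : Der (nZ R) (diagonal fun u => X u u) c := by
  refine der_diagonal_iff.2 fun a b h => ?_
  have k := der_eq hX a b (thd a b)
  obtain ⟨a1, a2, a3, a4, a5⟩ := thd_spec a b h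
  obtain ⟨-, b2, b3, -, b5⟩ := thd_spec b a h.symm
  rw [a1] at b2 b3 b5
  rw [if_pos b2, if_pos a2, if_pos h, a3, a5, b3, b5, a4, nZ_eq, if_pos ⟨h, rfl⟩] at k
  linear_combination (sg a b : R) * k -
    (X a a + X b b + X (thd a b) (thd a b) - c) * sg_sq' (R := R) a b

theorem Der.decomp (hX : Der (nZ R) X c) : X = (diagonal fun u => X u u) +
    (1 / 6 : ℚ) • ∑ w : I × I, if Rt w.1 w.2 then X w.1 w.2 • Er R w.1 w.2 else 0 := by
  ext p q
  rw [Matrix.add_apply, Matrix.smul_apply, Matrix.sum_apply]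
  by_cases hr : Rt p q
  · have h1 : ∀ w : I × I, (if Rt w.1 w.2 then X w.1 w.2 • Er R w.1 w.2 else 0) p q =
        if Er ℤ p q w.1 w.2 ≠ 0 then X p q else 0 := by
      rintro ⟨u, v⟩
      by_cases h2 : Er ℤ p q u v ≠ 0
      · obtain ⟨h3, h4⟩ := Er_eq_of_ne (R := R) hr h2
        have h5 := congrFun (congrFun h4 p) q
        rw [Er_self hr, Matrix.smul_apply, smul_eq_mul] at h5
        rw [if_pos h3, if_pos h2, Matrix.smul_apply, smul_eq_mul, hX.entry hr h2]
        linear_combination -(X p q) * h5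
      · rw [if_neg h2]
        split_ifs with h3
        · have h4 : Er ℤ u v p q = 0 := by
            by_contra h5
            have h6 := congrFun (congrFun (Er_eq_of_ne (R := ℤ) h3 h5).2 u) v
            rw [Er_self h3, Matrix.smul_apply, not_not.1 h2, smul_zero] at h6
            exact one_ne_zero h6
          rw [Matrix.smul_apply, Er_cast, h4, Int.cast_zero, smul_zero]
        · rfl
    rw [Finset.sum_congr rfl fun w _ => h1 w, ← Finset.sum_filter, Finset.sum_const, card_Er hr,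
      diagonal_apply_ne _ hr.1, zero_add, ← Nat.cast_smul_eq_nsmul ℚ, smul_smul]
    norm_num
  · have h1 : ∀ w : I × I, (if Rt w.1 w.2 then X w.1 w.2 • Er R w.1 w.2 else 0) p q = 0 := by
      rintro ⟨u, v⟩
      split_ifs with h3
      · have h4 : Er ℤ u v p q = 0 := by_contra fun h5 => hr (rt_of_ne h3 h5)
        rw [Matrix.smul_apply, Er_cast, h4, Int.cast_zero, smul_zero]
      · rfl
    rw [Finset.sum_eq_zero fun w _ => h1 w, smul_zero, add_zero]
    by_cases hpq : p = q
    · rw [hpq, diagonal_apply_eq]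
    · rw [diagonal_apply_ne _ hpq]
      exact hX.adj_eq_zero (by_contra fun h' => hr ⟨hpq, h'⟩)

theorem Der.Er_mul_Er (hX : Der (nZ R) X c) (h : Rt e a) :
    Er R e a * X * Er R e a = X a e • Er R e a := by
  ext p q
  have key : ∀ u v, Er R e a p v * X v u * Er R e a u q =
      if u = p then (if v = q then X a e * Er R e a p q else 0) else 0 := by
    intro u v
    rw [Er_cast e a p v, Er_cast e a u q, Er_cast e a p q]
    by_cases h1 : Er ℤ e a p v = 0
    · rw [h1]
      split_ifs with k1 k2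
      · rw [← k2, h1]
        simp
      · simp
      · simp
    by_cases h2 : Er ℤ e a u q = 0
    · rw [h2]
      split_ifs with k1 k2
      · rw [← k1, h2]
        simp
      · simp
      · simp
    obtain ⟨c1, c2⟩ := (ne_iff h).1 h1
    rcases (col_spec e a h v c1).2.2.2 u (col_of_ne h h2) with h3 | h3
    · have hu : u = p := h3.trans c2.symm
      subst hu
      have hv : v = q := by
        rw [Er_swap] at h1 h2
        exact ((ne_iff h.symm).1 h1).2.trans ((ne_iff h.symm).1 h2).2.symm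
      subst hv
      have h4 := hX.entry h.symm (u := v) (v := u) (by rwa [← Er_swap])
      have h5 : (Er ℤ e a u v : R) * (Er ℤ e a u v : R) = 1 := by
        rw [← Int.cast_mul, Er_sq h h1, Int.cast_one]
      rw [if_pos rfl, if_pos rfl, h4, ← Er_swap e a u v]
      linear_combination (X a e * (Er ℤ e a u v : R)) * h5
    · rw [hX.adj_eq_zero h3, mul_zero, zero_mul, if_neg]
      rintro rfl
      exact (rt_of_ne h h1).2 h3.symm
  rw [mul_apply, Matrix.smul_apply, smul_eq_mul]
  simp only [mul_apply, Finset.sum_mul, key]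
  simp

end Pool.Agent.P.MP_3c2f8c_gt.Ex
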