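import Pool.Agent.P.MP_3c2f8c_gt.Ex.Al.J1
import Pool.Agent.P.MP_3c2f8c_gt.Ex.Al.Cub2

/-! Ex-Al-Tw: anisotropy of twisted pairs. -/

namespace Pool.Agent.P.MP_3c2f8c_gt.Ex

open Matrix

section General

variable {L : Type} [Field L] {σ : L ≃+* L}

namespace TwAux

theorem map_mulVec {ι : Type} [Fintype ι] (σ : L ≃+* L) (A : Matrix ι ι L) (v : ι → L) :
    σ ∘ (A *ᵥ v) = A.map σ *ᵥ (σ ∘ v) :=
  funext fun i => RingHom.map_mulVec (σ : L →+* L) A v i

theorem cube_vec {ι : Type} [Fintype ι] (h3 : ∀ x, σ (σ (σ x)) = x) (A : Matrix ι ι L)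
    (v : ι → L) : A *ᵥ (σ ∘ (A *ᵥ (σ ∘ (A *ᵥ (σ ∘ v))))) =
      (A * A.map σ * (A.map σ).map σ) *ᵥ v := by
  have e : σ ∘ σ ∘ σ ∘ v = v := funext fun i => h3 _
  rw [map_mulVec, map_mulVec, map_mulVec, e, mulVec_mulVec, mulVec_mulVec]

theorem fixed {V : Type} [AddCommGroup V] [Module L V] (Φ : V → V)
    (hΦ : ∀ (c : L) v, Φ (c • v) = σ c • Φ v) {β : L} (hβ0 : β ≠ 0)
    (hβ : ∀ v, Φ (Φ (Φ v)) = β • v) {v : V} (hv : v ≠ 0) : σ β = β := by
  have h0 : Φ 0 = 0 := by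
    have := hΦ 0 0
    rwa [zero_smul, map_zero, zero_smul] at this
  have h1 : Φ v ≠ 0 := fun h => by
    have := hβ v
    rw [h, h0, h0] at this
    exact smul_ne_zero hβ0 hv this.symm
  have h2 : σ β • Φ v = β • Φ v := by rw [← hΦ, ← hβ, hβ (Φ v)]
  exact smul_left_injective L h1 h2

theorem det_map {ι : Type} [Fintype ι] [DecidableEq ι] (σ : L ≃+* L) (A : Matrix ι ι L) :
    (A.map σ).det = σ A.det := (RingHom.map_det (σ : L →+* L) A).symm

end TwAux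

/-- If `Φ ^ 3 = β` is not a norm then every stable subspace has dimension divisible by three. -/
theorem three_dvd_finrank {V : Type} [AddCommGroup V] [Module L V] [FiniteDimensional L V]
    (h3 : ∀ x, σ (σ (σ x)) = x) (Φ : V →+ V) (hΦ : ∀ (c : L) v, Φ (c • v) = σ c • Φ v) {β : L}
    (hβ0 : β ≠ 0) (hβ : ∀ v, Φ (Φ (Φ v)) = β • v) (nn : ¬ ∃ c, c * σ c * σ (σ c) = β) :
    3 ∣ Module.finrank L V := by
  rcases subsingleton_or_nontrivial V with hV | hV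
  · rw [Module.finrank_zero_of_subsingleton]
    exact dvd_zero 3
  obtain ⟨v₀, hv₀⟩ := exists_ne (0 : V)
  have hf : σ β = β := TwAux.fixed Φ hΦ hβ0 hβ hv₀
  let b := Module.finBasis L V
  let A : Matrix (Fin (Module.finrank L V)) (Fin (Module.finrank L V)) L :=
    Matrix.of fun i j => b.equivFun (Φ (b j)) i
  have hA : ∀ v, b.equivFun (Φ v) = A *ᵥ (σ ∘ b.equivFun v) := fun v => by
    conv_lhs => rw [← b.sum_equivFun v]
    simp only [map_sum, hΦ, map_smul]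
    funext i
    simp only [Finset.sum_apply, Pi.smul_apply, smul_eq_mul, mulVec, dotProduct, A, of_apply,
      Function.comp_apply, mul_comm]
  have hc : A * A.map σ * (A.map σ).map σ = β • (1 : Matrix _ _ L) := by
    refine Matrix.ext_of_mulVec_single fun j => ?_
    obtain ⟨v, hv⟩ := b.equivFun.surjective (Pi.single j 1)
    rw [← TwAux.cube_vec h3, ← hv, ← hA, ← hA, ← hA, hβ, map_smul, smul_mulVec, one_mulVec]
  have hd := congrArg Matrix.det hc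
  rw [det_mul, det_mul, TwAux.det_map, TwAux.det_map, TwAux.det_map, det_smul, det_one, mul_one,
    Fintype.card_fin] at hd
  generalize A.det = a at hd
  generalize Module.finrank L V = d at hd
  have ha : a * σ a * σ (σ a) ≠ 0 := hd ▸ pow_ne_zero _ hβ0
  by_contra h
  obtain ⟨k, hk | hk⟩ : ∃ k, d = 3 * k + 1 ∨ d = 3 * k + 2 := ⟨d / 3, by omega⟩
  · refine nn ⟨a / β ^ k, ?_⟩
    simp only [map_div₀, map_pow, hf]
    rw [div_mul_div_comm, div_mul_div_comm, hd, hk, div_eq_iff (by simp [hβ0])]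
    ring
  · refine nn ⟨β ^ (k + 1) / a, ?_⟩
    simp only [map_div₀, map_pow, hf]
    rw [div_mul_div_comm, div_mul_div_comm, div_eq_iff ha, hd, hk]
    ring

variable [CharZero L] {n m : T3 L} {φ : GL I L} {β : L}

set_option linter.unusedSectionVars false

theorem PhiV_add (φ : Matrix I I L) (v w : I → L) :
    PhiV σ φ (v + w) = PhiV σ φ v + PhiV σ φ w := by
  have e : σ ∘ (v + w) = σ ∘ v + σ ∘ w := funext fun i => map_add σ _ _
  rw [PhiV, e, mulVec_add, PhiV, PhiV]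

theorem PhiV_smul (φ : Matrix I I L) (c : L) (v : I → L) :
    PhiV σ φ (c • v) = σ c • PhiV σ φ v := by
  have e : σ ∘ (c • v) = σ c • (σ ∘ v) := funext fun i => map_mul σ _ _
  rw [PhiV, e, mulVec_smul, PhiV]

theorem Tw.ne_zero (T : Tw σ n m φ β) : β ≠ 0 := fun h => T.nn ⟨0, by rw [h, zero_mul, zero_mul]⟩

namespace TwAux

theorem phi_cube (T : Tw σ n m φ β) (v : I → L) :
    PhiV σ φ.1 (PhiV σ φ.1 (PhiV σ φ.1 v)) = β • v := by
  have h := cube_vec T.ord φ.1 v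
  rw [T.cube, smul_mulVec, one_mulVec] at h
  exact h

end TwAux

theorem Tw.fixed (T : Tw σ n m φ β) : σ β = β :=
  TwAux.fixed (PhiV σ φ.1) (PhiV_smul φ.1) T.ne_zero (TwAux.phi_cube T)
    (v := fun _ => 1) fun h => one_ne_zero (congrFun h (.inl 0))

theorem Tw.phi_cube (T : Tw σ n m φ β) (v : I → L) :
    PhiV σ φ.1 (PhiV σ φ.1 (PhiV σ φ.1 v)) = β • v := TwAux.phi_cube T v

theorem Tw.tri_phi (T : Tw σ n m φ β) (x y z : I → L) :
    tri n (PhiV σ φ.1 x) (PhiV σ φ.1 y) (PhiV σ φ.1 z) = β * σ (tri n x y z) :=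
  (T.sim _ _ _).trans (congrArg (β * ·) (tri_map (σ : L →+* L) n x y z))

theorem Tw.crs_phi (T : Tw σ n m φ β) (x y : I → L) :
    crs n (PhiV σ φ.1 x) (PhiV σ φ.1 y) = β • PhiV σ (dag φ).1 (crs n x y) :=
  (T.sim.crs _ _).trans
    (congrArg (fun v => β • (dag φ).1 *ᵥ v) (crs_map (σ : L →+* L) n x y))

theorem Tw.dot_phi (ξ x : I → L) : PhiV σ (dag φ).1 ξ ⬝ᵥ PhiV σ φ.1 x = σ (ξ ⬝ᵥ x) :=
  (dag_dot φ _ _).trans (RingHom.map_dotProduct (σ : L →+* L) ξ x).symm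

theorem Tw.dual (T : Tw σ n m φ β) : Tw σ m n (dag φ) β⁻¹ where
  alb := T.alb.symm
  ord := T.ord
  sim := Sim.dag (ν := Units.mk0 β T.ne_zero) (T.alb.map (σ : L →+* L)) T.alb T.sim
  cube := by
    have hm : ∀ A B : Matrix I I L, A * B = 1 → A.map σ * B.map σ = 1 := fun A B h => by
      rw [← Matrix.map_mul, h]
      simp
    have h0 : (φ⁻¹).1 * φ.1 = 1 := by rw [← Units.val_mul, inv_mul_cancel, Units.val_one]
    have h1 := hm _ _ h0
    have h2 := hm _ _ h1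
    have h3 : (((φ⁻¹).1.map σ).map σ * (φ⁻¹).1.map σ * (φ⁻¹).1) *
        (φ.1 * φ.1.map σ * (φ.1.map σ).map σ) = 1 := by
      calc _ = ((φ⁻¹).1.map σ).map σ * ((φ⁻¹).1.map σ * ((φ⁻¹).1 * φ.1) * φ.1.map σ) *
            (φ.1.map σ).map σ := by simp only [Matrix.mul_assoc]
        _ = 1 := by rw [h0, Matrix.mul_one, h1, Matrix.mul_one, h2]
    rw [T.cube, Matrix.mul_smul, Matrix.mul_one] at h3
    have h4 : ((φ⁻¹).1.map σ).map σ * (φ⁻¹).1.map σ * (φ⁻¹).1 = β⁻¹ • (1 : Matrix I I L) := by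
      rw [← h3, smul_smul, inv_mul_cancel₀ T.ne_zero, one_smul]
    have h5 := congrArg Matrix.transpose h4
    rw [transpose_mul, transpose_mul, ← Matrix.mul_assoc, transpose_smul, transpose_one] at h5
    exact h5
  nn := fun ⟨c, hc⟩ => T.nn ⟨c⁻¹, by
    rw [map_inv₀, map_inv₀, ← mul_inv, ← mul_inv, hc, inv_inv]⟩
  np := T.np'
  np' := T.np

theorem Tw.three_dvd (T : Tw σ n m φ β) (W : Submodule L (I → L))
    (hW : ∀ v ∈ W, PhiV σ φ.1 v ∈ W) : 3 ∣ Module.finrank L W :=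
  three_dvd_finrank T.ord
    (AddMonoidHom.mk' (fun v : W => (⟨PhiV σ φ.1 v.1, hW v.1 v.2⟩ : W))
      fun v w => Subtype.ext (PhiV_add φ.1 v.1 w.1))
    (fun c v => Subtype.ext (PhiV_smul φ.1 c v.1)) T.ne_zero
    (fun v => Subtype.ext (T.phi_cube v.1)) T.nn

namespace TwAux

theorem phi_zero (A : Matrix I I L) : PhiV σ A 0 = 0 := by
  have h := PhiV_smul (σ := σ) A 0 0
  rwa [zero_smul, map_zero, zero_smul] at h

theorem crs_crs (h : IsAlb n m) {u : I → L} (hu : crs n u u = 0) (v w : I → L) :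
    crs m (crs n u v) (crs n u w) = tri n u v w • u := by
  have h0 : ∀ x, tri n u u x = 0 := fun x => by rw [tri_eq_dot, hu, zero_dotProduct]
  have h1 := h.f4 u v u w
  rw [hu, crs_zero_left, add_zero, h.sym.crs_comm v u, h.sym'.crs_comm (crs n u w),
    h.sym.tri_swap₂₃ u v u, h0, h0, zero_smul, zero_smul, zero_add, add_zero,
    h.sym.tri_swap₁₂ v u w, ← two_smul L, ← two_smul L] at h1
  exact smul_right_injective _ two_ne_zero h1

theorem crs_phi_self (T : Tw σ n m φ β) {y : I → L} (hs : crs n y y = 0) :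
    crs n (PhiV σ φ.1 y) (PhiV σ φ.1 y) = 0 := by
  rw [T.crs_phi, hs, phi_zero, smul_zero]

theorem eq_zero (T : Tw σ n m φ β) {y : I → L} (hs : crs n y y = 0)
    (h : crs n y (PhiV σ φ.1 y) = 0) : y = 0 := by
  by_contra hy
  obtain ⟨c, hc⟩ := T.np y _ hs h (crs_phi_self T hs) hy
  have h3 := T.three_dvd (Submodule.span L {y}) fun v hv => by
    obtain ⟨a, rfl⟩ := Submodule.mem_span_singleton.1 hv
    rw [PhiV_smul, hc]
    exact Submodule.smul_mem _ _ (Submodule.smul_mem _ _ (Submodule.mem_span_singleton_self y))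
  rw [finrank_span_singleton hy] at h3
  omega

end TwAux

theorem Tw.tri_ne (T : Tw σ n m φ β) {y : I → L} (hy : y ≠ 0) (hs : crs n y y = 0) :
    tri n y (PhiV σ φ.1 y) (PhiV σ φ.1 (PhiV σ φ.1 y)) ≠ 0 := fun hN => by
  have h1 := TwAux.crs_phi_self T hs
  refine hy (TwAux.eq_zero T hs (TwAux.eq_zero T.dual ?_ ?_))
  · rw [TwAux.crs_crs T.alb hs, T.alb.sym.tri_rotate, tri_eq_dot, h1, zero_dotProduct, zero_smul]
  · have h2 := TwAux.crs_crs T.alb h1 y (PhiV σ φ.1 (PhiV σ φ.1 y))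
    rw [T.alb.sym.tri_swap₁₂, hN, zero_smul, T.crs_phi, crs_smul_right,
      T.alb.sym.crs_comm (PhiV σ φ.1 y) y] at h2
    exact (smul_eq_zero.1 h2).resolve_left T.ne_zero

end General

theorem Good.not_norm {b : ℚ} (hb : Good b) (x : Cub ℚ) : Cub.nrm x ≠ b ^ 2 := fun h => by
  obtain ⟨p, hp, hv⟩ := hb.div
  have h1 : Cub.nrm (Cub.map (algebraMap ℚ ℚ_[p]) x) = (b : ℚ_[p]) ^ 2 := by
    rw [Cub.nrm_map, h, map_pow, eq_ratCast]
  have hb0 : (b : ℚ_[p]) ≠ 0 := Rat.cast_ne_zero.2 hb.ne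
  have h2 : Cub.map (algebraMap ℚ ℚ_[p]) x ≠ 0 := fun h0 => by
    rw [h0, Cub.nrm_eq] at h1
    exact pow_ne_zero 2 hb0 (by rw [← h1]; simp)
  have h3 := (hp.three_dvd h2).2
  rw [h1, Padic.valuation_pow, Padic.valuation_ratCast] at h3
  exact hv (by omega)

theorem Good.tw {b : ℚ} (hb : Good b) {φ : GL I (Cub ℚ)} (hφ : φ.1 = ph b (Cub ℚ)) :
    Tw Cub.sig (nJ (Cub ℚ)) (mJ (Cub ℚ)) φ (algebraMap ℚ (Cub ℚ) (b ^ 2)) where
  alb := isAlb_nJ _
  ord := Cub.sig_sig_sig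
  sim := by
    have e : (nJ (Cub ℚ)).map Cub.sig = nJ (Cub ℚ) :=
      nJ_map ((Cub.sig : Cub ℚ ≃+* Cub ℚ) : Cub ℚ →+* Cub ℚ)
    rw [e, hφ, map_pow]
    exact sim_phi _
  cube := by
    have e : (ph b (Cub ℚ)).map Cub.sig = ph b (Cub ℚ) :=
      ph_map b ((Cub.sig : Cub ℚ ≃+* Cub ℚ) : Cub ℚ →+* Cub ℚ)
    rw [hφ, e, e, map_pow]
    exact phi_cube _
  nn := fun ⟨c, hc⟩ => hb.not_norm c (Cub.C_injective ((Cub.C_nrm c).trans hc))
  np := NoPlane.of_map iotaQ (by rw [nJ_map]; exact noPlane_nJ)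
  np' := NoPlane.of_map iotaQ (by rw [mJ_map]; exact noPlane_mJ)

theorem exists_phU {b : ℚ} (hb : b ≠ 0) (R : Type) [CommRing R] [Algebra ℚ R] :
    ∃ φ : GL I R, φ.1 = ph b R :=
  exists_phiU (Units.map (algebraMap ℚ R).toMonoidHom (Units.mk0 b hb))

end Pool.Agent.P.MP_3c2f8c_gt.Ex
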