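import Pool.Agent.P.MP_3c2f8c_gt.Ex.Comb

/-! Ex-Al-Z1a: the finite check of the adjoint identity for the split model. -/

namespace Pool.Agent.P.MP_3c2f8c_gt.Ex

namespace Z1Aux

/-- The table of third points on numbers. -/
def T (a b : ℕ) : ℕ := (thdT >>> (5 * (27 * a + b))) % 32

/-- The table of signs on numbers. -/
def G (a b : ℕ) : ℤ := if (sgT >>> (27 * a + b)) % 2 = 1 then -1 else 1

/-- The coefficient at `e` of `k` times the basis vector `t`. -/
def co (t : ℕ) (k : ℤ) (e : ℕ) : ℤ := if t = e then k else 0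

/-- The target of a double cross product. -/
def Lt (a b c d : ℕ) : ℕ := if T a b = 31 then 31 else if T c d = 31 then 31 else T (T a b) (T c d)

/-- The sign of a double cross product. -/
def Lk (a b c d : ℕ) : ℤ := G a b * (G c d * G (T a b) (T c d))

/-- The target of a term on the right. -/
def Rt (a b c d : ℕ) : ℕ := if T a b = c then d else 31

/-- The check of an identity between seven terms. -/
def chk7 (t1 t2 t3 t4 t5 t6 t7 : ℕ) (k1 k2 k3 k4 k5 k6 k7 : ℤ) : Bool :=
  [t1, t2, t3, t4, t5, t6, t7].all fun e => e == 31 ||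
    decide (co t1 k1 e + co t2 k2 e + co t3 k3 e =
      co t4 k4 e + co t5 k5 e + co t6 k6 e + co t7 k7 e)

theorem chk7_spec {t1 t2 t3 t4 t5 t6 t7 : ℕ} {k1 k2 k3 k4 k5 k6 k7 : ℤ}
    (h : chk7 t1 t2 t3 t4 t5 t6 t7 k1 k2 k3 k4 k5 k6 k7 = true) {e : ℕ} (he : e ≠ 31) :
    co t1 k1 e + co t2 k2 e + co t3 k3 e = co t4 k4 e + co t5 k5 e + co t6 k6 e + co t7 k7 e := by
  by_cases hm : e ∈ [t1, t2, t3, t4, t5, t6, t7]
  · have h1 := List.all_eq_true.1 h e hm
    simpa [he] using h1
  · simp only [List.mem_cons, List.not_mem_nil, or_false, not_or] at hm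
    obtain ⟨h1, h2, h3, h4, h5, h6, h7⟩ := hm
    simp only [co, if_neg (Ne.symm h1), if_neg (Ne.symm h2), if_neg (Ne.symm h3),
      if_neg (Ne.symm h4), if_neg (Ne.symm h5), if_neg (Ne.symm h6), if_neg (Ne.symm h7), add_zero]

/-- The check for one quadruple. -/
def chk (a b c d : ℕ) : Bool :=
  chk7 (Lt a b c d) (Lt a c b d) (Lt a d b c) (Rt a b c d) (Rt a b d c) (Rt a c d b) (Rt b c d a)
    (Lk a b c d) (Lk a c b d) (Lk a d b c) (G a b) (G a b) (G a c) (G b c)

theorem chk_all : ((List.range 27).all fun d => (List.range (d + 1)).all fun c =>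
    (List.range (c + 1)).all fun b => (List.range (b + 1)).all fun a => chk a b c d) = true := by
  decide +kernel

theorem chk_of {a b c d : ℕ} (h1 : a ≤ b) (h2 : b ≤ c) (h3 : c ≤ d) (h4 : d < 27) :
    chk a b c d = true :=
  List.all_eq_true.1 (List.all_eq_true.1 (List.all_eq_true.1 (List.all_eq_true.1 chk_all d
    (List.mem_range.2 h4)) c (List.mem_range.2 (by omega))) b (List.mem_range.2 (by omega))) a
    (List.mem_range.2 (by omega))

end Z1Aux

end Pool.Agent.P.MP_3c2f8c_gt.Ex
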