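import Pool.Agent.P.MP_3c2f8c_gt.Ex.Al.B1
import Pool.Agent.P.MP_3c2f8c_gt.Ex.Al.Z1a

/-! Ex-Al-Z1: the split model is an Albert pair. -/

namespace Pool.Agent.P.MP_3c2f8c_gt.Ex

open Matrix

variable {R : Type} [CommRing R]

theorem nZ_eq (a b c : I) : nZ R a b c = if Tr a b c then (sg a b : R) else 0 := by
  rw [nZ, nZ0_eq]
  split_ifs <;> simp

theorem crs_nZ_single (a b : I) : crs (nZ R) (Pi.single a 1) (Pi.single b 1) =
    if Adj a b then (sg a b : R) • (Pi.single (thd a b) 1 : I → R) else 0 := by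
  funext c
  rw [crs_single, nZ_eq]
  by_cases h : Adj a b
  · by_cases hc : c = thd a b <;> simp [Tr, h, hc]
  · simp [Tr, h]

namespace Z1Aux

theorem tr_swap₁ {a b c : I} (h : Tr a b c) : Tr b a c ∧ sg b a = sg a b :=
  ⟨⟨h.1.symm, h.2.trans (thd_spec a b h.1).1.symm⟩, (thd_spec a b h.1).2.2.2.1⟩

theorem tr_swap₂ {a b c : I} (h : Tr a b c) : Tr a c b ∧ sg a c = sg a b := by
  obtain ⟨h1, rfl⟩ := h
  exact ⟨⟨(thd_spec a b h1).2.1, (thd_spec a b h1).2.2.1.symm⟩, (thd_spec a b h1).2.2.2.2⟩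

theorem sym (R : Type) [CommRing R] : Sym3 (nZ R) := by
  refine ⟨fun a b c => ?_, fun a b c => ?_⟩
  · rw [nZ_eq, nZ_eq]
    by_cases h : Tr a b c
    · rw [if_pos h, if_pos (tr_swap₁ h).1, (tr_swap₁ h).2]
    · rw [if_neg h, if_neg fun h' => h (tr_swap₁ h').1]
  · rw [nZ_eq, nZ_eq]
    by_cases h : Tr a b c
    · rw [if_pos h, if_pos (tr_swap₂ h).1, (tr_swap₂ h).2]
    · rw [if_neg h, if_neg fun h' => h (tr_swap₂ h').1]

theorem sum_nZ (a b : I) (f : I → R) :
    ∑ c, nZ R a b c * f c = if Adj a b then (sg a b : R) * f (thd a b) else 0 := by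
  by_cases h : Adj a b
  · rw [if_pos h, Finset.sum_eq_single (thd a b)]
    · rw [nZ_eq, if_pos ⟨h, rfl⟩]
    · intro c _ hc
      rw [nZ_eq, if_neg fun h' => hc h'.2, zero_mul]
    · simp
  · rw [if_neg h]
    exact Finset.sum_eq_zero fun c _ => by rw [nZ_eq, if_neg fun h' => h h'.1, zero_mul]

theorem nZ_fun (a b : I) : nZ R a b =
    if Adj a b then (sg a b : R) • (Pi.single (thd a b) 1 : I → R) else 0 := by
  rw [← crs_nZ_single]
  funext c
  rw [crs_single]

theorem enc_lt : ∀ a : I, enc a < 27 := by decide +kernel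

theorem enc_inj : ∀ a b : I, enc a = enc b ↔ a = b := by decide +kernel

theorem enc_thd : ∀ a b : I, Adj a b → T (enc a) (enc b) = enc (thd a b) := by decide +kernel

theorem adj_iff (a b : I) : Adj a b ↔ T (enc a) (enc b) ≠ 31 := Iff.rfl

theorem sg_eq (a b : I) : sg a b = G (enc a) (enc b) := rfl

theorem nZ_co (a b e : I) : nZ ℤ a b e = co (T (enc a) (enc b)) (G (enc a) (enc b)) (enc e) := by
  rw [nZ_eq, co]
  by_cases h : Adj a b
  · simp only [Tr, h, true_and, enc_thd a b h, enc_inj, Int.cast_id, sg_eq, eq_comm]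
  · have h1 : T (enc a) (enc b) ≠ enc e := by
      have h2 := enc_lt e
      rw [adj_iff, not_not] at h
      omega
    rw [if_neg fun h' => h h'.1, if_neg h1]

theorem left_eq (a b c d e : I) : crs (nZ ℤ) (nZ ℤ a b) (nZ ℤ c d) e =
    co (Lt (enc a) (enc b) (enc c) (enc d)) (Lk (enc a) (enc b) (enc c) (enc d)) (enc e) := by
  have he : 31 ≠ enc e := by
    have h2 := enc_lt e
    omega
  rw [nZ_fun a b, nZ_fun c d, Lt]
  by_cases h1 : Adj a b
  · by_cases h2 : Adj c d
    · rw [if_pos h1, if_pos h2, if_neg ((adj_iff a b).1 h1), if_neg ((adj_iff c d).1 h2),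
        crs_smul_left, crs_smul_right, Pi.smul_apply,
        Pi.smul_apply, crs_single, nZ_co, Lk, enc_thd a b h1, enc_thd c d h2, co, co]
      split_ifs
      · rfl
      · simp
    · rw [if_neg h2, crs_zero_right, if_neg ((adj_iff a b).1 h1),
        if_pos (not_not.1 (mt (adj_iff c d).2 h2)), co, if_neg he]
      rfl
  · rw [if_neg h1, crs_zero_left, if_pos (not_not.1 (mt (adj_iff a b).2 h1)), co, if_neg he]
    rfl

theorem right_eq (a b c d e : I) : (nZ ℤ a b c • (Pi.single d 1 : I → ℤ)) e =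
    co (Rt (enc a) (enc b) (enc c) (enc d)) (G (enc a) (enc b)) (enc e) := by
  have he : 31 ≠ enc e := by
    have h2 := enc_lt e
    omega
  rw [Pi.smul_apply, nZ_co, Rt, co, co]
  by_cases h1 : T (enc a) (enc b) = enc c
  · rw [if_pos h1, if_pos h1]
    by_cases h2 : d = e
    · subst h2
      simp
    · rw [if_neg fun h => h2 ((enc_inj _ _).1 h), Pi.single_eq_of_ne (Ne.symm h2), smul_zero]
  · rw [if_neg h1, if_neg h1, if_neg he, zero_smul]

/-- The adjoint identity on four basis vectors. -/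
def P4 (n : T3 ℤ) (a b c d : I) : Prop :=
  crs n (n a b) (n c d) + crs n (n a c) (n b d) + crs n (n a d) (n b c) =
    n a b c • (Pi.single d 1 : I → ℤ) + n a b d • (Pi.single c 1 : I → ℤ) +
      n a c d • (Pi.single b 1 : I → ℤ) + n b c d • (Pi.single a 1 : I → ℤ)

theorem p4_sorted (a b c d : I) (h1 : enc a ≤ enc b) (h2 : enc b ≤ enc c) (h3 : enc c ≤ enc d) :
    P4 (nZ ℤ) a b c d := by
  funext e
  simp only [Pi.add_apply, left_eq, right_eq]
  refine chk7_spec (chk_of h1 h2 h3 (enc_lt d)) ?_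
  have h2 := enc_lt e
  omega

theorem sort4 {α : Type} (f : α → ℕ) (P : α → α → α → α → Prop)
    (s1 : ∀ {a b c d}, P a b c d → P b a c d) (s2 : ∀ {a b c d}, P a b c d → P a c b d)
    (s3 : ∀ {a b c d}, P a b c d → P a b d c)
    (h : ∀ a b c d, f a ≤ f b → f b ≤ f c → f c ≤ f d → P a b c d) (a b c d : α) : P a b c d := by
  have h3 : ∀ a b c d, f b ≤ f c → f c ≤ f d → P a b c d := fun a b c d hbc hcd => by
    rcases le_total (f a) (f b) with k1 | k1
    · exact h a b c d k1 hbc hcd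
    rcases le_total (f a) (f c) with k2 | k2
    · exact s1 (h b a c d k1 k2 hcd)
    rcases le_total (f a) (f d) with k3 | k3
    · exact s1 (s2 (h b c a d hbc k2 k3))
    · exact s1 (s2 (s3 (h b c d a hbc hcd k3)))
  have h2 : ∀ a b c d, f c ≤ f d → P a b c d := fun a b c d hcd => by
    rcases le_total (f b) (f c) with k1 | k1
    · exact h3 a b c d k1 hcd
    rcases le_total (f b) (f d) with k2 | k2
    · exact s2 (h3 a c b d k1 k2)
    · exact s2 (s3 (h3 a c d b hcd k2))
  rcases le_total (f c) (f d) with k | k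
  · exact h2 a b c d k
  · exact s3 (h2 a b d c k)

theorem p4_all (a b c d : I) : P4 (nZ ℤ) a b c d := by
  have hs := sym ℤ
  have hf : ∀ a b, nZ ℤ a b = nZ ℤ b a := fun a b => funext fun c => hs.1 a b c
  refine sort4 enc (P4 (nZ ℤ)) ?_ ?_ ?_ p4_sorted a b c d
  · intro a b c d h
    unfold P4 at h ⊢
    rw [hf b a, hs.crs_comm (nZ ℤ b c), hs.crs_comm (nZ ℤ b d)]
    linear_combination h
  · intro a b c d h
    unfold P4 at h ⊢
    rw [hf c b, hs.2 a c b]
    linear_combination h
  · intro a b c d h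
    unfold P4 at h ⊢
    rw [hf d c, hs.2 a d c, hs.2 b d c]
    linear_combination h

theorem tr_chk : ∀ a d : I, ∑ b, (if Adj a b then sg a b *
    (if Tr d b (thd a b) then sg d b else 0) else 0) = if a = d then 10 else 0 := by
  decide +kernel

theorem isAlb_int : IsAlb (nZ ℤ) (nZ ℤ) where
  sym := sym ℤ
  sym' := sym ℤ
  f4 := f4_iff_single.2 p4_all
  f4' := f4_iff_single.2 p4_all
  tr a d := by
    rw [← tr_chk]
    refine Finset.sum_congr rfl fun b _ => ?_
    rw [sum_nZ, nZ_eq]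
    rfl

theorem sg_cancel {a b : I} {x y : R} (h : x * (sg a b : R) = y * (sg a b : R)) : x = y := by
  have h1 : (sg a b : R) * (sg a b : R) = 1 := by rw [← Int.cast_mul, sg_sq, Int.cast_one]
  rw [← mul_one x, ← mul_one y, ← h1, ← mul_assoc, ← mul_assoc, h]

theorem diag_single (d : I → R) (a : I) :
    diagonal d *ᵥ (Pi.single a 1 : I → R) = d a • (Pi.single a 1 : I → R) := by
  funext i
  rw [mulVec_diagonal, Pi.smul_apply, smul_eq_mul]
  by_cases h : i = a
  · rw [h]
  · rw [Pi.single_eq_of_ne h, mul_zero, mul_zero]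

end Z1Aux

open Z1Aux

theorem crs_nZ (x y : I → R) (c : I) :
    crs (nZ R) x y c = ∑ a, if Adj c a then (sg c a : R) * (x a * y (thd c a)) else 0 := by
  refine Finset.sum_congr rfl fun a _ => ?_
  rw [← sum_nZ c a fun b => x a * y b]
  refine Finset.sum_congr rfl fun b _ => ?_
  rw [(sym R).2 a b c, (sym R).1 a c b]

theorem tri_nZ_comb (x y z : I → R) : tri (nZ R) x y z =
    ∑ a, ∑ b, if Adj a b then (sg a b : R) * (x a * y b * z (thd a b)) else 0 :=
  Finset.sum_congr rfl fun a _ => Finset.sum_congr rfl fun b _ =>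
    sum_nZ a b fun c => x a * y b * z c

theorem isAlb_nZ (R : Type) [CommRing R] : IsAlb (nZ R) (nZ R) := by
  have h := isAlb_int.map (Int.castRingHom R)
  rwa [nZ_map] at h

theorem sim_diagonal_iff {d : I → R} {ν : R} : Sim (nZ R) (nZ R) (diagonal d) ν ↔
    ∀ a b, Adj a b → d a * d b * d (thd a b) = ν := by
  constructor
  · intro h a b hab
    have h1 := h (Pi.single a 1) (Pi.single b 1) (Pi.single (thd a b) 1)
    rw [diag_single, diag_single, diag_single, tri_smul₁, tri_smul₂, tri_smul₃, tri_single, nZ_eq,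
      if_pos ⟨hab, rfl⟩] at h1
    refine sg_cancel (a := a) (b := b) ?_
    rw [← h1]
    ring
  · intro h x y z
    rw [tri_nZ_comb, tri_nZ_comb, Finset.mul_sum]
    refine Finset.sum_congr rfl fun a _ => ?_
    rw [Finset.mul_sum]
    refine Finset.sum_congr rfl fun b _ => ?_
    split_ifs with hab
    · rw [mulVec_diagonal, mulVec_diagonal, mulVec_diagonal, ← h a b hab]
      ring
    · rw [mul_zero]

theorem der_diagonal_iff {d : I → R} {c : R} : Der (nZ R) (diagonal d) c ↔
    ∀ a b, Adj a b → d a + d b + d (thd a b) = c := by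
  constructor
  · intro h a b hab
    have h1 := h (Pi.single a 1) (Pi.single b 1) (Pi.single (thd a b) 1)
    rw [diag_single, diag_single, diag_single, tri_smul₁, tri_smul₂, tri_smul₃, tri_single, nZ_eq,
      if_pos ⟨hab, rfl⟩] at h1
    refine sg_cancel (a := a) (b := b) ?_
    rw [← h1]
    ring
  · intro h x y z
    simp only [tri_nZ_comb, Finset.mul_sum, ← Finset.sum_add_distrib]
    refine Finset.sum_congr rfl fun a _ => Finset.sum_congr rfl fun b _ => ?_
    split_ifs with hab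
    · rw [mulVec_diagonal, mulVec_diagonal, mulVec_diagonal, ← h a b hab]
      ring
    · simp

end Pool.Agent.P.MP_3c2f8c_gt.Ex
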